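import Mathlib
import Pool.Agent.TH888.B1.Sieg

/-!
The box principle for functions with prescribed Taylor expansions, in one and two variables.
-/

set_option autoImplicit false

namespace Pool.Agent.N741.LD

open Finset Polynomial
open scoped Polynomial.Bivariate

/-- **the box principle** -/
theorem box {G J κ : Type*} [AddCommGroup G] [Fintype J] [Fintype κ] (F : J → G)
    (lam : κ → G →+ ℤ) (w : κ → ℕ) (r T : ℕ) (q : J → ℕ) (hr : 2 ≤ r) (hq : ∀ j, 0 < q j)
    (hbig : (Fintype.card J) ^ (Fintype.card J) * (∏ j, q j) * ∏ k, r ^ w k <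
      r ^ (T * Fintype.card J)) :
    ∃ d : J → ℤ, d ≠ 0 ∧ (∀ j, (Fintype.card J : ℤ) * (|d j| * q j) < (r : ℤ) ^ T) ∧
      ∀ k, (r : ℤ) ^ w k ∣ lam k (∑ j, d j • F j) := by
  classical
  obtain ⟨n, hn⟩ : ∃ n, n = Fintype.card J := ⟨_, rfl⟩
  rw [← hn] at hbig ⊢
  have hn1 : 1 ≤ n := by
    by_contra h
    have h0 : n = 0 := by omega
    have : IsEmpty J := Fintype.card_eq_zero_iff.mp (by omega)
    rw [h0] at hbig
    simp only [pow_zero, univ_eq_empty, prod_empty, one_mul, mul_zero] at hbig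
    have : 1 ≤ ∏ k, r ^ w k := Nat.one_le_iff_ne_zero.mpr
      (prod_ne_zero_iff.mpr fun k _ => pow_ne_zero _ (by omega))
    omega
  obtain ⟨H, hH⟩ : ∃ H, H = (r ^ T - 1) / n := ⟨_, rfl⟩
  have hrT : 1 ≤ r ^ T := Nat.one_le_pow _ _ (by omega)
  have hH1 : n * H < r ^ T := by
    have : n * H ≤ r ^ T - 1 := by rw [hH]; exact Nat.mul_div_le _ _
    omega
  have hH2 : r ^ T ≤ (H + 1) * n := by
    have : r ^ T - 1 < n * (H + 1) := by rw [hH]; exact Nat.lt_mul_div_succ _ hn1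
    rw [mul_comm]; omega
  set bx := Fintype.piFinset (fun j => range (H / q j + 1)) with hbx
  set tgt := Fintype.piFinset (fun k : κ => range (r ^ w k)) with htgt
  have hcard' : tgt.card < bx.card := by
    rw [htgt, hbx, Fintype.card_piFinset, Fintype.card_piFinset]
    simp only [card_range]
    obtain ⟨B, hB⟩ : ∃ B, B = ∏ j, (H / q j + 1) := ⟨_, rfl⟩
    obtain ⟨Q, hQ⟩ : ∃ Q, Q = ∏ j, q j := ⟨_, rfl⟩
    have h1 : (H + 1) ^ n ≤ B * Q := by
      rw [hB, hQ, ← prod_mul_distrib]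
      have h2 : (H + 1) ^ n = ∏ _j : J, (H + 1) := by
        rw [prod_const, card_univ, hn]
      rw [h2]
      apply prod_le_prod (fun _ _ => Nat.zero_le _)
      intro j _
      have h3 : H < q j * (H / q j + 1) := Nat.lt_mul_div_succ H (hq j)
      rw [mul_comm]
      exact h3
    have h4 : r ^ (T * n) ≤ (H + 1) ^ n * n ^ n := by
      rw [pow_mul, ← mul_pow]
      exact Nat.pow_le_pow_left hH2 _
    rw [← hQ] at hbig
    rw [← hB]
    have h5 : n ^ n * Q * ∏ k, r ^ w k < n ^ n * Q * B := by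
      calc n ^ n * Q * ∏ k, r ^ w k < r ^ (T * n) := hbig
        _ ≤ (H + 1) ^ n * n ^ n := h4
        _ ≤ B * Q * n ^ n := Nat.mul_le_mul_right _ h1
        _ = n ^ n * Q * B := by ring
    exact Nat.lt_of_mul_lt_mul_left h5
  have hpos : ∀ k : ℕ, (0 : ℤ) < (r : ℤ) ^ k := by
    intro k
    have : (0 : ℤ) < r := by exact_mod_cast (by omega : 0 < r)
    positivity
  set Q : (J → ℕ) → G := fun v => ∑ j, (v j : ℤ) • F j with hQ
  set Φ : (J → ℕ) → (κ → ℕ) := fun v k => (lam k (Q v) % ((r : ℤ) ^ w k)).toNat with hΦ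
  have hmaps : ∀ v ∈ bx, Φ v ∈ tgt := by
    intro v _
    rw [htgt, Fintype.mem_piFinset]
    intro k
    rw [mem_range]
    have h1 := Int.emod_lt_of_pos (lam k (Q v)) (hpos (w k))
    have h2 := Int.emod_nonneg (lam k (Q v)) (hpos (w k)).ne'
    simp only [hΦ]
    zify
    rw [Int.toNat_of_nonneg h2]
    exact h1
  obtain ⟨v, hv, v', hv', hne, heq⟩ := exists_ne_map_eq_of_card_lt_of_maps_to hcard' hmaps
  rw [hbx, Fintype.mem_piFinset] at hv hv'
  refine ⟨fun j => (v j : ℤ) - v' j, ?_, ?_, ?_⟩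
  · intro h0
    apply hne
    funext j
    have := congrFun h0 j
    simp only [Pi.zero_apply] at this
    omega
  · intro j
    have h1 := hv j
    have h2 := hv' j
    rw [mem_range] at h1 h2
    have h3 : |(v j : ℤ) - v' j| ≤ (H / q j : ℕ) := by
      rw [abs_le]
      constructor <;> omega
    calc (n : ℤ) * (|(v j : ℤ) - v' j| * q j) ≤ n * ((H / q j : ℕ) * (q j : ℤ)) := by gcongr
      _ ≤ n * H := by
        apply mul_le_mul_of_nonneg_left _ (by positivity)
        exact_mod_cast Nat.div_mul_le_self H (q j)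
      _ < (r : ℤ) ^ T := by exact_mod_cast hH1
  · intro k
    have hQd : ∑ j, ((v j : ℤ) - v' j) • F j = Q v - Q v' := by
      simp only [hQ, sub_smul, sum_sub_distrib]
    rw [hQd, map_sub]
    have h2 := congrFun heq k
    simp only [hΦ] at h2
    have h3 : lam k (Q v) % ((r : ℤ) ^ w k) = lam k (Q v') % ((r : ℤ) ^ w k) := by
      have e1 := Int.emod_nonneg (lam k (Q v)) (hpos (w k)).ne'
      have e2 := Int.emod_nonneg (lam k (Q v')) (hpos (w k)).ne'
      rw [← Int.toNat_of_nonneg e1, ← Int.toNat_of_nonneg e2, h2]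
    exact Int.ModEq.dvd (show lam k (Q v') ≡ lam k (Q v) [ZMOD ((r : ℤ) ^ w k)] from h3.symm)

/-- a small number divisible by a large power is zero -/
theorem vanish {J : Type*} [Fintype J] [Nonempty J] (d : J → ℤ) (q : J → ℕ) (r T : ℕ)
    (hd : ∀ j, (Fintype.card J : ℤ) * (|d j| * q j) < (r : ℤ) ^ T) (f : J → ℤ)
    (hf : ∀ j, |f j| ≤ q j) (hdvd : (r : ℤ) ^ T ∣ ∑ j, d j * f j) : ∑ j, d j * f j = 0 := by
  refine Int.eq_zero_of_abs_lt_dvd hdvd ?_
  have hn : (0 : ℤ) < Fintype.card J := by exact_mod_cast Fintype.card_pos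
  have h1 : |∑ j, d j * f j| ≤ ∑ j, |d j| * q j := by
    refine (abs_sum_le_sum_abs _ _).trans (sum_le_sum fun j _ => ?_)
    rw [abs_mul]
    exact mul_le_mul_of_nonneg_left (hf j) (abs_nonneg _)
  have h2 : (Fintype.card J : ℤ) * ∑ j, |d j| * q j < Fintype.card J * (r : ℤ) ^ T := by
    rw [mul_sum]
    calc ∑ j, (Fintype.card J : ℤ) * (|d j| * q j) < ∑ _j : J, (r : ℤ) ^ T :=
          sum_lt_sum_of_nonempty univ_nonempty fun j _ => hd j
      _ = _ := by rw [sum_const, card_univ, nsmul_eq_mul]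
  exact h1.trans_lt (lt_of_mul_lt_mul_left h2 hn.le)

/-- Taylor coefficients in one variable -/
noncomputable def lam1 (x₀ : ℤ) (k : ℕ) : ℤ[X] →+ ℤ where
  toFun F := (taylor x₀ F).coeff k
  map_zero' := by simp
  map_add' F G := by simp

theorem lam1_dvd (r T : ℕ) (x₀ : ℤ) (F : ℤ[X]) (h : ∀ k < T, (r : ℤ) ^ (T - k) ∣ lam1 x₀ k F)
    (x : ℤ) (hx : (r : ℤ) ∣ x - x₀) : (r : ℤ) ^ T ∣ F.eval x := by
  have h1 : F.eval x = ∑ k ∈ range ((taylor x₀ F).natDegree + 1),
      (taylor x₀ F).coeff k * (x - x₀) ^ k := by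
    rw [← eval_eq_sum_range, taylor_eval_sub]
  rw [h1]
  apply dvd_sum
  intro k _
  have h2 : (r : ℤ) ^ k ∣ (x - x₀) ^ k := pow_dvd_pow_of_dvd hx k
  rcases Nat.lt_or_ge k T with h3 | h3
  · have := mul_dvd_mul (h k h3) h2
    rw [← pow_add, Nat.sub_add_cancel h3.le] at this
    exact this
  · exact ((pow_dvd_pow _ h3).trans h2).mul_left _

/-- Taylor coefficients in two variables -/
noncomputable def lam2 (x₀ y₀ : ℤ) (a b : ℕ) : ℤ[X][Y] →+ ℤ where
  toFun F := (taylor x₀ ((taylor (C y₀) F).coeff b)).coeff a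
  map_zero' := by simp
  map_add' F G := by simp

theorem lam2_dvd (r T : ℕ) (x₀ y₀ : ℤ) (F : ℤ[X][Y])
    (h : ∀ a < T, ∀ b < T, (r : ℤ) ^ (T - (a + b)) ∣ lam2 x₀ y₀ a b F)
    (x y : ℤ) (hx : (r : ℤ) ∣ x - x₀) (hy : (r : ℤ) ∣ y - y₀) : (r : ℤ) ^ T ∣ F.evalEval x y := by
  have h1 : F.evalEval x y = ∑ b ∈ range ((taylor (C y₀) F).natDegree + 1),
      ((taylor (C y₀) F).coeff b).eval x * (y - y₀) ^ b := by
    have e : F.eval (C y) = (taylor (C y₀) F).eval (C (y - y₀)) := by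
      rw [C_sub, taylor_eval_sub]
    rw [evalEval, e, eval_eq_sum_range (p := taylor (C y₀) F), eval_finsetSum]
    apply sum_congr rfl
    intro b _
    rw [eval_mul, eval_pow, eval_C]
  rw [h1]
  apply dvd_sum
  intro b _
  have h2 : (r : ℤ) ^ b ∣ (y - y₀) ^ b := pow_dvd_pow_of_dvd hy b
  rcases Nat.lt_or_ge b T with h3 | h3
  · have h4 : (r : ℤ) ^ (T - b) ∣ ((taylor (C y₀) F).coeff b).eval x := by
      apply lam1_dvd r (T - b) x₀ _ _ x hx
      intro a ha
      have := h a (by omega) b h3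
      rw [show T - (a + b) = T - b - a by omega] at this
      exact this
    have := mul_dvd_mul h4 h2
    rw [← pow_add, Nat.sub_add_cancel h3.le] at this
    exact this
  · exact ((pow_dvd_pow _ h3).trans h2).mul_left _

end Pool.Agent.N741.LD
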