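import Mathlib

/-!
Approximation of the roots of polynomials with parameters by polynomials in the parameters
(Hensel's lemma).
-/

set_option autoImplicit false

namespace Pool.Agent.N741.LD

open Finset Polynomial
open scoped Polynomial.Bivariate

/-- **Hensel's lemma with parameters** -/
theorem hensel {R : Type*} [CommRing R] (F : R[X]) (r : ℕ) (c y₀ : ℤ) (T : ℕ) :
    ∃ Ψ : R, ∀ (φ : R →+* ℤ) (y : ℤ), (F.map φ).eval y = 0 → (r : ℤ) ∣ y - y₀ →
      (r : ℤ) ∣ 1 - c * (derivative (F.map φ)).eval y → (r : ℤ) ^ T ∣ y - φ Ψ := by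
  induction T with
  | zero => exact ⟨0, fun _ _ _ _ _ => by rw [pow_zero]; exact one_dvd _⟩
  | succ T ih =>
    rcases Nat.eq_zero_or_pos T with rfl | hT
    · refine ⟨((y₀ : ℤ) : R), fun φ y _ h2 _ => ?_⟩
      rw [map_intCast, Nat.zero_add, pow_one]
      exact h2
    obtain ⟨Ψ, hΨ⟩ := ih
    refine ⟨Ψ - (c : R) * F.eval Ψ, fun φ y h1 h2 h3 => ?_⟩
    have h4 := hΨ φ y h1 h2 h3
    -- Taylor expansion
    have h5 : φ (F.eval Ψ) = (F.map φ).eval (φ Ψ) := (eval_map_apply ..).symm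
    obtain ⟨k, hk⟩ := (F.map φ).binomExpansion y (φ Ψ - y)
    rw [add_sub_cancel, h1, zero_add] at hk
    obtain ⟨e, he⟩ := h4
    obtain ⟨g, hg⟩ := h3
    obtain ⟨t, rfl⟩ := Nat.exists_eq_add_of_le' hT
    refine ⟨e * g + c * k * ((r : ℤ) ^ t * e ^ 2), ?_⟩
    rw [map_sub, map_mul, map_intCast, h5, hk]
    have he' : φ Ψ - y = -((r : ℤ) ^ (t + 1) * e) := by rw [← he]; ring
    rw [he']
    have e1 : y - (φ Ψ - ↑c * ((derivative (F.map φ)).eval y * -((r : ℤ) ^ (t + 1) * e) +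
        k * (-((r : ℤ) ^ (t + 1) * e)) ^ 2)) =
        (r : ℤ) ^ (t + 1) * e * (1 - c * (derivative (F.map φ)).eval y) +
        c * k * (((r : ℤ) ^ (t + 1) * e)) ^ 2 := by
      have : y - φ Ψ = (r : ℤ) ^ (t + 1) * e := he
      push_cast
      linear_combination this
    simp only [Int.cast_id] at e1 ⊢
    rw [e1, hg]
    ring

/-- the root of order `z` -/
theorem hensel_root {R : Type*} [CommRing R] (G : R) {r z : ℕ} (hr : r.Prime) (hz : ¬ r ∣ z) (w₀ : ℤ)
    (hw₀ : ¬ (r : ℤ) ∣ w₀) (T : ℕ) : ∃ P : R, ∀ (φ : R →+* ℤ) (w : ℤ), (r : ℤ) ∣ w - w₀ →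
      w ^ z = φ G → (r : ℤ) ^ T ∣ w - φ P := by
  have hrp : Prime (r : ℤ) := Nat.prime_iff_prime_int.mp hr
  have hcop : IsCoprime ((z : ℤ) * w₀ ^ (z - 1)) (r : ℤ) := by
    rw [isCoprime_comm, hrp.irreducible.coprime_iff_not_dvd]
    intro h
    rcases hrp.dvd_or_dvd h with h1 | h1
    · exact hz (by exact_mod_cast h1)
    · exact hw₀ (hrp.dvd_of_dvd_pow h1)
  obtain ⟨u, v, huv⟩ := hcop
  obtain ⟨P, hP⟩ := hensel (X ^ z - C G) r u w₀ T
  refine ⟨P, fun φ w hw h => hP φ w ?_ hw ?_⟩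
  · simp [h]
  · simp only [Polynomial.map_sub, Polynomial.map_pow, map_X, map_C, derivative_sub, derivative_X_pow,
      derivative_C, sub_zero, eval_mul, eval_pow, eval_X, eval_natCast, map_natCast]
    have h1 : (r : ℤ) ∣ w ^ (z - 1) - w₀ ^ (z - 1) := hw.trans (sub_dvd_pow_sub_pow _ _ _)
    obtain ⟨g, hg⟩ := h1
    refine ⟨v - u * z * g, ?_⟩
    linear_combination (-huv) - (u * z) * hg

/-- a smooth point of a plane curve modulo `r` -/
theorem hensel_curve (A : ℤ[X][Y]) {r : ℕ} (hr : r.Prime) (x₀ y₀ : ℤ)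
    (hA : ¬ (r : ℤ) ∣ (derivative A).evalEval x₀ y₀) (T : ℕ) : ∃ Ψ : ℤ[X], ∀ x y : ℤ,
      (r : ℤ) ∣ x - x₀ → (r : ℤ) ∣ y - y₀ → A.evalEval x y = 0 → (r : ℤ) ^ T ∣ y - Ψ.eval x := by
  have hrp : Prime (r : ℤ) := Nat.prime_iff_prime_int.mp hr
  have hcop : IsCoprime ((derivative A).evalEval x₀ y₀) (r : ℤ) := by
    rw [isCoprime_comm, hrp.irreducible.coprime_iff_not_dvd]
    exact hA
  obtain ⟨u, v, huv⟩ := hcop
  obtain ⟨Ψ, hΨ⟩ := hensel A r u y₀ T
  refine ⟨Ψ, fun x y hx hy h => hΨ (evalRingHom x) y ?_ hy ?_⟩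
  · rw [map_evalRingHom_eval]; exact h
  · rw [derivative_map, map_evalRingHom_eval]
    have h1 : (r : ℤ) ∣ (derivative A).evalEval x y - (derivative A).evalEval x₀ y₀ := by
      have e1 : (r : ℤ) ∣ (derivative A).evalEval x y - (derivative A).evalEval x y₀ := by
        unfold evalEval
        rw [← eval_sub]
        have e2 : (C y - C y₀ : ℤ[X]) ∣ (derivative A).eval (C y) - (derivative A).eval (C y₀) :=
          sub_dvd_eval_sub _ _ _
        obtain ⟨g, hg⟩ := e2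
        rw [hg, eval_mul, eval_sub, eval_C, eval_C]
        exact hy.mul_right _
      have e3 : (r : ℤ) ∣ (derivative A).evalEval x y₀ - (derivative A).evalEval x₀ y₀ := by
        unfold evalEval
        exact hx.trans (sub_dvd_eval_sub _ _ _)
      have := dvd_add e1 e3
      rwa [sub_add_sub_cancel] at this
    obtain ⟨g, hg⟩ := h1
    refine ⟨v - u * g, ?_⟩
    linear_combination (-huv) - u * hg

end Pool.Agent.N741.LD
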