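import Mathlib

/-!
Statements on integral points of plane curves, used for the Fermat-Catalan equation with two small bases.
-/

set_option autoImplicit false

namespace Pool.Agent.N741.LD

open Polynomial
open scoped Polynomial.Bivariate

/-- the degree in `X` of a polynomial in `X` (inner variable) and `Y` (outer variable) -/
noncomputable def dX (A : ℤ[X][Y]) : ℕ := (Bivariate.swap A).natDegree

/-- the support is contained in a line -/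
def Col (A : ℤ[X][Y]) : Prop :=
  ∃ α β c : ℤ, (α ≠ 0 ∨ β ≠ 0) ∧ ∀ i j : ℕ, (A.coeff j).coeff i ≠ 0 → α * i + β * j = c

/-- LD/1: a weak form of the theorem of Bezout -/
def Bez : Prop := ∀ (A N : ℤ[X][Y]) (a b d e : ℕ), Irreducible A → 1 ≤ A.natDegree → ¬ A ∣ N →
  dX A ≤ a → dX N ≤ b → A.natDegree ≤ d → N.natDegree ≤ e → ∀ S : Finset (ℤ × ℤ),
  (∀ v ∈ S, A.evalEval v.1 v.2 = 0 ∧ N.evalEval v.1 v.2 = 0) → S.card ≤ (d * b + e * a) * d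

/-- LD/2: an irreducible curve with many integral points in a box has small coefficients -/
def Hgt : Prop := ∀ (A : ℤ[X][Y]) (a d N : ℕ), Irreducible A → 1 ≤ A.natDegree →
  dX A ≤ a → A.natDegree ≤ d → 1 ≤ N → ∀ S : Finset (ℤ × ℤ),
  (∀ v ∈ S, |v.1| ≤ N ∧ |v.2| ≤ N ∧ A.evalEval v.1 v.2 = 0) → 2 * a * d ^ 2 < S.card →
  ∀ i j : ℕ, ((A.coeff j).coeff i).natAbs ≤ ((a + 1) * (d + 1) * N ^ (a + d)) ^ ((a + 1) * (d + 1))

/-- LD/3: on a curve of bounded degree whose support is not contained in a line the function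
`X ^ p ± Y ^ q` is far from being a power -/
def Spa : Prop := ∀ E : ℕ, ∃ C₁ : ℕ, ∀ A : ℤ[X][Y], Irreducible A → 1 ≤ A.natDegree →
  A.natDegree ≤ E → dX A ≤ E → ¬ Col A → ∀ (p q : ℕ) (s σ : ℤ), 1 ≤ p → C₁ ≤ q →
  (s = 1 ∨ s = -1) → (σ = 1 ∨ σ = -1) → ∀ (U D : ℤ[X][Y]) (n r : ℕ), 1 ≤ n → ¬ A ∣ D →
  A ∣ U ^ r - C (C σ) * D ^ r * (C X ^ p + C (C s) * Y ^ q) ^ n → r ≤ C₁ * n

/-- LD/4: few coprime points on curves whose support is contained in a line -/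
def Spe : Prop := ∀ (E : ℕ) (ε : ℝ), 0 < ε → ∃ N₀ : ℕ, ∀ N : ℕ, N₀ ≤ N → ∀ A : ℤ[X][Y],
  Irreducible A → 1 ≤ A.natDegree → 1 ≤ dX A → A.natDegree ≤ E → dX A ≤ E → Col A →
  ∀ S : Finset (ℕ × ℕ), (∀ v ∈ S, 1 ≤ v.1 ∧ v.1 ≤ N ∧ 1 ≤ v.2 ∧ v.2 ≤ N ∧ Nat.Coprime v.1 v.2 ∧
    A.evalEval (v.1 : ℤ) (v.2 : ℤ) = 0) → (S.card : ℝ) ≤ (N : ℝ) ^ ε

/-- LD/5: a polynomial with at most `n` nonzero coefficients has no nonzero root of multiplicity `n` -/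
def Few : Prop := ∀ (P : ℂ[X]) (τ : ℂ), P ≠ 0 → τ ≠ 0 → P.rootMultiplicity τ < P.support.card

end Pool.Agent.N741.LD
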