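import Mathlib
import Pool.Agent.N741.LD.Stm
import Pool.Agent.N741.PB.Fac

/-!
Elimination of `w` from a relation of small degree in `w` and `w ^ z = F (x, y)`.
-/

set_option autoImplicit false

namespace Pool.Agent.N741.LD

open Finset Polynomial
open scoped Polynomial.Bivariate

theorem dX_mul_le (A B : ℤ[X][Y]) : dX (A * B) ≤ dX A + dX B := by
  unfold dX
  rw [map_mul]
  exact natDegree_mul_le

theorem dX_add_le (A B : ℤ[X][Y]) : dX (A + B) ≤ max (dX A) (dX B) := by
  unfold dX
  rw [map_add]
  exact natDegree_add_le _ _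

theorem dX_sub_le (A B : ℤ[X][Y]) : dX (A - B) ≤ max (dX A) (dX B) := by
  unfold dX
  rw [map_sub]
  exact natDegree_sub_le _ _

theorem dX_pow_le (A : ℤ[X][Y]) (n : ℕ) : dX (A ^ n) ≤ n * dX A := by
  unfold dX
  rw [map_pow]
  exact natDegree_pow_le

theorem natDegree_det_le' {R : Type*} [CommRing R] {m : ℕ} (M : Matrix (Fin m) (Fin m) R[X])
    (b : Fin m → ℕ) (h : ∀ i j, (M i j).natDegree ≤ b j) : M.det.natDegree ≤ ∑ j, b j := by
  rw [Matrix.det_apply]
  apply natDegree_sum_le_of_forall_le
  intro σ _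
  refine (natDegree_smul_le _ _).trans ?_
  exact (natDegree_prod_le _ _).trans (sum_le_sum fun i _ => h _ _)

theorem natDegree_resultant_le' {R : Type*} [CommRing R] (f g : R[X][X]) (m n a b : ℕ)
    (hf : ∀ i, (f.coeff i).natDegree ≤ a)
    (hg : ∀ i, (g.coeff i).natDegree ≤ b) : (resultant f g m n).natDegree ≤ m * b + n * a := by
  unfold resultant
  refine (natDegree_det_le' _ (fun j => j.addCases (fun _ => b) (fun _ => a)) ?_).trans ?_
  · intro i j
    refine j.addCases ?_ ?_
    · intro j
      rw [sylvester, Matrix.of_apply, Fin.addCases_left, Fin.addCases_left]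
      split_ifs
      · exact hg _
      · simp
    · intro j
      rw [sylvester, Matrix.of_apply, Fin.addCases_right, Fin.addCases_right]
      split_ifs
      · exact hf _
      · simp
  · rw [Fin.sum_univ_add]
    simp

/-- the image of `X ^ z - F` has no factor of degree between `1` and `I - 1` -/
def NoFac2 {K : Type*} [Field K] (φ : ℤ[X][Y] →+* K) (F : ℤ[X][Y]) (z I : ℕ) : Prop :=
  ∀ Q : K[X], Q ∣ X ^ z - C (φ F) → Q.natDegree < I → Q.natDegree = 0

theorem elim {K : Type*} [Field K] (φ : ℤ[X][Y] →+* K) {F : ℤ[X][Y]} {z I a b : ℕ} (hz : 1 ≤ z)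
    (B : Fin I → ℤ[X][Y]) (hB : B ≠ 0) (hφ : ∀ i, φ (B i) = 0 → B i = 0)
    (ha : ∀ i, dX (B i) ≤ a) (hb : ∀ i, (B i).natDegree ≤ b) (hF : NoFac2 φ F z I) :
    ∃ R : ℤ[X][Y], φ R ≠ 0 ∧ R.natDegree ≤ z * b + I * F.natDegree ∧ dX R ≤ z * a + I * dX F ∧
      ∀ x y w : ℤ, w ^ z = F.evalEval x y →
        ∑ i, (B i).evalEval x y * w ^ (i : ℕ) = 0 → R.evalEval x y = 0 := by
  classical
  set P : ℤ[X][Y][X] := ∑ i, C (B i) * X ^ (i : ℕ) with hP
  have hPcoeff : ∀ i : Fin I, P.coeff i = B i := by
    intro i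
    rw [hP, finsetSum_coeff]
    simp only [coeff_C_mul, coeff_X_pow]
    rw [Finset.sum_eq_single i]
    · simp
    · intro j _ hj
      have : (i : ℕ) ≠ j := fun h => hj (Fin.ext h.symm)
      simp [this]
    · simp
  have hPz : ∀ i : ℕ, I ≤ i → P.coeff i = 0 := by
    intro i hi
    rw [hP, finsetSum_coeff]
    apply sum_eq_zero
    intro j _
    rw [coeff_C_mul, coeff_X_pow, if_neg (by have := j.isLt; omega), mul_zero]
  have hPb : ∀ i : ℕ, (P.coeff i).natDegree ≤ b := by
    intro i
    by_cases hi : i < I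
    · have := hPcoeff ⟨i, hi⟩
      simp only at this
      rw [this]; exact hb _
    · rw [hPz i (by omega)]; simp
  have hPa : ∀ i : ℕ, (Bivariate.swap (P.coeff i)).natDegree ≤ a := by
    intro i
    by_cases hi : i < I
    · have := hPcoeff ⟨i, hi⟩
      simp only at this
      rw [this]; exact ha _
    · rw [hPz i (by omega), map_zero]; simp
  have hP0 : P ≠ 0 := by
    intro h
    apply hB
    funext i
    rw [← hPcoeff i, h, coeff_zero]; rfl
  have hI : 0 < I := by
    rcases Nat.eq_zero_or_pos I with rfl | h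
    · exfalso; apply hB; funext i; exact i.elim0
    · exact h
  have hPdeg : P.natDegree < I := by
    rw [hP]
    refine lt_of_le_of_lt (natDegree_sum_le_of_forall_le (n := I - 1) _ _ fun i _ => ?_) (by omega)
    refine (natDegree_C_mul_X_pow_le _ _).trans ?_
    have := i.isLt
    omega
  have hPlc : φ P.leadingCoeff ≠ 0 := by
    intro h
    have h1 := hPcoeff ⟨P.natDegree, hPdeg⟩
    simp only at h1
    rw [leadingCoeff, h1] at h
    have h2 := hφ _ h
    rw [← h1] at h2
    exact hP0 (leadingCoeff_eq_zero.mp h2)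
  set Z : ℤ[X][Y][X] := X ^ z - C F with hZ
  have hZmonic : Z.Monic := monic_X_pow_sub_C F (by omega)
  have hZdeg : Z.natDegree = z := natDegree_X_pow_sub_C
  have hZb : ∀ i, (Z.coeff i).natDegree ≤ F.natDegree := by
    intro i
    rw [hZ, coeff_sub, coeff_X_pow, coeff_C]
    split_ifs
    · exact (natDegree_sub_le _ _).trans (by simp)
    · exact (natDegree_sub_le _ _).trans (by simp)
    · exact (natDegree_sub_le _ _).trans (by simp)
    · simp
  have hZa : ∀ i, (Bivariate.swap (Z.coeff i)).natDegree ≤ dX F := by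
    intro i
    rw [hZ, coeff_sub, coeff_X_pow, coeff_C, map_sub]
    split_ifs
    · exact (natDegree_sub_le _ _).trans (by simp [dX])
    · exact (natDegree_sub_le _ _).trans (by simp)
    · exact (natDegree_sub_le _ _).trans (by simp [dX])
    · simp
  refine ⟨resultant P Z, ?_, ?_, ?_, ?_⟩
  · intro h0
    have h1 : resultant (P.map φ) (Z.map φ) = 0 := by
      rw [natDegree_map_of_leadingCoeff_ne_zero φ hPlc, hZmonic.natDegree_map, resultant_map_map]
      exact h0
    rw [resultant_eq_zero_iff] at h1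
    apply h1.2
    rw [← EuclideanDomain.gcd_isUnit_iff]
    set D := EuclideanDomain.gcd (P.map φ) (Z.map φ) with hD
    have hPm : P.map φ ≠ 0 := by
      intro h
      apply hPlc
      have := natDegree_map_of_leadingCoeff_ne_zero φ hPlc
      have h2 : (P.map φ).coeff P.natDegree = φ P.leadingCoeff := coeff_map _ _
      rw [← h2, h, coeff_zero]
    have h2 : D ∣ P.map φ := EuclideanDomain.gcd_dvd_left _ _
    have h3 : D ∣ Z.map φ := EuclideanDomain.gcd_dvd_right _ _
    have h4 : D.natDegree < I := by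
      refine lt_of_le_of_lt (natDegree_le_of_dvd h2 hPm) ?_
      exact (natDegree_map_le).trans_lt hPdeg
    have h5 : Z.map φ = X ^ z - C (φ F) := by rw [hZ]; simp
    rw [h5] at h3
    have h6 := hF D h3 h4
    have hD0 : D ≠ 0 := fun h => hPm (by rw [h, zero_dvd_iff] at h2; exact h2)
    rw [Polynomial.isUnit_iff_degree_eq_zero, degree_eq_natDegree hD0, h6]; rfl
  · refine (natDegree_resultant_le' P Z _ _ b F.natDegree hPb hZb).trans ?_
    rw [hZdeg, add_comm]
    gcongr
  · have h1 : Bivariate.swap (resultant P Z) = resultant (P.map (Bivariate.swap (R := ℤ)).toRingHom)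
        (Z.map (Bivariate.swap (R := ℤ)).toRingHom) P.natDegree Z.natDegree := by
      rw [resultant_map_map]; rfl
    unfold dX
    rw [h1]
    refine (natDegree_resultant_le' _ _ _ _ a (dX F) ?_ ?_).trans ?_
    · intro i; rw [coeff_map]; exact hPa i
    · intro i; rw [coeff_map]; exact hZa i
    · rw [hZdeg, add_comm]
      unfold dX
      gcongr
  · intro x y w hw hrel
    obtain ⟨p, q, -, -, h1⟩ := exists_mul_add_mul_eq_C_resultant P Z le_rfl le_rfl
      (Or.inr (by rw [hZdeg]; omega))
    have h2 := congrArg (fun G : ℤ[X][Y][X] => (G.eval (C (C w))).evalEval x y) h1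
    simp only [eval_add, eval_mul, eval_C, evalEval_add, evalEval_mul] at h2
    have h3 : (P.eval (C (C w))).evalEval x y = 0 := by
      rw [hP, eval_finsetSum, evalEval_finsetSum, ← hrel]
      apply sum_congr rfl
      intro i _
      rw [eval_mul, eval_C, eval_pow, eval_X, evalEval_mul, evalEval_pow, evalEval_C, eval_C]
    have h4 : (Z.eval (C (C w))).evalEval x y = 0 := by
      rw [hZ, eval_sub, eval_pow, eval_X, eval_C, evalEval_sub, evalEval_pow, evalEval_C, eval_C, hw,
        sub_self]
    rw [h3, h4, zero_mul, zero_mul, zero_add] at h2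
    exact h2.symm

end Pool.Agent.N741.LD
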