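import Mathlib
import Pool.Agent.N741.LD.Elim

/-!
The function field of a plane curve, and factors of `X ^ z - F` over it.
-/

set_option autoImplicit false

namespace Pool.Agent.N741.LD

open Finset Polynomial
open scoped Polynomial.Bivariate

/-- `F ^ n` is not a `z`-th power (up to a `z`-th power in the denominator) on the curve `A = 0` for
`1 ≤ n < I` -/
def NoPow (A F : ℤ[X][Y]) (z I : ℕ) : Prop := ∀ (U D : ℤ[X][Y]) (n : ℕ), 1 ≤ n → n < I →
  ¬ A ∣ D → ¬ A ∣ U ^ z - D ^ z * F ^ n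

theorem field_of_surj {S R : Type} [CommRing S] [CommRing R] [IsDomain R] (f : S →+* R)
    (hf : Function.Surjective f) : ∃ (K : Type) (_ : Field K) (φ : S →+* K),
      (∀ B, φ B = 0 ↔ f B = 0) ∧ ∀ e : K, ∃ U D : S, f D ≠ 0 ∧ e = φ U / φ D := by
  refine ⟨FractionRing R, inferInstance, (algebraMap R (FractionRing R)).comp f, ?_, ?_⟩
  · intro B
    rw [RingHom.comp_apply, map_eq_zero_iff _ (IsFractionRing.injective R (FractionRing R))]
  · intro e
    obtain ⟨u, d, hd, rfl⟩ := IsFractionRing.div_surjective (A := R) e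
    obtain ⟨U, rfl⟩ := hf u
    obtain ⟨D, rfl⟩ := hf d
    exact ⟨U, D, nonZeroDivisors.ne_zero hd, rfl⟩

theorem field_of_prime {S : Type} [CommRing S] (I : Ideal S) (h : I.IsPrime) :
    ∃ (K : Type) (_ : Field K) (φ : S →+* K), (∀ B, φ B = 0 ↔ B ∈ I) ∧
      ∀ e : K, ∃ U D : S, D ∉ I ∧ e = φ U / φ D := by
  have h2 : IsDomain (S ⧸ I) := Ideal.Quotient.isDomain _
  obtain ⟨K, i, φ, h4, h5⟩ := field_of_surj (Ideal.Quotient.mk I) Ideal.Quotient.mk_surjective
  refine ⟨K, i, φ, fun B => (h4 B).trans Ideal.Quotient.eq_zero_iff_mem, fun e => ?_⟩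
  obtain ⟨U, D, hD, he⟩ := h5 e
  exact ⟨U, D, fun h => hD (Ideal.Quotient.eq_zero_iff_mem.mpr h), he⟩

/-- the field of functions on a prime curve -/
theorem exists_field {A : ℤ[X][Y]} (hA : Prime A) :
    ∃ (K : Type) (_ : Field K) (φ : ℤ[X][Y] →+* K), (∀ B, φ B = 0 ↔ A ∣ B) ∧
      ∀ e : K, ∃ U D : ℤ[X][Y], ¬ A ∣ D ∧ e = φ U / φ D := by
  obtain ⟨K, i, φ, h1, h2⟩ := field_of_prime (Ideal.span {A})
    ((Ideal.span_singleton_prime hA.ne_zero).mpr hA)
  refine ⟨K, i, φ, fun B => (h1 B).trans Ideal.mem_span_singleton, fun e => ?_⟩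
  obtain ⟨U, D, hD, he⟩ := h2 e
  exact ⟨U, D, fun h => hD (Ideal.mem_span_singleton.mpr h), he⟩

theorem noFac_of_noPow {A F : ℤ[X][Y]} {z I : ℕ} (hz : 1 ≤ z) (h : NoPow A F z I) {K : Type}
    [Field K] (φ : ℤ[X][Y] →+* K) (hφ : ∀ B, φ B = 0 ↔ A ∣ B)
    (hφ2 : ∀ e : K, ∃ U D : ℤ[X][Y], ¬ A ∣ D ∧ e = φ U / φ D) : NoFac2 φ F z I := by
  intro Q hQ hQI
  by_contra hd
  obtain ⟨e, he⟩ := Pool.Agent.N741.PB.factor_power hz Q hQ
  obtain ⟨U, D, hD, rfl⟩ := hφ2 e
  have hD0 : φ D ≠ 0 := fun h0 => hD ((hφ D).mp h0)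
  apply h U D Q.natDegree (Nat.one_le_iff_ne_zero.mpr hd) hQI hD
  rw [← hφ, map_sub, map_mul, map_pow, map_pow, map_pow, ← he, div_pow, mul_div_cancel₀ _
    (pow_ne_zero _ hD0), sub_self]

theorem rootMult_pow (P : ℂ[X]) (τ : ℂ) (n : ℕ) :
    (P ^ n).rootMultiplicity τ = n * P.rootMultiplicity τ := by
  rw [← count_roots, ← count_roots, roots_pow, Multiset.count_nsmul]

/-- multiplicities in one variable -/
theorem one_var {u d : ℤ[X]} {k l : ℤ} (hk : k ≠ 0) (hl : l ≠ 0) {p n z : ℕ} (hp : 1 ≤ p)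
    (hn : 1 ≤ n) (hd : d ≠ 0) (h : u ^ z = d ^ z * (C l * X ^ p + C k) ^ n) : z ≤ n := by
  set φ := Int.castRingHom ℂ with hφ
  have hinj : Function.Injective φ := φ.injective_int
  -- a root
  obtain ⟨τ, hτ⟩ : ∃ τ : ℂ, τ ^ p = -(k : ℂ) / l := IsAlgClosed.exists_pow_nat_eq _ (by omega)
  have hl' : (l : ℂ) ≠ 0 := by exact_mod_cast hl
  have hk' : (k : ℂ) ≠ 0 := by exact_mod_cast hk
  have hτ0 : τ ≠ 0 := by
    rintro rfl
    rw [zero_pow (by omega)] at hτ
    have : -(k : ℂ) / l ≠ 0 := div_ne_zero (neg_ne_zero.mpr hk') hl'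
    exact this hτ.symm
  set g : ℂ[X] := C (l : ℂ) * X ^ p + C (k : ℂ) with hg
  have hgeval : g.eval τ = 0 := by
    rw [hg, eval_add, eval_mul, eval_C, eval_C, eval_pow, eval_X, hτ]
    field_simp
    ring
  have hgder : (derivative g).eval τ ≠ 0 := by
    rw [hg, derivative_add, derivative_C, add_zero, derivative_C_mul, derivative_X_pow]
    simp only [eval_mul, eval_C, eval_pow, eval_X]
    exact mul_ne_zero hl' (mul_ne_zero (by exact_mod_cast (by omega : p ≠ 0)) (pow_ne_zero _ hτ0))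
  have hg0 : g ≠ 0 := by
    intro h0
    rw [h0, derivative_zero, eval_zero] at hgder
    exact hgder rfl
  have hg1 : g.rootMultiplicity τ = 1 := by
    have h1 : 0 < g.rootMultiplicity τ := (rootMultiplicity_pos hg0).mpr hgeval
    have h2 : ¬ 1 < g.rootMultiplicity τ := by
      intro h3
      rw [one_lt_rootMultiplicity_iff_isRoot hg0] at h3
      exact hgder h3.2
    omega
  have h1 := congrArg (fun P : ℤ[X] => (P.map φ).rootMultiplicity τ) h
  simp only [Polynomial.map_mul, Polynomial.map_pow, Polynomial.map_add, map_C, map_X] at h1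
  have hdm : d.map φ ≠ 0 := (Polynomial.map_ne_zero_iff hinj).mpr hd
  have hgm : (C (φ l) * X ^ p + C (φ k) : ℂ[X]) = g := by rw [hg, hφ]; simp
  rw [hgm] at h1
  have hne : (d.map φ) ^ z * g ^ n ≠ 0 := mul_ne_zero (pow_ne_zero _ hdm) (pow_ne_zero _ hg0)
  rw [rootMultiplicity_mul hne, rootMult_pow, rootMult_pow, rootMult_pow, hg1,
    mul_one] at h1
  have h2 : z ∣ n := by
    have h3 : z ∣ z * (d.map φ).rootMultiplicity τ + n := by rw [← h1]; exact dvd_mul_right _ _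
    exact (Nat.dvd_add_right (dvd_mul_right _ _)).mp h3
  exact Nat.le_of_dvd (by omega) h2

/-- the left side of the equation -/
noncomputable def GF (p q : ℕ) (s t : ℤ) : ℤ[X][Y] := C (C t) * (C X ^ p + C (C s) * Y ^ q)

theorem gf_eval (p q : ℕ) (s t x y : ℤ) : (GF p q s t).evalEval x y = t * (x ^ p + s * y ^ q) := by
  unfold GF
  rw [evalEval_mul, evalEval_add, evalEval_mul, evalEval_pow, evalEval_pow, evalEval_C, evalEval_C,
    evalEval_C, evalEval_X, eval_C, eval_C, eval_X]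

/-- horizontal lines -/
theorem noPow_line {p q z : ℕ} (hp : 1 ≤ p) {s t c : ℤ} (hs : s ≠ 0) (ht : t ≠ 0)
    (hc : c ≠ 0) : NoPow (Y - C (C c)) (GF p q s t) z z := by
  intro U D n hn hnz hD hdvd
  have hev : ∀ B : ℤ[X][Y], (Y - C (C c)) ∣ B ↔ B.eval (C c) = 0 := fun B => dvd_iff_isRoot
  rw [hev] at hD hdvd
  rw [eval_sub, eval_mul, eval_pow, eval_pow, eval_pow, sub_eq_zero] at hdvd
  have h1 : (GF p q s t).eval (C c) = C t * X ^ p + C (t * (s * c ^ q)) := by
    unfold GF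
    simp only [eval_mul, eval_add, eval_C, eval_pow, eval_X, C_mul, C_pow]
    ring
  rw [h1] at hdvd
  have := one_var (mul_ne_zero ht (mul_ne_zero hs (pow_ne_zero _ hc))) ht hp hn hD hdvd
  omega

/-- the whole plane -/
theorem noFac_plane {p q z : ℕ} (hq : 1 ≤ q) (hz : 1 ≤ z) {s t : ℤ} (hs : s ≠ 0)
    (ht : t ≠ 0) : NoFac2 (algebraMap ℤ[X][Y] (FractionRing ℤ[X][Y])) (GF p q s t) z z := by
  intro Q hQ hQI
  by_contra hd
  obtain ⟨e, he⟩ := Pool.Agent.N741.PB.factor_power hz Q hQ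
  obtain ⟨U, D, hD, rfl⟩ := IsFractionRing.div_surjective (A := ℤ[X][Y]) e
  have hinj : Function.Injective (algebraMap ℤ[X][Y] (FractionRing ℤ[X][Y])) :=
    IsFractionRing.injective _ _
  have hD0 : D ≠ 0 := nonZeroDivisors.ne_zero hD
  have hD1 : algebraMap ℤ[X][Y] (FractionRing ℤ[X][Y]) D ≠ 0 := fun h => hD0 (hinj (by rw [h, map_zero]))
  have h1 : U ^ z = D ^ z * (GF p q s t) ^ Q.natDegree := by
    apply hinj
    rw [map_mul, map_pow, map_pow, map_pow, ← he, div_pow, mul_div_cancel₀ _ (pow_ne_zero _ hD1)]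
  -- specialise `X`
  obtain ⟨i, hi⟩ : ∃ i, D.coeff i ≠ 0 := by
    by_contra hcon
    push Not at hcon
    exact hD0 (Polynomial.ext (by simpa using hcon))
  obtain ⟨l, hl⟩ : ∃ l : ℕ, ¬ (D.coeff i).IsRoot ((l : ℤ) + 1) := by
    by_contra hcon
    push Not at hcon
    have hfin := Polynomial.finite_setOfPred_isRoot hi
    have : (Set.range (fun l : ℕ => (l : ℤ) + 1)) ⊆ {x | (D.coeff i).IsRoot x} := by
      rintro x ⟨l, rfl⟩
      exact hcon l
    exact Set.infinite_range_of_injective (fun a b h => by simpa using h) (hfin.subset this)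
  have h2 := congrArg (fun P : ℤ[X][Y] => P.map (evalRingHom ((l : ℤ) + 1))) h1
  simp only [Polynomial.map_mul, Polynomial.map_pow] at h2
  have h3 : (GF p q s t).map (evalRingHom ((l : ℤ) + 1)) = C (t * s) * X ^ q + C (t * ((l : ℤ) + 1) ^ p) := by
    unfold GF
    simp only [Polynomial.map_mul, Polynomial.map_add, Polynomial.map_pow, map_C, map_X,
      coe_evalRingHom, eval_C, eval_X, C_mul, C_pow]
    ring
  rw [h3] at h2
  have h4 : D.map (evalRingHom ((l : ℤ) + 1)) ≠ 0 := by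
    intro h0
    apply hl
    have := congrArg (fun P : ℤ[X] => P.coeff i) h0
    simpa [coeff_map] using this
  have h5 : ((l : ℤ) + 1) ≠ 0 := by positivity
  have := one_var (mul_ne_zero ht (pow_ne_zero _ h5)) (mul_ne_zero ht hs) hq
    (Nat.one_le_iff_ne_zero.mpr hd) h4 h2
  omega

end Pool.Agent.N741.LD
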