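import Mathlib
import Pool.Agent.N741.LD.Box
import Pool.Agent.N741.LD.Hen
import Pool.Agent.N741.LD.Ker
import Pool.Agent.N741.PB.Det

/-!
Integral points of a residue class on a plane curve at which a function is a perfect power.
-/

set_option autoImplicit false

namespace Pool.Agent.N741.LD

open Finset Polynomial
open scoped Polynomial.Bivariate

theorem prod_pow_sq' (N k : ℕ) : (∏ j : Fin k, N ^ (j : ℕ)) ^ 2 = (N ^ (k - 1)) ^ k := by
  rcases Nat.eq_zero_or_pos k with rfl | hk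
  · simp
  obtain ⟨m, rfl⟩ := Nat.exists_eq_add_of_le' hk
  exact Pool.Agent.N741.PB.prod_pow_sq N m

/-- the weights of the monomials `w ^ i y ^ j x ^ l` -/
def wt (N W I d k : ℕ) (v : Fin I × Fin d × Fin k) : ℕ :=
  W ^ (v.1 : ℕ) * (N ^ (v.2.1 : ℕ) * N ^ (v.2.2 : ℕ))

theorem prod_wt_sq (N W I d k : ℕ) :
    (∏ v, wt N W I d k v) ^ 2 = (W ^ (I - 1) * (N ^ (d - 1) * N ^ (k - 1))) ^ (I * (d * k)) := by
  unfold wt
  rw [Fintype.prod_prod_type]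
  simp only [prod_mul_distrib, prod_const, card_univ, Fintype.card_fin, Fintype.card_prod]
  have h1 : ∏ v : Fin d × Fin k, N ^ (v.1 : ℕ) = (∏ j : Fin d, N ^ (j : ℕ)) ^ k := by
    rw [Fintype.prod_prod_type]
    simp only [prod_const, card_univ, Fintype.card_fin, prod_pow]
  have h2 : ∏ v : Fin d × Fin k, N ^ (v.2 : ℕ) = (∏ j : Fin k, N ^ (j : ℕ)) ^ d := by
    rw [Fintype.prod_prod_type]
    simp only [prod_const, card_univ, Fintype.card_fin]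
  rw [h1, h2]
  simp only [prod_pow]
  have e1 := prod_pow_sq' W I
  have e2 := prod_pow_sq' N d
  have e3 := prod_pow_sq' N k
  generalize (∏ i : Fin I, W ^ (i : ℕ)) = a1 at *
  generalize (∏ i : Fin d, N ^ (i : ℕ)) = a2 at *
  generalize (∏ i : Fin k, N ^ (i : ℕ)) = a3 at *
  calc (a1 ^ (d * k) * ((a2 ^ k) ^ I * (a3 ^ d) ^ I)) ^ 2
      = (a1 ^ 2) ^ (d * k) * (((a2 ^ 2) ^ k) ^ I * ((a3 ^ 2) ^ d) ^ I) := by ring
    _ = ((W ^ (I - 1)) ^ I) ^ (d * k) * ((((N ^ (d - 1)) ^ d) ^ k) ^ I *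
          (((N ^ (k - 1)) ^ k) ^ d) ^ I) := by rw [e1, e2, e3]
    _ = (W ^ (I - 1)) ^ (I * (d * k)) * ((N ^ (d - 1)) ^ (I * (d * k)) *
          (N ^ (k - 1)) ^ (I * (d * k))) := by
      generalize W ^ (I - 1) = b1
      generalize N ^ (d - 1) = b2
      generalize N ^ (k - 1) = b3
      rw [← pow_mul, ← pow_mul, ← pow_mul, ← pow_mul, ← pow_mul]
      rw [show d * (k * I) = I * (d * k) by ring, show k * (d * I) = I * (d * k) by ring]
    _ = _ := by rw [← mul_pow, ← mul_pow]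

/-- the auxiliary polynomials -/
noncomputable def aux {I d k : ℕ} (c : Fin I × Fin d × Fin k → ℤ) (i : Fin I) : ℤ[X][Y] :=
  ∑ j : Fin d, C (∑ l : Fin k, C (c (i, j, l)) * X ^ (l : ℕ)) * Y ^ (j : ℕ)

theorem coeff_fin_sum' {R : Type*} [CommRing R] {a : ℕ} (c : Fin a → R) (i : Fin a) :
    (∑ j : Fin a, C (c j) * X ^ (j : ℕ) : R[X]).coeff i = c i := by
  rw [finsetSum_coeff]
  simp only [coeff_C_mul, coeff_X_pow]
  rw [Finset.sum_eq_single i]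
  · simp
  · intro j _ hj
    have : (i : ℕ) ≠ j := fun h => hj (Fin.ext h.symm)
    simp [this]
  · simp

theorem aux_coeff {I d k : ℕ} (c : Fin I × Fin d × Fin k → ℤ) (i : Fin I) (j : Fin d) (l : Fin k) :
    ((aux c i).coeff j).coeff l = c (i, j, l) := by
  unfold aux
  rw [coeff_fin_sum' (fun j => ∑ l : Fin k, C (c (i, j, l)) * X ^ (l : ℕ)) j,
    coeff_fin_sum' (fun l => c (i, j, l)) l]

theorem aux_natDegree {I d k : ℕ} (c : Fin I × Fin d × Fin k → ℤ) (i : Fin I) :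
    (aux c i).natDegree ≤ d - 1 := by
  unfold aux
  apply natDegree_sum_le_of_forall_le
  intro j _
  refine (natDegree_C_mul_X_pow_le _ _).trans ?_
  have := j.isLt
  omega

theorem aux_dX {I d k : ℕ} (c : Fin I × Fin d × Fin k → ℤ) (i : Fin I) :
    dX (aux c i) ≤ k - 1 := by
  unfold aux dX
  rw [map_sum]
  apply natDegree_sum_le_of_forall_le
  intro j _
  rw [map_mul, map_pow, Bivariate.swap_Y, Bivariate.swap_C]
  refine (natDegree_mul_le).trans ?_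
  rw [← C_pow, natDegree_C, add_zero]
  rw [natDegree_map_eq_of_injective C_injective]
  apply natDegree_sum_le_of_forall_le
  intro l _
  refine (natDegree_C_mul_X_pow_le _ _).trans ?_
  have := l.isLt
  omega

theorem aux_eval {I d k : ℕ} (c : Fin I × Fin d × Fin k → ℤ) (x y w : ℤ) :
    ∑ i, (aux c i).evalEval x y * w ^ (i : ℕ) =
      ∑ v, c v * (w ^ (v.1 : ℕ) * (y ^ (v.2.1 : ℕ) * x ^ (v.2.2 : ℕ))) := by
  rw [Fintype.sum_prod_type]
  apply sum_congr rfl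
  intro i _
  unfold aux
  rw [evalEval_finsetSum, Fintype.sum_prod_type, sum_mul]
  apply sum_congr rfl
  intro j _
  rw [evalEval_mul, evalEval_pow, evalEval_X, evalEval_C, eval_finsetSum, sum_mul, sum_mul]
  apply sum_congr rfl
  intro l _
  rw [eval_mul, eval_C, eval_pow, eval_X]
  ring

theorem aux_ne_zero {I d k : ℕ} {c : Fin I × Fin d × Fin k → ℤ} (hc : c ≠ 0) :
    (fun i => aux c i) ≠ 0 := by
  intro h
  apply hc
  funext v
  have this : aux c v.1 = 0 := congrFun h v.1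
  have h2 := aux_coeff c v.1 v.2.1 v.2.2
  rw [this] at h2
  simpa using h2.symm

theorem eval_eval_poly (P : ℤ[X][Y]) (Ψ : ℤ[X]) (x : ℤ) :
    (P.eval Ψ).eval x = P.evalEval x (Ψ.eval x) := by
  have h1 : (P.map (evalRingHom x)).eval ((evalRingHom x) Ψ) = (evalRingHom x) (P.eval Ψ) :=
    eval_map_apply ..
  rw [coe_evalRingHom] at h1
  rw [← h1, map_evalRingHom_eval]

theorem evalEval_sub_dvd (P : ℤ[X][Y]) (x y y' : ℤ) :
    (y - y') ∣ P.evalEval x y - P.evalEval x y' := by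
  unfold evalEval
  rw [← eval_sub]
  have e2 : (C y - C y' : ℤ[X]) ∣ P.eval (C y) - P.eval (C y') := sub_dvd_eval_sub _ _ _
  obtain ⟨g, hg⟩ := e2
  rw [hg, eval_mul, eval_sub, eval_C, eval_C]
  exact dvd_mul_right _ _

/-- a residue class on the curve -/
theorem class_curve {A F : ℤ[X][Y]} {r z I k N W : ℕ} (hr : r.Prime) (hrz : ¬ r ∣ z) (hI : 1 ≤ I)
    (hd : 1 ≤ A.natDegree) (hk : 1 ≤ k) (hN : 1 ≤ N) (hW : 1 ≤ W)
    (hbig : W ^ (I - 1) * (N ^ (A.natDegree - 1) * N ^ (k - 1)) * (I * (A.natDegree * k)) ^ 2 <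
      r ^ (I * (A.natDegree * k) - 1)) (x₀ y₀ w₀ : ℤ)
    (hA : ¬ (r : ℤ) ∣ (derivative A).evalEval x₀ y₀) (hw₀ : ¬ (r : ℤ) ∣ w₀) :
    ∃ c : Fin I × Fin A.natDegree × Fin k → ℤ, c ≠ 0 ∧ ∀ x y w : ℤ, |x| ≤ N → |y| ≤ N → |w| ≤ W →
      (r : ℤ) ∣ x - x₀ → (r : ℤ) ∣ y - y₀ → (r : ℤ) ∣ w - w₀ → A.evalEval x y = 0 →
        w ^ z = F.evalEval x y → ∑ i, (aux c i).evalEval x y * w ^ (i : ℕ) = 0 := by
  classical
  obtain ⟨d, hd'⟩ : ∃ d, d = A.natDegree := ⟨_, rfl⟩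
  rw [← hd'] at hd hbig ⊢
  obtain ⟨n, hn⟩ : ∃ n, n = I * (d * k) := ⟨_, rfl⟩
  have hcard : Fintype.card (Fin I × Fin d × Fin k) = n := by
    rw [Fintype.card_prod, Fintype.card_prod, Fintype.card_fin, Fintype.card_fin, Fintype.card_fin, hn]
  have hn1 : 1 ≤ n := by rw [hn]; exact Nat.mul_pos hI (Nat.mul_pos hd hk)
  obtain ⟨Ψ, hΨ⟩ := hensel_curve A hr x₀ y₀ hA n
  obtain ⟨P, hP⟩ := hensel_root F hr hrz w₀ hw₀ n
  set Pz : ℤ[X] := P.eval Ψ with hPz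
  set Fj : Fin I × Fin d × Fin k → ℤ[X] := fun v =>
    Pz ^ (v.1 : ℕ) * (Ψ ^ (v.2.1 : ℕ) * X ^ (v.2.2 : ℕ)) with hFj
  have hcond : (Fintype.card (Fin I × Fin d × Fin k)) ^ (Fintype.card (Fin I × Fin d × Fin k)) *
      (∏ v, wt N W I d k v) * ∏ j : Fin n, r ^ (n - (j : ℕ)) <
      r ^ (n * Fintype.card (Fin I × Fin d × Fin k)) := by
    rw [hcard]
    apply lt_of_pow_lt_pow_left₀ 2 (Nat.zero_le _)
    have e1 := prod_wt_sq N W I d k
    have e2 := Pool.Agent.N741.PB.prod_residues_sq r n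
    rw [← hn] at e1
    calc (n ^ n * (∏ v, wt N W I d k v) * ∏ j : Fin n, r ^ (n - (j : ℕ))) ^ 2
        = (n ^ n) ^ 2 * (∏ v, wt N W I d k v) ^ 2 * (∏ j : Fin n, r ^ (n - (j : ℕ))) ^ 2 := by ring
      _ = (W ^ (I - 1) * (N ^ (d - 1) * N ^ (k - 1)) * n ^ 2) ^ n * r ^ (n * (n + 1)) := by
        rw [e1, e2]; ring
      _ < (r ^ (n - 1)) ^ n * r ^ (n * (n + 1)) := by
        apply Nat.mul_lt_mul_of_pos_right _ (Nat.pow_pos hr.pos)
        rw [← hn] at hbig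
        exact Nat.pow_lt_pow_left hbig (by omega)
      _ = (r ^ (n * n)) ^ 2 := by
        rw [← pow_mul, ← pow_mul, ← pow_add]
        congr 1
        obtain ⟨t, rfl⟩ := Nat.exists_eq_add_of_le' hn1
        simp only [Nat.add_sub_cancel]
        ring
  obtain ⟨c, hc0, hc1, hc2⟩ := box Fj (fun j : Fin n => lam1 x₀ j) (fun j => n - (j : ℕ)) r n
    (wt N W I d k) hr.two_le (fun v => by unfold wt; positivity) hcond
  refine ⟨c, hc0, fun x y w hx hy hw hx₀ hy₀ hw' hAv hwF => ?_⟩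
  have : Nonempty (Fin I × Fin d × Fin k) := Fintype.card_pos_iff.mp (by rw [hcard]; omega)
  rw [aux_eval]
  apply vanish c (wt N W I d k) r n hc1 (fun v => w ^ (v.1 : ℕ) * (y ^ (v.2.1 : ℕ) * x ^ (v.2.2 : ℕ)))
  · intro v
    unfold wt
    push_cast
    rw [abs_mul, abs_mul, abs_pow, abs_pow, abs_pow]
    gcongr
  · have h1 : (r : ℤ) ^ n ∣ (∑ v, c v • Fj v).eval x := by
      apply lam1_dvd r n x₀ _ _ x hx₀
      intro j hj
      exact hc2 ⟨j, hj⟩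
    have h2 : (r : ℤ) ^ n ∣ y - Ψ.eval x := hΨ x y hx₀ hy₀ hAv
    have h3 : (r : ℤ) ^ n ∣ w - Pz.eval x := by
      have h4 := hP (evalEvalRingHom x y) w hw' hwF
      rw [coe_evalEvalRingHom] at h4
      rw [hPz, eval_eval_poly]
      have h5 := h2.trans (evalEval_sub_dvd P x y (Ψ.eval x))
      have := dvd_add h4 h5
      rwa [sub_add_sub_cancel] at this
    have h4 : ∑ v, c v * (w ^ (v.1 : ℕ) * (y ^ (v.2.1 : ℕ) * x ^ (v.2.2 : ℕ))) =
        (∑ v, c v • Fj v).eval x + ∑ v, c v * (w ^ (v.1 : ℕ) * (y ^ (v.2.1 : ℕ) * x ^ (v.2.2 : ℕ)) -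
          (Fj v).eval x) := by
      rw [eval_finsetSum, ← sum_add_distrib]
      apply sum_congr rfl
      intro v _
      rw [eval_smul, smul_eq_mul]
      ring
    rw [h4]
    refine dvd_add h1 (dvd_sum fun v _ => Dvd.dvd.mul_left ?_ _)
    simp only [hFj, eval_mul, eval_pow, eval_X]
    have a1 : (r : ℤ) ^ n ∣ w ^ (v.1 : ℕ) - Pz.eval x ^ (v.1 : ℕ) := h3.trans (sub_dvd_pow_sub_pow _ _ _)
    have a2 : (r : ℤ) ^ n ∣ y ^ (v.2.1 : ℕ) - Ψ.eval x ^ (v.2.1 : ℕ) :=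
      h2.trans (sub_dvd_pow_sub_pow _ _ _)
    have a3 : w ^ (v.1 : ℕ) * (y ^ (v.2.1 : ℕ) * x ^ (v.2.2 : ℕ)) -
        Pz.eval x ^ (v.1 : ℕ) * (Ψ.eval x ^ (v.2.1 : ℕ) * x ^ (v.2.2 : ℕ)) =
        (w ^ (v.1 : ℕ) - Pz.eval x ^ (v.1 : ℕ)) * (y ^ (v.2.1 : ℕ) * x ^ (v.2.2 : ℕ)) +
        (y ^ (v.2.1 : ℕ) - Ψ.eval x ^ (v.2.1 : ℕ)) * (Pz.eval x ^ (v.1 : ℕ) * x ^ (v.2.2 : ℕ)) := by ring
    rw [a3]
    exact dvd_add (a1.mul_right _) (a2.mul_right _)

end Pool.Agent.N741.LD
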