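import Mathlib
import Pool.Agent.N741.LD.Cls
import Pool.Agent.N741.LD.Ker
import Pool.Agent.N741.PB.Cls
import Pool.Agent.N767.LD.Hgt

/-!
The number of integral points of a plane curve at which a function is a perfect power.
-/

set_option autoImplicit false

namespace Pool.Agent.N741.LD

open Finset Polynomial
open scoped Polynomial.Bivariate

/-- the bound for one class -/
def Bc (d a k I p q z : ℕ) : ℕ := (d * (z * (k - 1) + I * p) + (z * (d - 1) + I * q) * a) * d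

/-- one residue class -/
theorem class_bound (hbez : Bez) {A F : ℤ[X][Y]} {r z I k N W a p q : ℕ} (hA : Irreducible A)
    (hd : 1 ≤ A.natDegree) (ha : dX A ≤ a) (hr : r.Prime) (hz : 1 ≤ z) (hrz : ¬ r ∣ z) (hI : 1 ≤ I)
    (hk : 1 ≤ k) (hN : 1 ≤ N) (hW : 1 ≤ W) (hFp : dX F ≤ p) (hFq : F.natDegree ≤ q)
    (hNP : NoPow A F z I)
    (hbig : W ^ (I - 1) * (N ^ (A.natDegree - 1) * N ^ (k - 1)) * (I * (A.natDegree * k)) ^ 2 <
      r ^ (I * (A.natDegree * k) - 1)) (x₀ y₀ w₀ : ℤ)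
    (hA₀ : ¬ (r : ℤ) ∣ (derivative A).evalEval x₀ y₀) (hw₀ : ¬ (r : ℤ) ∣ w₀)
    (S : Finset (ℤ × ℤ)) (hS : ∀ v ∈ S, |v.1| ≤ N ∧ |v.2| ≤ N ∧ A.evalEval v.1 v.2 = 0 ∧
      (r : ℤ) ∣ v.1 - x₀ ∧ (r : ℤ) ∣ v.2 - y₀ ∧
      ∃ w : ℤ, |w| ≤ W ∧ (r : ℤ) ∣ w - w₀ ∧ w ^ z = F.evalEval v.1 v.2) :
    S.card ≤ Bc A.natDegree a k I p q z := by
  obtain ⟨c, hc0, hc⟩ := class_curve (F := F) (z := z) hr hrz hI hd hk hN hW hbig x₀ y₀ w₀ hA₀ hw₀
  obtain ⟨K, i, φ, hφ1, hφ2⟩ := exists_field hA.prime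
  obtain ⟨R, hR0, hR1, hR2, hR3⟩ := elim φ (F := F) (z := z) (a := k - 1) (b := A.natDegree - 1) hz
    (fun i => aux c i) (aux_ne_zero hc0) (fun i h => by
      rw [hφ1] at h
      exact eq_zero_of_dvd_of_natDegree_lt h (lt_of_le_of_lt (aux_natDegree c i) (by omega)))
    (fun i => aux_dX c i) (fun i => aux_natDegree c i) (noFac_of_noPow hz hNP φ hφ1 hφ2)
  have hAR : ¬ A ∣ R := fun h => hR0 ((hφ1 R).mpr h)
  unfold Bc
  refine (hbez A R a (z * (k - 1) + I * p) A.natDegree (z * (A.natDegree - 1) + I * q) hA hd hAR ha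
    (hR2.trans (by gcongr)) le_rfl (hR1.trans (by gcongr)) S ?_)
  intro v hv
  obtain ⟨h1, h2, h3, h4, h5, w, h6, h7, h8⟩ := hS v hv
  exact ⟨h3, hR3 v.1 v.2 w h8 (hc v.1 v.2 w h1 h2 h6 h4 h5 h7 h3 h8)⟩

/-- one prime -/
theorem prime_curve (hbez : Bez) {A F : ℤ[X][Y]} {r z I k N W a p q : ℕ} (hA : Irreducible A)
    (hd : 1 ≤ A.natDegree) (ha : dX A ≤ a) (hr : r.Prime) (hz : 1 ≤ z) (hrz : ¬ r ∣ z) (hI : 1 ≤ I)
    (hk : 1 ≤ k) (hN : 1 ≤ N) (hW : 1 ≤ W) (hFp : dX F ≤ p) (hFq : F.natDegree ≤ q)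
    (hNP : NoPow A F z I)
    (hbig : W ^ (I - 1) * (N ^ (A.natDegree - 1) * N ^ (k - 1)) * (I * (A.natDegree * k)) ^ 2 <
      r ^ (I * (A.natDegree * k) - 1))
    (S : Finset (ℤ × ℤ)) (hS : ∀ v ∈ S, |v.1| ≤ N ∧ |v.2| ≤ N ∧ A.evalEval v.1 v.2 = 0 ∧
      ¬ (r : ℤ) ∣ (derivative A).evalEval v.1 v.2 ∧
      ∃ w : ℤ, |w| ≤ W ∧ ¬ (r : ℤ) ∣ w ∧ w ^ z = F.evalEval v.1 v.2) :
    S.card ≤ r * (A.natDegree * (z * Bc A.natDegree a k I p q z)) := by
  classical
  have : Fact r.Prime := ⟨hr⟩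
  have : NeZero r := ⟨hr.ne_zero⟩
  set φ := Int.castRingHom (ZMod r) with hφ
  have hcast : ∀ (B : ℤ[X][Y]) (x y : ℤ), (B.map (mapRingHom φ)).evalEval (x : ZMod r) (y : ZMod r) =
      ((B.evalEval x y : ℤ) : ZMod r) := by
    intro B x y
    have := map_mapRingHom_evalEval φ B x y
    simpa [hφ] using this
  set cls : ZMod r → ZMod r → ZMod r → Finset (ℤ × ℤ) := fun x y u => S.filter (fun v : ℤ × ℤ =>
    (v.1 : ZMod r) = x ∧ (v.2 : ZMod r) = y ∧
    ∃ w : ℤ, |w| ≤ W ∧ (w : ZMod r) = u ∧ w ^ z = F.evalEval v.1 v.2) with hcls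
  set Aq : ZMod r → (ZMod r)[X] := fun x => (A.map (mapRingHom φ)).map (evalRingHom x) with hAq
  set good : ZMod r → Finset (ZMod r) := fun x => (Aq x).roots.toFinset.filter (fun y =>
    ((derivative A).map (mapRingHom φ)).evalEval x y ≠ 0) with hgood
  set rts : ZMod r → ZMod r → Finset (ZMod r) := fun x y =>
    ((nthRoots z ((F.map (mapRingHom φ)).evalEval x y)).toFinset).erase 0 with hrts
  set S₁ := (univ : Finset (ZMod r)).biUnion (fun x => (good x).biUnion (fun y =>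
    (rts x y).biUnion (fun u => cls x y u))) with hS₁
  have hval : ∀ x : ZMod r, (((x.val : ℕ) : ℤ) : ZMod r) = x := by
    intro x
    rw [Int.cast_natCast, ZMod.natCast_zmod_val]
  have hdvd : ∀ (x : ℤ) (y : ZMod r), (x : ZMod r) = y → (r : ℤ) ∣ x - ((y.val : ℕ) : ℤ) := by
    intro x y h
    rw [← ZMod.intCast_zmod_eq_zero_iff_dvd, Int.cast_sub, hval, h, sub_self]
  have h1 : S₁.card ≤ r * (A.natDegree * (z * Bc A.natDegree a k I p q z)) := by
    have h2 : ∀ x ∈ (univ : Finset (ZMod r)), ((good x).biUnion (fun y =>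
        (rts x y).biUnion (fun u => cls x y u))).card ≤
          A.natDegree * (z * Bc A.natDegree a k I p q z) := by
      intro x _
      refine (card_biUnion_le_card_mul _ _ (z * Bc A.natDegree a k I p q z) ?_).trans
        (Nat.mul_le_mul_right _ ?_)
      · intro y hy
        refine (card_biUnion_le_card_mul _ _ (Bc A.natDegree a k I p q z) ?_).trans
          (Nat.mul_le_mul_right _ ?_)
        · intro u hu
          rw [hrts, mem_erase] at hu
          simp only [hgood, mem_filter] at hy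
          apply class_bound hbez hA hd ha hr hz hrz hI hk hN hW hFp hFq hNP hbig
            ((x.val : ℕ) : ℤ) ((y.val : ℕ) : ℤ) ((u.val : ℕ) : ℤ)
          · intro h
            apply hy.2
            rw [← ZMod.intCast_zmod_eq_zero_iff_dvd, ← hcast, hval, hval] at h
            exact h
          · intro h
            apply hu.1
            rw [← hval u]
            exact (ZMod.intCast_zmod_eq_zero_iff_dvd _ _).mpr h
          · intro v hv
            simp only [hcls, mem_filter] at hv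
            obtain ⟨h3, h5, h5', w, h6, h7, h8⟩ := hv
            obtain ⟨g1, g2, g3, -⟩ := hS v h3
            exact ⟨g1, g2, g3, hdvd _ _ h5, hdvd _ _ h5', w, h6, hdvd _ _ h7, h8⟩
        · calc _ ≤ ((nthRoots z ((F.map (mapRingHom φ)).evalEval x y)).toFinset).card :=
                card_erase_le
            _ ≤ (nthRoots z ((F.map (mapRingHom φ)).evalEval x y)).card := Multiset.toFinset_card_le _
            _ ≤ z := card_nthRoots z _
      · calc (good x).card ≤ (Aq x).roots.toFinset.card := card_filter_le _ _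
          _ ≤ (Aq x).roots.card := Multiset.toFinset_card_le _
          _ ≤ (Aq x).natDegree := card_roots' _
          _ ≤ (A.map (mapRingHom φ)).natDegree := natDegree_map_le
          _ ≤ A.natDegree := natDegree_map_le
    refine (card_biUnion_le_card_mul _ _ _ h2).trans ?_
    rw [card_univ, ZMod.card]
  refine le_trans (card_le_card ?_) h1
  intro v hv
  obtain ⟨h2, h3, h4, h5, w, h6, h7, h8⟩ := hS v hv
  have hder : ((derivative A).map (mapRingHom φ)).evalEval (v.1 : ZMod r) (v.2 : ZMod r) ≠ 0 := by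
    rw [hcast]
    intro h
    exact h5 ((ZMod.intCast_zmod_eq_zero_iff_dvd _ _).mp h)
  rw [hS₁, mem_biUnion]
  refine ⟨(v.1 : ZMod r), mem_univ _, ?_⟩
  rw [mem_biUnion]
  refine ⟨(v.2 : ZMod r), ?_, ?_⟩
  · simp only [hgood, mem_filter, Multiset.mem_toFinset]
    refine ⟨?_, hder⟩
    rw [mem_roots', IsRoot.def]
    constructor
    · intro h0
      apply hder
      rw [← map_evalRingHom_eval, ← derivative_map, ← derivative_map]
      change (derivative (Aq _)).eval _ = 0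
      rw [h0, derivative_zero, eval_zero]
    · rw [hAq]
      simp only
      rw [map_evalRingHom_eval, hcast, h4, Int.cast_zero]
  · rw [mem_biUnion]
    refine ⟨(w : ZMod r), ?_, ?_⟩
    · rw [hrts, mem_erase, Multiset.mem_toFinset, mem_nthRoots (by omega), hcast, ← h8, Int.cast_pow]
      exact ⟨fun h => h7 ((ZMod.intCast_zmod_eq_zero_iff_dvd _ _).mp h), rfl⟩
    · simp only [hcls, mem_filter]
      exact ⟨hv, trivial, trivial, w, h6, rfl, h8⟩

/-- a bound for the value of a polynomial -/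
theorem abs_eval_le {A : ℤ[X][Y]} {a d N H : ℕ} (ha : dX A ≤ a) (hd : A.natDegree ≤ d) (hN : 1 ≤ N)
    (hH : ∀ i j : ℕ, ((A.coeff j).coeff i).natAbs ≤ H) {x y : ℤ} (hx : |x| ≤ N) (hy : |y| ≤ N) :
    |A.evalEval x y| ≤ ((a + 1) * (d + 1) * N ^ (a + d) * H : ℕ) := by
  have h1 := Pool.Agent.N767.LD.pol_eq ha hd
  rw [← h1, Pool.Agent.N767.LD.eval_pol]
  refine (abs_sum_le_sum_abs _ _).trans ?_
  have h2 : ∀ p ∈ (univ : Finset (Fin (a + 1) × Fin (d + 1))),
      |x ^ (p.1 : ℕ) * y ^ (p.2 : ℕ) * (A.coeff p.2).coeff p.1| ≤ (N : ℤ) ^ (a + d) * H := by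
    intro p _
    rw [abs_mul, abs_mul, abs_pow, abs_pow, pow_add]
    have hN' : (1 : ℤ) ≤ N := by exact_mod_cast hN
    have e1 : |x| ^ (p.1 : ℕ) ≤ (N : ℤ) ^ a :=
      (pow_le_pow_left₀ (abs_nonneg _) hx _).trans (pow_le_pow_right₀ hN' (by have := p.1.isLt; omega))
    have e2 : |y| ^ (p.2 : ℕ) ≤ (N : ℤ) ^ d :=
      (pow_le_pow_left₀ (abs_nonneg _) hy _).trans (pow_le_pow_right₀ hN' (by have := p.2.isLt; omega))
    have e3 : |(A.coeff p.2).coeff p.1| ≤ (H : ℤ) := by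
      rw [Int.abs_eq_natAbs]
      exact_mod_cast hH _ _
    gcongr
  refine (sum_le_sum h2).trans ?_
  rw [sum_const, card_univ, Fintype.card_prod, Fintype.card_fin, Fintype.card_fin, nsmul_eq_mul]
  push_cast
  apply le_of_eq
  ring

/-- the bound for the height -/
def Gh (a d N : ℕ) : ℕ := (a + 1) * (d + 1) * N ^ (a + d)

/-- **integral points on a curve** -/
theorem curve_count (hbez : Bez) (hhgt : Hgt) {A F : ℤ[X][Y]} {z I k N W a p q X₀ X₁ : ℕ}
    (hA : Irreducible A) (hd : 1 ≤ A.natDegree) (ha : dX A ≤ a) (hz : 1 ≤ z) (hI : 1 ≤ I)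
    (hk : 1 ≤ k) (hN : 1 ≤ N) (hW : 1 ≤ W) (hFp : dX F ≤ p) (hFq : F.natDegree ≤ q)
    (hNP : NoPow A F z I) {𝒬 : Finset ℕ} (h𝒬 : ∀ r ∈ 𝒬, r.Prime ∧ X₀ ≤ r ∧ r ≤ X₁) (hzX : z < X₀)
    (hM : W * (Gh a A.natDegree N * (A.natDegree * Gh a A.natDegree N ^
      ((a + 1) * (A.natDegree + 1)))) < X₀ ^ 𝒬.card)
    (hbig : W ^ (I - 1) * (N ^ (A.natDegree - 1) * N ^ (k - 1)) * (I * (A.natDegree * k)) ^ 2 <
      X₀ ^ (I * (A.natDegree * k) - 1))
    (S : Finset (ℤ × ℤ)) (hS : ∀ v ∈ S, |v.1| ≤ N ∧ |v.2| ≤ N ∧ A.evalEval v.1 v.2 = 0 ∧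
      ∃ w : ℤ, w ≠ 0 ∧ |w| ≤ W ∧ w ^ z = F.evalEval v.1 v.2) :
    S.card ≤ 2 * a * A.natDegree ^ 2 +
      𝒬.card * (X₁ * (A.natDegree * (z * Bc A.natDegree a k I p q z))) := by
  classical
  by_cases hcard : S.card ≤ 2 * a * A.natDegree ^ 2
  · exact hcard.trans (Nat.le_add_right _ _)
  push Not at hcard
  have hcoef := hhgt A a A.natDegree N hA hd ha le_rfl hN S
    (fun v hv => ⟨(hS v hv).1, (hS v hv).2.1, (hS v hv).2.2.1⟩) hcard
  have hdercoef : ∀ i j : ℕ, (((derivative A).coeff j).coeff i).natAbs ≤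
      A.natDegree * Gh a A.natDegree N ^ ((a + 1) * (A.natDegree + 1)) := by
    intro i j
    rw [coeff_derivative]
    rcases Nat.lt_or_ge A.natDegree (j + 1) with h | h
    · rw [coeff_eq_zero_of_natDegree_lt h]; simp
    · have e : (A.coeff (j + 1) * ((j : ℤ[X]) + 1)).coeff i = (A.coeff (j + 1)).coeff i * ((j : ℤ) + 1) := by
        have : ((j : ℤ[X]) + 1) = C ((j : ℤ) + 1) := by simp
        rw [this, coeff_mul_C]
      rw [e, Int.natAbs_mul, mul_comm]
      have : ((j : ℤ) + 1).natAbs = j + 1 := by omega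
      rw [this]
      exact Nat.mul_le_mul h (hcoef i (j + 1))
  have hdX : dX (derivative A) ≤ a := by
    apply Pool.Agent.N767.LD.dX_le
    intro i j hi
    rw [coeff_derivative]
    have e : (A.coeff (j + 1) * ((j : ℤ[X]) + 1)).coeff i = (A.coeff (j + 1)).coeff i * ((j : ℤ) + 1) := by
      have : ((j : ℤ[X]) + 1) = C ((j : ℤ) + 1) := by simp
      rw [this, coeff_mul_C]
    rw [e, Pool.Agent.N767.LD.coeff_zero_of_dX (lt_of_le_of_lt ha hi), zero_mul]
  have hderd : (derivative A).natDegree ≤ A.natDegree :=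
    (natDegree_derivative_lt (by omega)).le
  have hder0 : derivative A ≠ 0 := by
    intro h
    have := derivative_eq_zero.mp h
    omega
  have hnd : ¬ A ∣ derivative A := by
    intro h
    exact hder0 (eq_zero_of_dvd_of_natDegree_lt h (natDegree_derivative_lt (by omega)))
  set S₀ := S.filter (fun v => (derivative A).evalEval v.1 v.2 = 0) with hS₀
  have hS₀c : S₀.card ≤ 2 * a * A.natDegree ^ 2 := by
    refine (hbez A (derivative A) a a A.natDegree A.natDegree hA hd hnd ha hdX le_rfl hderd S₀ ?_).trans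
      (le_of_eq (by ring))
    intro v hv
    rw [hS₀, mem_filter] at hv
    exact ⟨(hS v hv.1).2.2.1, hv.2⟩
  set T : ℕ → Finset (ℤ × ℤ) := fun r => S.filter (fun v =>
    ¬ (r : ℤ) ∣ (derivative A).evalEval v.1 v.2 ∧
      ∃ w : ℤ, |w| ≤ W ∧ ¬ (r : ℤ) ∣ w ∧ w ^ z = F.evalEval v.1 v.2) with hT
  have hsub : S ⊆ S₀ ∪ 𝒬.biUnion T := by
    intro v hv
    obtain ⟨h1, h2, h3, w, h4, h5, h6⟩ := hS v hv
    by_cases h0 : (derivative A).evalEval v.1 v.2 = 0
    · exact mem_union_left _ (mem_filter.mpr ⟨hv, h0⟩)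
    · apply mem_union_right
      have h7 : |w * (derivative A).evalEval v.1 v.2| ≤ ((W * (Gh a A.natDegree N * (A.natDegree *
          Gh a A.natDegree N ^ ((a + 1) * (A.natDegree + 1)))) : ℕ) : ℤ) := by
        rw [abs_mul, Nat.cast_mul]
        exact mul_le_mul h5 (abs_eval_le hdX hderd hN hdercoef h1 h2) (abs_nonneg _)
          (Int.natCast_nonneg _)
      obtain ⟨r, hr, hrw⟩ := Pool.Agent.N741.PB.exists_not_dvd
        (fun r hr => ⟨(h𝒬 r hr).1, (h𝒬 r hr).2.1⟩) hM (mul_ne_zero h4 h0) h7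
      rw [mem_biUnion]
      refine ⟨r, hr, ?_⟩
      simp only [hT, mem_filter]
      exact ⟨hv, fun h => hrw (h.mul_left _), w, h5, fun h => hrw (h.mul_right _), h6⟩
  refine (card_le_card hsub).trans ((card_union_le _ _).trans (Nat.add_le_add hS₀c ?_))
  refine card_biUnion_le_card_mul _ _ _ ?_
  intro r hr
  obtain ⟨h1, h2, h3⟩ := h𝒬 r hr
  have hrz : ¬ r ∣ z := fun h => by
    have := Nat.le_of_dvd (by omega) h
    omega
  refine (prime_curve hbez hA hd ha h1 hz hrz hI hk hN hW hFp hFq hNP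
    (lt_of_lt_of_le hbig (Nat.pow_le_pow_left h2 _)) (T r) ?_).trans (Nat.mul_le_mul_right _ h3)
  intro v hv
  simp only [hT, mem_filter] at hv
  exact ⟨(hS v hv.1).1, (hS v hv.1).2.1, (hS v hv.1).2.2.1, hv.2.1, hv.2.2⟩

end Pool.Agent.N741.LD
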