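import Mathlib
import Pool.Agent.N741.LD.Stm
import Pool.Agent.N741.PB.Cls
import Pool.Agent.N157.LD.Bez
import Pool.Agent.N767.LD.Spe

/-!
Decomposition of a plane curve into irreducible components.
-/

set_option autoImplicit false

namespace Pool.Agent.N741.LD

open Finset Polynomial UniqueFactorizationMonoid
open scoped Polynomial.Bivariate

theorem dX_dvd {A B : ℤ[X][Y]} (h : A ∣ B) (hB : B ≠ 0) : dX A ≤ dX B := by
  unfold dX
  apply natDegree_le_of_dvd (_root_.map_dvd _ h)
  exact (map_ne_zero_iff _ Bivariate.swap.injective).mpr hB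

theorem decomp {R : ℤ[X][Y]} {D b : ℕ} (hR : R ≠ 0) (hRd : R.natDegree ≤ D) (hRx : dX R ≤ D)
    (S : Finset (ℤ × ℤ)) (hS : ∀ v ∈ S, R.evalEval v.1 v.2 = 0)
    (hIr : ∀ A : ℤ[X][Y], Irreducible A → 1 ≤ A.natDegree → A.natDegree ≤ D → dX A ≤ D →
      ∀ S' ⊆ S, (∀ v ∈ S', A.evalEval v.1 v.2 = 0) → S'.card ≤ b)
    (hV : ∀ c : ℤ, ∀ S' ⊆ S, (∀ v ∈ S', v.1 = c) → S'.card ≤ b) : S.card ≤ 2 * D * b := by
  classical
  set fs := (factors R).filter (fun A => 1 ≤ A.natDegree) with hfs
  have hirr : ∀ A ∈ factors R, Irreducible A := fun A hA => irreducible_of_factor A hA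
  have hprod := factors_prod hR
  have hfc : fs.toFinset.card ≤ D := by
    have h0 : (0 : ℤ[X][Y]) ∉ factors R := fun h => (hirr 0 h).ne_zero rfl
    have h1 : (Multiset.map natDegree (factors R)).sum = R.natDegree := by
      rw [← natDegree_multiset_prod _ h0]
      exact natDegree_eq_of_degree_eq (degree_eq_degree_of_associated hprod)
    have h2 : Multiset.card fs ≤ (Multiset.map natDegree fs).sum := by
      have : ∀ A ∈ fs, 1 ≤ natDegree A := fun A hA => (Multiset.mem_filter.mp hA).2
      calc Multiset.card fs = (Multiset.map (fun _ => 1) fs).sum := by simp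
        _ ≤ _ := Multiset.sum_map_le_sum_map _ _ this
    have h3 : (Multiset.map natDegree fs).sum ≤ (Multiset.map natDegree (factors R)).sum := by
      have : factors R = fs + (factors R).filter (fun A => ¬ 1 ≤ A.natDegree) :=
        (Multiset.filter_add_not _ _).symm
      conv_rhs => rw [this, Multiset.map_add, Multiset.sum_add]
      exact Nat.le_add_right _ _
    calc fs.toFinset.card ≤ Multiset.card fs := Multiset.toFinset_card_le _
      _ ≤ D := by omega
  have hlc : R.leadingCoeff ≠ 0 := leadingCoeff_ne_zero.mpr hR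
  have hvc : R.leadingCoeff.roots.toFinset.card ≤ D := by
    calc R.leadingCoeff.roots.toFinset.card ≤ Multiset.card R.leadingCoeff.roots :=
          Multiset.toFinset_card_le _
      _ ≤ R.leadingCoeff.natDegree := card_roots' _
      _ ≤ dX R := Pool.Agent.N157.LD.natDegree_coeff_le R _
      _ ≤ D := hRx
  set S₁ := fs.toFinset.biUnion (fun A => S.filter (fun v => A.evalEval v.1 v.2 = 0)) with hS₁
  set S₂ := R.leadingCoeff.roots.toFinset.biUnion (fun c => S.filter (fun v => v.1 = c)) with hS₂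
  have hsub : S ⊆ S₁ ∪ S₂ := by
    intro v hv
    have h1 := hS v hv
    have h2 : (factors R).prod.evalEval v.1 v.2 = 0 := by
      obtain ⟨u, hu⟩ := hprod
      rw [← hu, evalEval_mul] at h1
      rcases mul_eq_zero.mp h1 with h3 | h3
      · exact h3
      · exfalso
        have h4 : IsUnit ((u : ℤ[X][Y]).evalEval v.1 v.2) := by
          rw [← coe_evalEvalRingHom]
          exact u.isUnit.map _
        rw [h3] at h4
        exact not_isUnit_zero h4
    rw [← coe_evalEvalRingHom, map_multiset_prod, Multiset.prod_eq_zero_iff, Multiset.mem_map] at h2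
    obtain ⟨A, hA, hAv⟩ := h2
    rw [coe_evalEvalRingHom] at hAv
    by_cases hd : 1 ≤ A.natDegree
    · apply mem_union_left
      rw [hS₁, mem_biUnion]
      exact ⟨A, by rw [Multiset.mem_toFinset, hfs, Multiset.mem_filter]; exact ⟨hA, hd⟩,
        mem_filter.mpr ⟨hv, hAv⟩⟩
    · apply mem_union_right
      rw [hS₂, mem_biUnion]
      refine ⟨v.1, ?_, mem_filter.mpr ⟨hv, rfl⟩⟩
      rw [Multiset.mem_toFinset, mem_roots hlc, IsRoot.def]
      have h5 : A = C (A.coeff 0) := eq_C_of_natDegree_eq_zero (by omega)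
      have h6 : (A.coeff 0).eval v.1 = 0 := by
        rw [h5, evalEval_C] at hAv
        exact hAv
      have h7 : C (A.coeff 0) ∣ R := by
        rw [← h5]; exact dvd_of_mem_factors hA
      rw [C_dvd_iff_dvd_coeff] at h7
      obtain ⟨g, hg⟩ := h7 R.natDegree
      rw [leadingCoeff, hg, eval_mul, h6, zero_mul]
  have h1 : S₁.card ≤ D * b := by
    refine (card_biUnion_le_card_mul _ _ b ?_).trans (Nat.mul_le_mul_right _ hfc)
    intro A hA
    rw [Multiset.mem_toFinset, hfs, Multiset.mem_filter] at hA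
    have hAR : A ∣ R := dvd_of_mem_factors hA.1
    apply hIr A (hirr A hA.1) hA.2 ((natDegree_le_of_dvd hAR hR).trans hRd)
      ((dX_dvd hAR hR).trans hRx) _ (filter_subset _ _)
    intro v hv
    exact (mem_filter.mp hv).2
  have h2 : S₂.card ≤ D * b := by
    refine (card_biUnion_le_card_mul _ _ b ?_).trans (Nat.mul_le_mul_right _ hvc)
    intro c _
    apply hV c _ (filter_subset _ _)
    intro v hv
    exact (mem_filter.mp hv).2
  have := (card_le_card hsub).trans (card_union_le _ _)
  calc S.card ≤ S₁.card + S₂.card := this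
    _ ≤ D * b + D * b := Nat.add_le_add h1 h2
    _ = 2 * D * b := by ring

/-- a curve whose equation does not contain `X` -/
theorem horizontal {A : ℤ[X][Y]} (hA : Irreducible A) (h2 : dX A = 0)
    {x y : ℤ} (h : A.evalEval x y = 0) : A ∣ Y - C (C y) ∧ (Y - C (C y)) ∣ A := by
  obtain ⟨P, hP⟩ : ∃ P : ℤ[X], A = P.map C := by
    refine ⟨(Bivariate.swap A).coeff 0, ?_⟩
    have h3 : Bivariate.swap A = C ((Bivariate.swap A).coeff 0) := eq_C_of_natDegree_eq_zero h2
    have h4 := congrArg (Bivariate.swap (R := ℤ)) h3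
    rw [Bivariate.swap_C] at h4
    have h5 : Bivariate.swap (Bivariate.swap A) = A := by
      ext j i
      rw [Pool.Agent.N157.LD.coeff_coeff_swap, Pool.Agent.N157.LD.coeff_coeff_swap]
    rw [h5] at h4
    exact h4
  have h3 : P.eval y = 0 := by
    rw [hP, evalEval] at h
    have : (P.map C).eval (C y) = C (P.eval y) := by
      rw [eval_map, eval₂_at_apply]
    rw [this, eval_C] at h
    exact h
  have h4 : (X - C y) ∣ P := dvd_iff_isRoot.mpr h3
  have h5 : (Y - C (C y)) ∣ A := by
    rw [hP]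
    have := Polynomial.map_dvd (C : ℤ →+* ℤ[X]) h4
    rw [Polynomial.map_sub, map_X, map_C] at this
    exact this
  refine ⟨?_, h5⟩
  rcases h5 with ⟨G, hG⟩
  rcases hA.isUnit_or_isUnit hG with h6 | h6
  · exfalso
    have := natDegree_eq_zero_of_isUnit h6
    rw [natDegree_X_sub_C] at this
    omega
  · obtain ⟨u, hu⟩ := h6
    refine ⟨((u⁻¹ : (ℤ[X][Y])ˣ) : ℤ[X][Y]), ?_⟩
    rw [hG, ← hu, mul_assoc, Units.mul_inv, mul_one]

end Pool.Agent.N741.LD
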