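import Mathlib
import Pool.Agent.N741.LD.Cls
import Pool.Agent.N741.LD.Ker
import Pool.Agent.N741.PB.Cls

/-!
Integral points of the plane at which a function is a perfect power.
-/

set_option autoImplicit false

namespace Pool.Agent.N741.LD

open Finset Polynomial
open scoped Polynomial.Bivariate

theorem prod_residues2 (r T : ℕ) (hr : 1 ≤ r) :
    (∏ v : Fin T × Fin T, r ^ (T - ((v.1 : ℕ) + v.2))) ^ 2 ≤ r ^ (T * (2 * T ^ 2)) := by
  have h1 : ∏ v : Fin T × Fin T, r ^ (T - ((v.1 : ℕ) + v.2)) ≤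
      (∏ j : Fin T, r ^ (T - (j : ℕ))) ^ T := by
    rw [Fintype.prod_prod_type]
    calc ∏ i : Fin T, ∏ j : Fin T, r ^ (T - ((i : ℕ) + j))
        ≤ ∏ _i : Fin T, ∏ j : Fin T, r ^ (T - (j : ℕ)) := by
          apply prod_le_prod (fun _ _ => Nat.zero_le _)
          intro i _
          apply prod_le_prod (fun _ _ => Nat.zero_le _)
          intro j _
          exact Nat.pow_le_pow_right hr (by omega)
      _ = _ := by rw [prod_const, card_univ, Fintype.card_fin]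
  calc (∏ v : Fin T × Fin T, r ^ (T - ((v.1 : ℕ) + v.2))) ^ 2
      ≤ ((∏ j : Fin T, r ^ (T - (j : ℕ))) ^ T) ^ 2 := Nat.pow_le_pow_left h1 2
    _ = ((∏ j : Fin T, r ^ (T - (j : ℕ))) ^ 2) ^ T := by ring
    _ = r ^ (T * (T + 1) * T) := by rw [Pool.Agent.N741.PB.prod_residues_sq, ← pow_mul]
    _ ≤ _ := by
      apply Nat.pow_le_pow_right hr
      rcases Nat.eq_zero_or_pos T with rfl | hT
      · simp
      · nlinarith [Nat.mul_le_mul_left (T * T) hT]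

/-- a residue class in the plane -/
theorem class_plane {F : ℤ[X][Y]} {r z I k T N W : ℕ} (hr : r.Prime) (hrz : ¬ r ∣ z) (hI : 1 ≤ I)
    (hk : 1 ≤ k) (hN : 1 ≤ N) (hW : 1 ≤ W) (hIk : 2 * T ^ 2 ≤ I * (k * k))
    (hbig : W ^ (I - 1) * (N ^ (k - 1) * N ^ (k - 1)) * (I * (k * k)) ^ 2 < r ^ T)
    (x₀ y₀ w₀ : ℤ) (hw₀ : ¬ (r : ℤ) ∣ w₀) :
    ∃ c : Fin I × Fin k × Fin k → ℤ, c ≠ 0 ∧ ∀ x y w : ℤ, |x| ≤ N → |y| ≤ N → |w| ≤ W →
      (r : ℤ) ∣ x - x₀ → (r : ℤ) ∣ y - y₀ → (r : ℤ) ∣ w - w₀ →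
        w ^ z = F.evalEval x y → ∑ i, (aux c i).evalEval x y * w ^ (i : ℕ) = 0 := by
  classical
  obtain ⟨n, hn⟩ : ∃ n, n = I * (k * k) := ⟨_, rfl⟩
  have hcard : Fintype.card (Fin I × Fin k × Fin k) = n := by
    rw [Fintype.card_prod, Fintype.card_prod, Fintype.card_fin, Fintype.card_fin, hn]
  have hn1 : 1 ≤ n := by rw [hn]; exact Nat.mul_pos hI (Nat.mul_pos hk hk)
  obtain ⟨P, hP⟩ := hensel_root F hr hrz w₀ hw₀ T
  set Fj : Fin I × Fin k × Fin k → ℤ[X][Y] := fun v =>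
    P ^ (v.1 : ℕ) * (Y ^ (v.2.1 : ℕ) * C X ^ (v.2.2 : ℕ)) with hFj
  have hcond : (Fintype.card (Fin I × Fin k × Fin k)) ^ (Fintype.card (Fin I × Fin k × Fin k)) *
      (∏ v, wt N W I k k v) * ∏ v : Fin T × Fin T, r ^ (T - ((v.1 : ℕ) + v.2)) <
      r ^ (T * Fintype.card (Fin I × Fin k × Fin k)) := by
    rw [hcard]
    apply lt_of_pow_lt_pow_left₀ 2 (Nat.zero_le _)
    have e1 := prod_wt_sq N W I k k
    have e2 := prod_residues2 r T hr.one_le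
    rw [← hn] at e1 hIk
    calc (n ^ n * (∏ v, wt N W I k k v) * ∏ v : Fin T × Fin T, r ^ (T - ((v.1 : ℕ) + v.2))) ^ 2
        = (n ^ n) ^ 2 * (∏ v, wt N W I k k v) ^ 2 *
          (∏ v : Fin T × Fin T, r ^ (T - ((v.1 : ℕ) + v.2))) ^ 2 := by ring
      _ ≤ (n ^ n) ^ 2 * (∏ v, wt N W I k k v) ^ 2 * r ^ (T * (2 * T ^ 2)) := Nat.mul_le_mul_left _ e2
      _ ≤ (n ^ n) ^ 2 * (∏ v, wt N W I k k v) ^ 2 * r ^ (T * n) :=
        Nat.mul_le_mul_left _ (Nat.pow_le_pow_right hr.pos (Nat.mul_le_mul_left _ hIk))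
      _ = (W ^ (I - 1) * (N ^ (k - 1) * N ^ (k - 1)) * n ^ 2) ^ n * r ^ (T * n) := by
        rw [e1]; ring
      _ < (r ^ T) ^ n * r ^ (T * n) := by
        apply Nat.mul_lt_mul_of_pos_right _ (Nat.pow_pos hr.pos)
        rw [← hn] at hbig
        exact Nat.pow_lt_pow_left hbig (by omega)
      _ = (r ^ (T * n)) ^ 2 := by
        rw [← pow_mul, sq]
  obtain ⟨c, hc0, hc1, hc2⟩ := box Fj (fun v : Fin T × Fin T => lam2 x₀ y₀ v.1 v.2)
    (fun v => T - ((v.1 : ℕ) + v.2)) r T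
    (wt N W I k k) hr.two_le (fun v => by unfold wt; positivity) hcond
  refine ⟨c, hc0, fun x y w hx hy hw hx₀ hy₀ hw' hwF => ?_⟩
  have : Nonempty (Fin I × Fin k × Fin k) := Fintype.card_pos_iff.mp (by rw [hcard]; omega)
  rw [aux_eval]
  apply vanish c (wt N W I k k) r T hc1 (fun v => w ^ (v.1 : ℕ) * (y ^ (v.2.1 : ℕ) * x ^ (v.2.2 : ℕ)))
  · intro v
    unfold wt
    push_cast
    rw [abs_mul, abs_mul, abs_pow, abs_pow, abs_pow]
    gcongr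
  · have h1 : (r : ℤ) ^ T ∣ (∑ v, c v • Fj v).evalEval x y := by
      apply lam2_dvd r T x₀ y₀ _ _ x y hx₀ hy₀
      intro a ha b hb
      exact hc2 (⟨a, ha⟩, ⟨b, hb⟩)
    have h3 : (r : ℤ) ^ T ∣ w - P.evalEval x y := by
      have h4 := hP (evalEvalRingHom x y) w hw' hwF
      rw [coe_evalEvalRingHom] at h4
      exact h4
    have h4 : ∑ v, c v * (w ^ (v.1 : ℕ) * (y ^ (v.2.1 : ℕ) * x ^ (v.2.2 : ℕ))) =
        (∑ v, c v • Fj v).evalEval x y + ∑ v, c v * (w ^ (v.1 : ℕ) *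
          (y ^ (v.2.1 : ℕ) * x ^ (v.2.2 : ℕ)) - (Fj v).evalEval x y) := by
      rw [evalEval_finsetSum, ← sum_add_distrib]
      apply sum_congr rfl
      intro v _
      have : (c v • Fj v).evalEval x y = c v * (Fj v).evalEval x y := by
        rw [zsmul_eq_mul, evalEval_mul, evalEval_intCast]
        simp
      rw [this]
      ring
    rw [h4]
    refine dvd_add h1 (dvd_sum fun v _ => Dvd.dvd.mul_left ?_ _)
    simp only [hFj, evalEval_mul, evalEval_pow, evalEval_X, evalEval_C, eval_X]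
    have a1 : (r : ℤ) ^ T ∣ w ^ (v.1 : ℕ) - P.evalEval x y ^ (v.1 : ℕ) :=
      h3.trans (sub_dvd_pow_sub_pow _ _ _)
    have a3 : w ^ (v.1 : ℕ) * (y ^ (v.2.1 : ℕ) * x ^ (v.2.2 : ℕ)) -
        P.evalEval x y ^ (v.1 : ℕ) * (y ^ (v.2.1 : ℕ) * x ^ (v.2.2 : ℕ)) =
        (w ^ (v.1 : ℕ) - P.evalEval x y ^ (v.1 : ℕ)) * (y ^ (v.2.1 : ℕ) * x ^ (v.2.2 : ℕ)) := by ring
    rw [a3]
    exact a1.mul_right _

theorem gf_natDegree (p q : ℕ) (s t : ℤ) : (GF p q s t).natDegree ≤ q := by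
  unfold GF
  refine natDegree_mul_le.trans ?_
  rw [natDegree_C, zero_add]
  refine (natDegree_add_le _ _).trans (max_le ?_ ?_)
  · rw [← C_pow, natDegree_C]; exact Nat.zero_le _
  · refine natDegree_mul_le.trans ?_
    rw [natDegree_C, zero_add, natDegree_X_pow]

theorem gf_swap (p q : ℕ) (s t : ℤ) (hs : s * s = 1) :
    Bivariate.swap (GF p q s t) = GF q p s (t * s) := by
  unfold GF
  rw [map_mul, map_add, map_mul, map_pow, map_pow, Bivariate.swap_Y, Bivariate.swap_X,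
    Bivariate.swap_C_C, Bivariate.swap_C_C]
  have h1 : (C (C (t * s)) : ℤ[X][Y]) = C (C t) * C (C s) := by rw [C_mul, C_mul]
  have h2 : (C (C s) : ℤ[X][Y]) * C (C s) = 1 := by rw [← C_mul, ← C_mul, hs, C_1, C_1]
  rw [h1]
  linear_combination (-(C (C t) * (Y : ℤ[X][Y]) ^ p)) * h2

theorem gf_dX (p q : ℕ) (s t : ℤ) : dX (GF p q s t) ≤ p := by
  unfold dX GF
  rw [map_mul, map_add, map_mul, map_pow, map_pow, Bivariate.swap_Y, Bivariate.swap_X,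
    Bivariate.swap_C_C, Bivariate.swap_C_C]
  refine natDegree_mul_le.trans ?_
  rw [natDegree_C, zero_add]
  refine (natDegree_add_le _ _).trans (max_le ?_ ?_)
  · rw [natDegree_X_pow]
  · refine natDegree_mul_le.trans ?_
    rw [natDegree_C, zero_add, ← C_pow, natDegree_C]; exact Nat.zero_le _

/-- one residue class in the plane lies on a curve -/
theorem class_on_curve {r z I k T N W p q : ℕ} {s t : ℤ} (hr : r.Prime) (hz : 1 ≤ z) (hrz : ¬ r ∣ z)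
    (hI : 1 ≤ I) (hIz : I ≤ z) (hk : 1 ≤ k) (hN : 1 ≤ N) (hW : 1 ≤ W) (hq : 1 ≤ q) (hs : s ≠ 0)
    (ht : t ≠ 0) (hIk : 2 * T ^ 2 ≤ I * (k * k))
    (hbig : W ^ (I - 1) * (N ^ (k - 1) * N ^ (k - 1)) * (I * (k * k)) ^ 2 < r ^ T)
    (x₀ y₀ w₀ : ℤ) (hw₀ : ¬ (r : ℤ) ∣ w₀) :
    ∃ R : ℤ[X][Y], R ≠ 0 ∧ R.natDegree ≤ z * (k - 1) + I * q ∧ dX R ≤ z * (k - 1) + I * p ∧
      ∀ x y w : ℤ, |x| ≤ N → |y| ≤ N → |w| ≤ W →
      (r : ℤ) ∣ x - x₀ → (r : ℤ) ∣ y - y₀ → (r : ℤ) ∣ w - w₀ →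
        w ^ z = (GF p q s t).evalEval x y → R.evalEval x y = 0 := by
  obtain ⟨c, hc0, hc⟩ := class_plane (F := GF p q s t) hr hrz hI hk hN hW hIk hbig x₀ y₀ w₀ hw₀
  have hNF := noFac_plane (p := p) hq hz hs ht
  obtain ⟨R, hR0, hR1, hR2, hR3⟩ := elim (algebraMap ℤ[X][Y] (FractionRing ℤ[X][Y]))
    (F := GF p q s t) (z := z) (a := k - 1) (b := k - 1) hz
    (fun i => aux c i) (aux_ne_zero hc0) (fun i h => by
      rwa [map_eq_zero_iff _ (IsFractionRing.injective _ _)] at h)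
    (fun i => aux_dX c i) (fun i => aux_natDegree c i)
    (fun Q hQ hQI => hNF Q hQ (by omega))
  refine ⟨R, fun h => hR0 (by rw [h, map_zero]), hR1.trans ?_, hR2.trans ?_, ?_⟩
  · have := gf_natDegree p q s t
    gcongr
  · have := gf_dX p q s t
    gcongr
  · intro x y w hx hy hw h1 h2 h3 h4
    exact hR3 x y w h4 (hc x y w hx hy hw h1 h2 h3 h4)

/-- one prime -/
theorem prime_plane {r z I k T N W p q B : ℕ} {s t : ℤ} (hr : r.Prime) (hz : 1 ≤ z) (hrz : ¬ r ∣ z)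
    (hI : 1 ≤ I) (hIz : I ≤ z) (hk : 1 ≤ k) (hN : 1 ≤ N) (hW : 1 ≤ W) (hq : 1 ≤ q) (hs : s ≠ 0)
    (ht : t ≠ 0) (hIk : 2 * T ^ 2 ≤ I * (k * k))
    (hbig : W ^ (I - 1) * (N ^ (k - 1) * N ^ (k - 1)) * (I * (k * k)) ^ 2 < r ^ T)
    (S : Finset (ℤ × ℤ)) (hS : ∀ v ∈ S, |v.1| ≤ N ∧ |v.2| ≤ N ∧
      ∃ w : ℤ, |w| ≤ W ∧ ¬ (r : ℤ) ∣ w ∧ w ^ z = (GF p q s t).evalEval v.1 v.2)
    (hB : ∀ R : ℤ[X][Y], R ≠ 0 → R.natDegree ≤ z * (k - 1) + I * q → dX R ≤ z * (k - 1) + I * p →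
      ∀ S' ⊆ S, (∀ v ∈ S', R.evalEval v.1 v.2 = 0) → S'.card ≤ B) :
    S.card ≤ r * (r * (z * B)) := by
  classical
  have : Fact r.Prime := ⟨hr⟩
  have : NeZero r := ⟨hr.ne_zero⟩
  set φ := Int.castRingHom (ZMod r) with hφ
  have hcast : ∀ (B : ℤ[X][Y]) (x y : ℤ), (B.map (mapRingHom φ)).evalEval (x : ZMod r) (y : ZMod r) =
      ((B.evalEval x y : ℤ) : ZMod r) := by
    intro B x y
    have := map_mapRingHom_evalEval φ B x y
    simpa [hφ] using this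
  set F := GF p q s t with hF
  set cls : ZMod r → ZMod r → ZMod r → Finset (ℤ × ℤ) := fun x y u => S.filter (fun v : ℤ × ℤ =>
    (v.1 : ZMod r) = x ∧ (v.2 : ZMod r) = y ∧
    ∃ w : ℤ, |w| ≤ W ∧ (w : ZMod r) = u ∧ w ^ z = F.evalEval v.1 v.2) with hcls
  set rts : ZMod r → ZMod r → Finset (ZMod r) := fun x y =>
    ((nthRoots z ((F.map (mapRingHom φ)).evalEval x y)).toFinset).erase 0 with hrts
  set S₁ := (univ : Finset (ZMod r)).biUnion (fun x => (univ : Finset (ZMod r)).biUnion (fun y =>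
    (rts x y).biUnion (fun u => cls x y u))) with hS₁
  have hval : ∀ x : ZMod r, (((x.val : ℕ) : ℤ) : ZMod r) = x := by
    intro x
    rw [Int.cast_natCast, ZMod.natCast_zmod_val]
  have hdvd : ∀ (x : ℤ) (y : ZMod r), (x : ZMod r) = y → (r : ℤ) ∣ x - ((y.val : ℕ) : ℤ) := by
    intro x y h
    rw [← ZMod.intCast_zmod_eq_zero_iff_dvd, Int.cast_sub, hval, h, sub_self]
  have h1 : S₁.card ≤ r * (r * (z * B)) := by
    have h2 : ∀ x ∈ (univ : Finset (ZMod r)), ((univ : Finset (ZMod r)).biUnion (fun y =>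
        (rts x y).biUnion (fun u => cls x y u))).card ≤ r * (z * B) := by
      intro x _
      refine (card_biUnion_le_card_mul _ _ (z * B) ?_).trans (Nat.mul_le_mul_right _ ?_)
      · intro y _
        refine (card_biUnion_le_card_mul _ _ B ?_).trans (Nat.mul_le_mul_right _ ?_)
        · intro u hu
          rw [hrts, mem_erase] at hu
          obtain ⟨R, hR0, hR1, hR2, hR3⟩ := class_on_curve (p := p) (q := q) (s := s) (t := t) hr hz
            hrz hI hIz hk hN hW hq hs ht hIk hbig ((x.val : ℕ) : ℤ) ((y.val : ℕ) : ℤ)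
            ((u.val : ℕ) : ℤ) (by
              intro h
              apply hu.1
              rw [← hval u]
              exact (ZMod.intCast_zmod_eq_zero_iff_dvd _ _).mpr h)
          apply hB R hR0 hR1 hR2 _ (filter_subset _ _)
          intro v hv
          rw [mem_filter] at hv
          obtain ⟨h3, h5, h5', w, h6, h7, h8⟩ := hv
          obtain ⟨g1, g2, -⟩ := hS v h3
          exact hR3 v.1 v.2 w g1 g2 h6 (hdvd _ _ h5) (hdvd _ _ h5') (hdvd _ _ h7) h8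
        · calc _ ≤ ((nthRoots z ((F.map (mapRingHom φ)).evalEval x y)).toFinset).card :=
                card_erase_le
            _ ≤ (nthRoots z ((F.map (mapRingHom φ)).evalEval x y)).card := Multiset.toFinset_card_le _
            _ ≤ z := card_nthRoots z _
      · rw [card_univ, ZMod.card]
    refine (card_biUnion_le_card_mul _ _ _ h2).trans ?_
    rw [card_univ, ZMod.card]
  refine le_trans (card_le_card ?_) h1
  intro v hv
  obtain ⟨h2, h3, w, h6, h7, h8⟩ := hS v hv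
  rw [hS₁, mem_biUnion]
  refine ⟨(v.1 : ZMod r), mem_univ _, ?_⟩
  rw [mem_biUnion]
  refine ⟨(v.2 : ZMod r), mem_univ _, ?_⟩
  rw [mem_biUnion]
  refine ⟨(w : ZMod r), ?_, ?_⟩
  · rw [hrts, mem_erase, Multiset.mem_toFinset, mem_nthRoots (by omega), hcast, ← h8, Int.cast_pow]
    exact ⟨fun h => h7 ((ZMod.intCast_zmod_eq_zero_iff_dvd _ _).mp h), rfl⟩
  · simp only [hcls, mem_filter]
    exact ⟨hv, trivial, trivial, w, h6, rfl, h8⟩

/-- **the count with several primes** -/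
theorem plane_count {z I k T N W p q B X₀ X₁ : ℕ} {s t : ℤ} (hz : 1 ≤ z)
    (hI : 1 ≤ I) (hIz : I ≤ z) (hk : 1 ≤ k) (hN : 1 ≤ N) (hW : 1 ≤ W) (hq : 1 ≤ q) (hs : s ≠ 0)
    (ht : t ≠ 0) (hIk : 2 * T ^ 2 ≤ I * (k * k)) {𝒬 : Finset ℕ}
    (h𝒬 : ∀ r ∈ 𝒬, r.Prime ∧ X₀ ≤ r ∧ r ≤ X₁) (hzX : z < X₀) (hM : W < X₀ ^ 𝒬.card)
    (hbig : W ^ (I - 1) * (N ^ (k - 1) * N ^ (k - 1)) * (I * (k * k)) ^ 2 < X₀ ^ T)
    (S : Finset (ℤ × ℤ)) (hS : ∀ v ∈ S, |v.1| ≤ N ∧ |v.2| ≤ N ∧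
      ∃ w : ℤ, w ≠ 0 ∧ |w| ≤ W ∧ w ^ z = (GF p q s t).evalEval v.1 v.2)
    (hB : ∀ R : ℤ[X][Y], R ≠ 0 → R.natDegree ≤ z * (k - 1) + I * q → dX R ≤ z * (k - 1) + I * p →
      ∀ S' ⊆ S, (∀ v ∈ S', R.evalEval v.1 v.2 = 0) → S'.card ≤ B) :
    S.card ≤ 𝒬.card * (X₁ * (X₁ * (z * B))) := by
  classical
  set U : ℕ → Finset (ℤ × ℤ) := fun r => S.filter (fun v => ∃ w : ℤ, |w| ≤ W ∧ ¬ (r : ℤ) ∣ w ∧
    w ^ z = (GF p q s t).evalEval v.1 v.2) with hU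
  have hsub : S ⊆ 𝒬.biUnion U := by
    intro v hv
    obtain ⟨h1, h2, w, h3, h4, h5⟩ := hS v hv
    obtain ⟨r, hr, hrw⟩ := Pool.Agent.N741.PB.exists_not_dvd
      (fun r hr => ⟨(h𝒬 r hr).1, (h𝒬 r hr).2.1⟩) hM h3 h4
    rw [mem_biUnion]
    refine ⟨r, hr, ?_⟩
    simp only [hU, mem_filter]
    exact ⟨hv, w, h4, hrw, h5⟩
  refine (card_le_card hsub).trans (card_biUnion_le_card_mul _ _ _ ?_)
  intro r hr
  obtain ⟨h1, h2, h3⟩ := h𝒬 r hr
  have hrz : ¬ r ∣ z := fun h => by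
    have := Nat.le_of_dvd (by omega) h
    omega
  refine (prime_plane (B := B) (p := p) (q := q) (s := s) (t := t) h1 hz hrz hI hIz hk hN hW hq hs ht
    hIk (lt_of_lt_of_le hbig (Nat.pow_le_pow_left h2 _)) (U r) ?_ ?_).trans ?_
  · intro v hv
    simp only [hU, mem_filter] at hv
    exact ⟨(hS v hv.1).1, (hS v hv.1).2.1, hv.2⟩
  · intro R hR0 hR1 hR2 S' hS' hv
    exact hB R hR0 hR1 hR2 S' (hS'.trans (filter_subset _ _)) hv
  · gcongr

end Pool.Agent.N741.LD
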