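import Mathlib
import Pool.Agent.N741.LD.Cur
import Pool.Agent.N741.LD.Sur
import Pool.Agent.N741.LD.Dec

/-!
Curves and planes: the count for fixed exponents.
-/

set_option autoImplicit false

namespace Pool.Agent.N741.LD

open Finset Polynomial
open scoped Polynomial.Bivariate

/-- the points of the box at which the function is a perfect power -/
def Pt (N W z p q : ℕ) (s t : ℤ) (v : ℤ × ℤ) : Prop :=
  1 ≤ v.1 ∧ v.1 ≤ N ∧ 1 ≤ v.2 ∧ v.2 ≤ N ∧ IsCoprime v.1 v.2 ∧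
    ∃ w : ℤ, w ≠ 0 ∧ |w| ≤ W ∧ w ^ z = (GF p q s t).evalEval v.1 v.2

theorem Pt.swap {N W z p q : ℕ} {s t : ℤ} (hs : s * s = 1) {v : ℤ × ℤ} (h : Pt N W z p q s t v) :
    Pt N W z q p s (t * s) v.swap := by
  obtain ⟨h1, h2, h3, h4, h5, w, h6, h7, h8⟩ := h
  refine ⟨h3, h4, h1, h2, h5.symm, w, h6, h7, ?_⟩
  rw [h8, gf_eval, gf_eval, Prod.fst_swap, Prod.snd_swap]
  linear_combination (-(t * v.1 ^ p)) * hs

/-- the parameters -/
structure Par (N b Z X₀ X₁ : ℕ) (𝒬 : Finset ℕ) : Prop where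
  b1 : 1 ≤ b
  bZ : 32 * b ^ 2 ≤ Z
  ZN : Z ^ 20 ≤ N
  ZX : Z < X₀
  NX : N ≤ X₀ ^ b
  X01 : X₀ ≤ X₁
  card : 𝒬.card = Z ^ 14
  pr : ∀ r ∈ 𝒬, r.Prime ∧ X₀ ≤ r ∧ r ≤ X₁

theorem Par.Z32 {N b Z X₀ X₁ : ℕ} {𝒬 : Finset ℕ} (P : Par N b Z X₀ X₁ 𝒬) : 32 ≤ Z := by
  have := P.bZ
  have := Nat.one_le_pow 2 b P.b1
  omega

theorem Par.b5 {N b Z X₀ X₁ : ℕ} {𝒬 : Finset ℕ} (P : Par N b Z X₀ X₁ 𝒬) : 5 * b ≤ Z := by
  have := P.bZ
  have := P.b1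
  nlinarith

theorem Par.N2 {N b Z X₀ X₁ : ℕ} {𝒬 : Finset ℕ} (P : Par N b Z X₀ X₁ 𝒬) : 2 ≤ N := by
  have h1 := P.Z32
  have h2 : Z ≤ Z ^ 20 := Nat.le_self_pow (by norm_num) Z
  have := P.ZN
  omega

theorem Par.lt {N b Z X₀ X₁ : ℕ} {𝒬 : Finset ℕ} (P : Par N b Z X₀ X₁ 𝒬) {i : ℕ} (hi : i < 20) :
    Z ^ i < N := lt_of_lt_of_le (Nat.pow_lt_pow_right (by have := P.Z32; omega) hi) P.ZN

theorem bc_le {d a k I p q z Z : ℕ} (hZ : 4 ≤ Z) (hd : d ≤ Z ^ 3) (ha : a ≤ Z ^ 3) (hk : k ≤ Z ^ 3)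
    (hI : I ≤ Z) (hp : p ≤ Z) (hq : q ≤ Z) (hz : z ≤ Z) : Bc d a k I p q z ≤ Z ^ 11 := by
  unfold Bc
  have h1 : z * (k - 1) + I * p ≤ 2 * Z ^ 4 := by
    have e1 : z * (k - 1) ≤ Z * Z ^ 3 := Nat.mul_le_mul hz (by omega)
    have e2 : I * p ≤ Z * Z := Nat.mul_le_mul hI hp
    have e3 : Z * Z ≤ Z ^ 4 := by
      calc Z * Z = Z ^ 2 := by ring
        _ ≤ Z ^ 4 := Nat.pow_le_pow_right (by omega) (by norm_num)
    have e4 : Z * Z ^ 3 = Z ^ 4 := by ring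
    omega
  have h2 : z * (d - 1) + I * q ≤ 2 * Z ^ 4 := by
    have e1 : z * (d - 1) ≤ Z * Z ^ 3 := Nat.mul_le_mul hz (by omega)
    have e2 : I * q ≤ Z * Z := Nat.mul_le_mul hI hq
    have e3 : Z * Z ≤ Z ^ 4 := by
      calc Z * Z = Z ^ 2 := by ring
        _ ≤ Z ^ 4 := Nat.pow_le_pow_right (by omega) (by norm_num)
    have e4 : Z * Z ^ 3 = Z ^ 4 := by ring
    omega
  calc (d * (z * (k - 1) + I * p) + (z * (d - 1) + I * q) * a) * d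
      ≤ (Z ^ 3 * (2 * Z ^ 4) + (2 * Z ^ 4) * Z ^ 3) * Z ^ 3 := by gcongr
    _ = 4 * Z ^ 10 := by ring
    _ ≤ Z * Z ^ 10 := Nat.mul_le_mul_right _ hZ
    _ = Z ^ 11 := by ring

theorem gh_le {a d N Z : ℕ} (hZ : 2 ≤ Z) (hd : d ≤ Z ^ 3) (ha : a ≤ Z ^ 3) (hN : Z ^ 8 ≤ N) :
    Gh a d N ≤ N ^ (2 * Z ^ 3 + 1) := by
  unfold Gh
  have hN1 : 1 ≤ N := (Nat.one_le_pow _ _ (by omega)).trans hN
  have h3 : 1 ≤ Z ^ 3 := Nat.one_le_pow _ _ (by omega)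
  have h1 : (a + 1) * (d + 1) ≤ N := by
    calc (a + 1) * (d + 1) ≤ (2 * Z ^ 3) * (2 * Z ^ 3) := Nat.mul_le_mul (by omega) (by omega)
      _ = (2 * 2) * Z ^ 6 := by ring
      _ ≤ (Z * Z) * Z ^ 6 := Nat.mul_le_mul_right _ (Nat.mul_le_mul hZ hZ)
      _ = Z ^ 8 := by ring
      _ ≤ N := hN
  calc (a + 1) * (d + 1) * N ^ (a + d) ≤ N * N ^ (2 * Z ^ 3) :=
        Nat.mul_le_mul h1 (Nat.pow_le_pow_right hN1 (by omega))
    _ = _ := by rw [pow_succ]; ring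

theorem Par.hM {N b Z X₀ X₁ : ℕ} {𝒬 : Finset ℕ} (P : Par N b Z X₀ X₁ 𝒬) {a d W : ℕ}
    (hd : d ≤ Z ^ 3) (ha : a ≤ Z ^ 3) (hW : W ≤ N ^ (Z + 1)) :
    W * (Gh a d N * (d * Gh a d N ^ ((a + 1) * (d + 1)))) < X₀ ^ 𝒬.card := by
  have hZ := P.Z32
  have hN2 := P.N2
  have hG := gh_le (by omega) hd ha (P.lt (i := 8) (by norm_num)).le
  have h3 : 1 ≤ Z ^ 3 := Nat.one_le_pow _ _ (by omega)
  have hdN : d ≤ N := hd.trans (P.lt (i := 3) (by norm_num)).le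
  have hG' : Gh a d N ^ ((a + 1) * (d + 1)) ≤ N ^ ((2 * Z ^ 3 + 1) * ((2 * Z ^ 3) * (2 * Z ^ 3))) := by
    calc Gh a d N ^ ((a + 1) * (d + 1)) ≤ (N ^ (2 * Z ^ 3 + 1)) ^ ((a + 1) * (d + 1)) :=
          Nat.pow_le_pow_left hG _
      _ = N ^ ((2 * Z ^ 3 + 1) * ((a + 1) * (d + 1))) := by rw [← pow_mul]
      _ ≤ _ := by
        apply Nat.pow_le_pow_right (by omega)
        exact Nat.mul_le_mul_left _ (Nat.mul_le_mul (by omega) (by omega))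
  calc W * (Gh a d N * (d * Gh a d N ^ ((a + 1) * (d + 1))))
      ≤ N ^ (Z + 1) * (N ^ (2 * Z ^ 3 + 1) * (N * N ^ ((2 * Z ^ 3 + 1) * ((2 * Z ^ 3) * (2 * Z ^ 3))))) := by
        gcongr
    _ = N ^ ((Z + 1) + ((2 * Z ^ 3 + 1) + (1 + (2 * Z ^ 3 + 1) * ((2 * Z ^ 3) * (2 * Z ^ 3))))) := by
        rw [pow_add N (Z + 1), pow_add N (2 * Z ^ 3 + 1), pow_add N 1, pow_one]
    _ < N ^ (Z ^ 13) := by
        apply Nat.pow_lt_pow_right (by omega)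
        have e1 : (2 * Z ^ 3 + 1) * ((2 * Z ^ 3) * (2 * Z ^ 3)) ≤ 12 * Z ^ 9 := by
          calc (2 * Z ^ 3 + 1) * ((2 * Z ^ 3) * (2 * Z ^ 3)) ≤ (3 * Z ^ 3) * ((2 * Z ^ 3) * (2 * Z ^ 3)) :=
                Nat.mul_le_mul_right _ (by omega)
            _ = 12 * Z ^ 9 := by ring
        have e2 : Z ≤ Z ^ 9 := Nat.le_self_pow (by norm_num) Z
        have e3 : Z ^ 3 ≤ Z ^ 9 := Nat.pow_le_pow_right (by omega) (by norm_num)
        have e4 : 32 * Z ^ 9 ≤ Z ^ 13 := by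
          calc 32 * Z ^ 9 ≤ Z * Z ^ 9 := Nat.mul_le_mul_right _ hZ
            _ = Z ^ 10 := by ring
            _ ≤ Z ^ 13 := Nat.pow_le_pow_right (by omega) (by norm_num)
        have e5 : 1 ≤ Z ^ 9 := Nat.one_le_pow _ _ (by omega)
        omega
    _ ≤ (X₀ ^ b) ^ (Z ^ 13) := Nat.pow_le_pow_left P.NX _
    _ ≤ X₀ ^ 𝒬.card := by
        rw [P.card, ← pow_mul]
        apply Nat.pow_le_pow_right (by have := P.ZX; omega)
        calc b * Z ^ 13 ≤ Z * Z ^ 13 := Nat.mul_le_mul_right _ (by have := P.b5; omega)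
          _ = Z ^ 14 := by ring

/-- the basic bound -/
theorem basic (hbez : Bez) (hhgt : Hgt) {N b Z X₀ X₁ : ℕ} {𝒬 : Finset ℕ} (P : Par N b Z X₀ X₁ 𝒬)
    {A : ℤ[X][Y]} {W z p q k I : ℕ} {s t : ℤ}
    (hA : Irreducible A) (hd : 1 ≤ A.natDegree) (hdZ : A.natDegree ≤ Z ^ 3) (haZ : dX A ≤ Z ^ 3)
    (hz : 1 ≤ z) (hzZ : z ≤ Z) (hpZ : p ≤ Z) (hqZ : q ≤ Z) (hI : 1 ≤ I) (hIZ : I ≤ Z) (hk : 1 ≤ k)
    (hkZ : k ≤ Z ^ 3) (hW1 : 1 ≤ W) (hW : W ≤ N ^ (Z + 1)) (hNP : NoPow A (GF p q s t) z I)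
    (hbig : W ^ (I - 1) * (N ^ (A.natDegree - 1) * N ^ (k - 1)) * (I * (A.natDegree * k)) ^ 2 <
      X₀ ^ (I * (A.natDegree * k) - 1))
    (S : Finset (ℤ × ℤ)) (hS : ∀ v ∈ S, Pt N W z p q s t v)
    (hSA : ∀ v ∈ S, A.evalEval v.1 v.2 = 0) : S.card ≤ X₁ * Z ^ 31 := by
  have hZ := P.Z32
  have hmain := curve_count hbez hhgt hA hd (le_refl (dX A)) hz hI hk (by have := P.N2; omega) hW1
    (gf_dX p q s t) (gf_natDegree p q s t) hNP P.pr (by have := P.ZX; omega) (P.hM hdZ haZ hW) hbig S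
    (fun v hv => by
      obtain ⟨h1, h2, h3, h4, h5, h6⟩ := hS v hv
      exact ⟨by rw [abs_of_pos (by omega)]; exact h2, by rw [abs_of_pos (by omega)]; exact h4,
        hSA v hv, h6⟩)
  rw [P.card] at hmain
  refine hmain.trans ?_
  have hB := bc_le (by omega) hdZ haZ hkZ hIZ hpZ hqZ hzZ
  have hX1 : 1 ≤ X₁ := by have := P.ZX; have := P.X01; omega
  calc 2 * dX A * A.natDegree ^ 2 + Z ^ 14 * (X₁ * (A.natDegree * (z *
        Bc A.natDegree (dX A) k I p q z)))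
      ≤ 2 * Z ^ 3 * (Z ^ 3) ^ 2 + Z ^ 14 * (X₁ * (Z ^ 3 * (Z * Z ^ 11))) := by gcongr
    _ = 2 * Z ^ 9 + X₁ * Z ^ 29 := by ring
    _ ≤ X₁ * Z ^ 30 + X₁ * Z ^ 30 := by
      have e1 : 2 * Z ^ 9 ≤ X₁ * Z ^ 30 := by
        calc 2 * Z ^ 9 ≤ Z * Z ^ 9 := Nat.mul_le_mul_right _ (by omega)
          _ = 1 * Z ^ 10 := by ring
          _ ≤ X₁ * Z ^ 30 := Nat.mul_le_mul hX1 (Nat.pow_le_pow_right (by omega) (by norm_num))
      have e2 : X₁ * Z ^ 29 ≤ X₁ * Z ^ 30 :=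
        Nat.mul_le_mul_left _ (Nat.pow_le_pow_right (by omega) (by norm_num))
      omega
    _ = X₁ * (2 * Z ^ 30) := by ring
    _ ≤ X₁ * (Z * Z ^ 30) := Nat.mul_le_mul_left _ (Nat.mul_le_mul_right _ (by omega))
    _ = X₁ * Z ^ 31 := by ring

/-- curves of large degree in `Y` -/
theorem basic_a (hbez : Bez) (hhgt : Hgt) {N b Z X₀ X₁ : ℕ} {𝒬 : Finset ℕ} (P : Par N b Z X₀ X₁ 𝒬)
    {A : ℤ[X][Y]} {W z p q : ℕ} {s t : ℤ}
    (hA : Irreducible A) (hd : 5 * b ≤ A.natDegree) (hdZ : A.natDegree ≤ Z ^ 3) (haZ : dX A ≤ Z ^ 3)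
    (hz : 1 ≤ z) (hzZ : z ≤ Z) (hpZ : p ≤ Z) (hqZ : q ≤ Z) (hW1 : 1 ≤ W) (hW : W ≤ N ^ (Z + 1))
    (S : Finset (ℤ × ℤ)) (hS : ∀ v ∈ S, Pt N W z p q s t v)
    (hSA : ∀ v ∈ S, A.evalEval v.1 v.2 = 0) : S.card ≤ X₁ * Z ^ 31 := by
  have hb := P.b1
  have hX0 : 1 ≤ X₀ := by have := P.ZX; omega
  have hN1 : 1 ≤ N := by have := P.N2; omega
  obtain ⟨e, he⟩ := Nat.exists_eq_add_of_le' (show 1 ≤ A.natDegree by omega)
  refine basic hbez hhgt P hA (by omega) hdZ haZ hz hzZ hpZ hqZ le_rfl (by have := P.Z32; omega)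
    (k := A.natDegree) (I := 1) (by omega) hdZ hW1 hW (fun _ _ n h1 h2 => by omega) ?_ S hS hSA
  rw [Nat.sub_self, pow_zero, one_mul, one_mul]
  have h4 : (A.natDegree * A.natDegree) ^ 2 < N := by
    refine lt_of_le_of_lt ?_ (P.lt (i := 12) (by norm_num))
    calc (A.natDegree * A.natDegree) ^ 2 ≤ (Z ^ 3 * Z ^ 3) ^ 2 := by gcongr
      _ = Z ^ 12 := by ring
  calc N ^ (A.natDegree - 1) * N ^ (A.natDegree - 1) * (A.natDegree * A.natDegree) ^ 2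
      < N ^ (A.natDegree - 1) * N ^ (A.natDegree - 1) * N :=
        Nat.mul_lt_mul_of_pos_left h4 (by positivity)
    _ = N ^ (2 * e + 1) := by
        rw [he, Nat.add_sub_cancel, pow_succ, two_mul, pow_add]
    _ ≤ N ^ (5 * e) := Nat.pow_le_pow_right hN1 (by omega)
    _ ≤ (X₀ ^ b) ^ (5 * e) := Nat.pow_le_pow_left P.NX _
    _ = X₀ ^ (b * (5 * e)) := by rw [← pow_mul]
    _ ≤ X₀ ^ (A.natDegree * A.natDegree - 1) := by
        apply Nat.pow_le_pow_right hX0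
        rw [he] at hd ⊢
        have e1 : (e + 1) * (e + 1) - 1 = (e + 2) * e := by
          have : (e + 1) * (e + 1) = (e + 2) * e + 1 := by ring
          omega
        rw [e1]
        calc b * (5 * e) = (5 * b) * e := by ring
          _ ≤ (e + 2) * e := Nat.mul_le_mul_right _ (by omega)

/-- curves of small degree in `Y` -/
theorem basic_b (hbez : Bez) (hhgt : Hgt) {N b Z X₀ X₁ : ℕ} {𝒬 : Finset ℕ} (P : Par N b Z X₀ X₁ 𝒬)
    {A : ℤ[X][Y]} {W z p q m : ℕ} {s t : ℤ}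
    (hA : Irreducible A) (hd : 1 ≤ A.natDegree) (hdZ : A.natDegree ≤ Z) (haZ : dX A ≤ Z ^ 3)
    (hz : 5 * b ≤ z) (hzZ : z ≤ Z) (hpZ : p ≤ Z) (hqZ : q ≤ Z) (hm : 1 ≤ m) (hmZ : m ≤ Z)
    (hW1 : 1 ≤ W) (hWz : W ^ z ≤ 2 * N ^ m)
    (hNP : NoPow A (GF p q s t) z (5 * b))
    (S : Finset (ℤ × ℤ)) (hS : ∀ v ∈ S, Pt N W z p q s t v)
    (hSA : ∀ v ∈ S, A.evalEval v.1 v.2 = 0) : S.card ≤ X₁ * Z ^ 31 := by
  have hb := P.b1
  have hX0 : 1 ≤ X₀ := by have := P.ZX; omega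
  have hN2 := P.N2
  have hZ := P.Z32
  have hZ3 : Z ≤ Z ^ 3 := Nat.le_self_pow (by norm_num) Z
  have hW : W ≤ N ^ (Z + 1) := by
    calc W ≤ W ^ z := Nat.le_self_pow (by omega) W
      _ ≤ 2 * N ^ m := hWz
      _ ≤ N * N ^ Z := Nat.mul_le_mul hN2 (Nat.pow_le_pow_right (by omega) hmZ)
      _ = N ^ (Z + 1) := by ring
  refine basic hbez hhgt P hA hd (by omega) haZ (by omega) hzZ hpZ hqZ (by omega) P.b5
    (k := m) (I := 5 * b) hm (by omega) hW1 hW hNP ?_ S hS hSA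
  have h4 : 2 * (5 * b * (A.natDegree * m)) ^ 2 < N := by
    refine lt_of_le_of_lt ?_ (P.lt (i := 7) (by norm_num))
    calc 2 * (5 * b * (A.natDegree * m)) ^ 2 ≤ 2 * (Z * (Z * Z)) ^ 2 := by
          gcongr
          exact P.b5
      _ ≤ Z * (Z * (Z * Z)) ^ 2 := Nat.mul_le_mul_right _ (by omega)
      _ = Z ^ 7 := by ring
  have h5 : W ^ (5 * b - 1) ≤ 2 * N ^ m := (Nat.pow_le_pow_right hW1 (by omega)).trans hWz
  obtain ⟨e, he⟩ := Nat.exists_eq_add_of_le' hd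
  obtain ⟨f, hf⟩ := Nat.exists_eq_add_of_le' hm
  calc W ^ (5 * b - 1) * (N ^ (A.natDegree - 1) * N ^ (m - 1)) * (5 * b * (A.natDegree * m)) ^ 2
      ≤ 2 * N ^ m * (N ^ (A.natDegree - 1) * N ^ (m - 1)) * (5 * b * (A.natDegree * m)) ^ 2 := by
        gcongr
    _ = N ^ m * (N ^ (A.natDegree - 1) * N ^ (m - 1)) * (2 * (5 * b * (A.natDegree * m)) ^ 2) := by
        ring
    _ < N ^ m * (N ^ (A.natDegree - 1) * N ^ (m - 1)) * N :=
        Nat.mul_lt_mul_of_pos_left h4 (by positivity)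
    _ = N ^ (m + (e + f) + 1) := by
        rw [he, hf, Nat.add_sub_cancel, Nat.add_sub_cancel]
        ring
    _ ≤ N ^ (5 * (A.natDegree * m) - 1) := by
        apply Nat.pow_le_pow_right (by omega)
        rw [he, hf]
        have : (e + 1) * (f + 1) = e * f + e + f + 1 := by ring
        omega
    _ ≤ (X₀ ^ b) ^ (5 * (A.natDegree * m) - 1) := Nat.pow_le_pow_left P.NX _
    _ = X₀ ^ (b * (5 * (A.natDegree * m) - 1)) := by rw [← pow_mul]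
    _ ≤ X₀ ^ (5 * b * (A.natDegree * m) - 1) := by
        apply Nat.pow_le_pow_right hX0
        rw [Nat.mul_sub, mul_one]
        have : b * (5 * (A.natDegree * m)) = 5 * b * (A.natDegree * m) := by ring
        omega

/-- LD/3 for fixed `E` and `C₁` -/
def SpaAt (E C₁ : ℕ) : Prop := ∀ A : ℤ[X][Y], Irreducible A → 1 ≤ A.natDegree →
  A.natDegree ≤ E → dX A ≤ E → ¬ Col A → ∀ (p q : ℕ) (s σ : ℤ), 1 ≤ p → C₁ ≤ q →
  (s = 1 ∨ s = -1) → (σ = 1 ∨ σ = -1) → ∀ (U D : ℤ[X][Y]) (n r : ℕ), 1 ≤ n → ¬ A ∣ D →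
  A ∣ U ^ r - C (C σ) * D ^ r * (C X ^ p + C (C s) * Y ^ q) ^ n → r ≤ C₁ * n

/-- LD/4 for fixed `E` and `N` -/
def SpeAt (E N B : ℕ) : Prop := ∀ A : ℤ[X][Y],
  Irreducible A → 1 ≤ A.natDegree → 1 ≤ dX A → A.natDegree ≤ E → dX A ≤ E → Col A →
  ∀ S : Finset (ℕ × ℕ), (∀ v ∈ S, 1 ≤ v.1 ∧ v.1 ≤ N ∧ 1 ≤ v.2 ∧ v.2 ≤ N ∧ Nat.Coprime v.1 v.2 ∧
    A.evalEval (v.1 : ℤ) (v.2 : ℤ) = 0) → S.card ≤ B

theorem evalEval_swap' (A : ℤ[X][Y]) (x y : ℤ) :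
    (Bivariate.swap A).evalEval y x = A.evalEval x y := by
  induction A using Polynomial.induction_on' with
  | add p q hp hq => rw [map_add, evalEval_add, evalEval_add, hp, hq]
  | monomial n f =>
    induction f using Polynomial.induction_on' with
    | add p q hp hq =>
      rw [map_add (monomial n), map_add, evalEval_add, evalEval_add, hp, hq]
    | monomial m r =>
      rw [Bivariate.swap_monomial_monomial]
      unfold evalEval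
      rw [eval_monomial, eval_monomial, eval_mul, eval_mul, eval_monomial, eval_monomial, ← C_pow,
        ← C_pow, eval_C, eval_C]
      ring

theorem col_swap {A : ℤ[X][Y]} (h : Col (Bivariate.swap A)) : Col A := by
  obtain ⟨α, β, c, h1, h2⟩ := h
  refine ⟨β, α, c, h1.symm, fun i j hij => ?_⟩
  have := h2 j i (by rwa [Pool.Agent.N157.LD.coeff_coeff_swap])
  linarith

theorem noPow_of_spa {E C₁ : ℕ} (h : SpaAt E C₁) {A : ℤ[X][Y]} (hA : Irreducible A)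
    (h1 : 1 ≤ A.natDegree) (h2 : A.natDegree ≤ E) (h3 : dX A ≤ E) (h4 : ¬ Col A) {p q z I : ℕ}
    {s t : ℤ} (hp : 1 ≤ p) (hq : C₁ ≤ q) (hs : s = 1 ∨ s = -1) (ht : t = 1 ∨ t = -1)
    (hz : C₁ * I < z) : NoPow A (GF p q s t) z I := by
  intro U D n hn hnI hD hdvd
  have ht' : t ^ n = 1 ∨ t ^ n = -1 := by
    rcases ht with rfl | rfl
    · left; exact one_pow n
    · exact neg_one_pow_eq_or ℤ n
  have e : U ^ z - D ^ z * GF p q s t ^ n =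
      U ^ z - C (C (t ^ n)) * D ^ z * (C X ^ p + C (C s) * Y ^ q) ^ n := by
    unfold GF
    rw [mul_pow, ← C_pow, ← C_pow]
    ring
  rw [e] at hdvd
  have h5 := h A hA h1 h2 h3 h4 p q s (t ^ n) hp hq hs ht' U D n z hn hD hdvd
  have h6 : C₁ * n ≤ C₁ * I := Nat.mul_le_mul_left _ hnI.le
  omega

theorem noPow_assoc {A A' F : ℤ[X][Y]} {z I : ℕ} (h1 : A ∣ A') (h2 : A' ∣ A) (h : NoPow A F z I) :
    NoPow A' F z I :=
  fun U D n hn hnI hD hdvd => h U D n hn hnI (fun h3 => hD (h2.trans h3)) (h1.trans hdvd)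

theorem special_bound {E N B : ℕ} (hspe : SpeAt E N B) {A : ℤ[X][Y]} (hA : Irreducible A)
    (h1 : 1 ≤ A.natDegree) (h2 : 1 ≤ dX A) (h3 : A.natDegree ≤ E) (h4 : dX A ≤ E) (h5 : Col A)
    {W z p q : ℕ} {s t : ℤ} (S : Finset (ℤ × ℤ)) (hS : ∀ v ∈ S, Pt N W z p q s t v)
    (hSA : ∀ v ∈ S, A.evalEval v.1 v.2 = 0) : S.card ≤ B := by
  classical
  have hinj : Set.InjOn (fun v : ℤ × ℤ => (v.1.toNat, v.2.toNat)) (S : Set (ℤ × ℤ)) := by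
    intro v hv v' hv' h
    obtain ⟨a1, -, a2, -⟩ := hS v hv
    obtain ⟨b1, -, b2, -⟩ := hS v' hv'
    simp only [Prod.mk.injEq] at h
    ext <;> omega
  rw [← card_image_of_injOn hinj]
  apply hspe A hA h1 h2 h3 h4 h5
  intro v hv
  rw [mem_image] at hv
  obtain ⟨u, hu, rfl⟩ := hv
  obtain ⟨a1, a2, a3, a4, a5, -⟩ := hS u hu
  have e1 : ((u.1.toNat : ℕ) : ℤ) = u.1 := Int.toNat_of_nonneg (by omega)
  have e2 : ((u.2.toNat : ℕ) : ℤ) = u.2 := Int.toNat_of_nonneg (by omega)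
  refine ⟨by omega, by omega, by omega, by omega, ?_, ?_⟩
  · rw [← Nat.isCoprime_iff_coprime, e1, e2]; exact a5
  · simp only
    rw [e1, e2]; exact hSA u hu

/-- the swapped set -/
theorem swap_card (S : Finset (ℤ × ℤ)) : (S.map (Equiv.prodComm ℤ ℤ).toEmbedding).card = S.card :=
  card_map _

/-- horizontal lines -/
theorem line_bound (hbez : Bez) (hhgt : Hgt) {N b Z X₀ X₁ : ℕ} {𝒬 : Finset ℕ}
    (P : Par N b Z X₀ X₁ 𝒬) {A : ℤ[X][Y]} {W z p q m : ℕ} {s t : ℤ} (hA : Irreducible A)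
    (hd : 1 ≤ A.natDegree) (hdZ : A.natDegree ≤ Z) (ha : dX A = 0)
    (hz : 5 * b ≤ z) (hzZ : z ≤ Z) (hp : 1 ≤ p) (hpZ : p ≤ Z) (hqZ : q ≤ Z) (hm : 1 ≤ m) (hmZ : m ≤ Z)
    (hW1 : 1 ≤ W) (hWz : W ^ z ≤ 2 * N ^ m) (hs : s ≠ 0) (ht : t ≠ 0)
    (S : Finset (ℤ × ℤ)) (hS : ∀ v ∈ S, Pt N W z p q s t v)
    (hSA : ∀ v ∈ S, A.evalEval v.1 v.2 = 0) : S.card ≤ X₁ * Z ^ 31 := by
  rcases S.eq_empty_or_nonempty with h | ⟨v, hv⟩
  · rw [h, card_empty]; exact Nat.zero_le _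
  obtain ⟨h1, h2⟩ := horizontal hA ha (hSA v hv)
  have hv0 : v.2 ≠ 0 := by
    have := (hS v hv).2.2.1
    omega
  have hNP : NoPow A (GF p q s t) z (5 * b) := by
    have h3 := noPow_assoc h2 h1 (noPow_line (p := p) (q := q) (z := z) hp hs ht hv0)
    exact fun U D n hn hnI => h3 U D n hn (by omega)
  exact basic_b hbez hhgt P hA hd hdZ (by omega) hz hzZ hpZ hqZ hm hmZ hW1 hWz hNP S hS hSA

/-- one curve -/
theorem one_curve (hbez : Bez) (hhgt : Hgt) {N b Z X₀ X₁ C₁ : ℕ} {𝒬 : Finset ℕ}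
    (P : Par N b Z X₀ X₁ 𝒬) (hspa : SpaAt (5 * b) C₁) (hspe : SpeAt (5 * b) N X₁)
    {A : ℤ[X][Y]} {W z p q : ℕ} {s t : ℤ} (hA : Irreducible A)
    (hd : 1 ≤ A.natDegree) (hdZ : A.natDegree ≤ Z ^ 3) (haZ : dX A ≤ Z ^ 3)
    (hz : 5 * b ≤ z) (hzC : C₁ * (5 * b) < z) (hzZ : z ≤ Z) (hp : 1 ≤ p) (hq : 1 ≤ q) (hpZ : p ≤ Z)
    (hqZ : q ≤ Z) (hpq : C₁ ≤ p ∨ C₁ ≤ q) (hW1 : 1 ≤ W) (hWz : W ^ z ≤ 2 * N ^ (max p q))
    (hs : s = 1 ∨ s = -1) (ht : t = 1 ∨ t = -1)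
    (S : Finset (ℤ × ℤ)) (hS : ∀ v ∈ S, Pt N W z p q s t v)
    (hSA : ∀ v ∈ S, A.evalEval v.1 v.2 = 0) : S.card ≤ X₁ * Z ^ 31 := by
  have hZ := P.Z32
  have hb5 := P.b5
  have hb1 := P.b1
  have hN2 := P.N2
  have hs2 : s * s = 1 := by rcases hs with rfl | rfl <;> norm_num
  have hs0 : s ≠ 0 := by rcases hs with rfl | rfl <;> norm_num
  have ht0 : t ≠ 0 := by rcases ht with rfl | rfl <;> norm_num
  have hts : t * s = 1 ∨ t * s = -1 := by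
    rcases hs with rfl | rfl <;> rcases ht with rfl | rfl <;> norm_num
  have hm : 1 ≤ max p q := le_max_of_le_left hp
  have hmZ : max p q ≤ Z := max_le hpZ hqZ
  have hW : W ≤ N ^ (Z + 1) := by
    calc W ≤ W ^ z := Nat.le_self_pow (by omega) W
      _ ≤ 2 * N ^ (max p q) := hWz
      _ ≤ N * N ^ Z := Nat.mul_le_mul hN2 (Nat.pow_le_pow_right (by omega) hmZ)
      _ = N ^ (Z + 1) := by ring
  -- the swapped data
  set A' := Bivariate.swap A with hA'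
  have hAirr : Irreducible A' := (MulEquiv.irreducible_iff (Bivariate.swap (R := ℤ))).mpr hA
  have hd' : A'.natDegree = dX A := rfl
  have ha' : dX A' = A.natDegree := Pool.Agent.N767.LD.dX_swap A
  set S' := S.map (Equiv.prodComm ℤ ℤ).toEmbedding with hS'
  have hSS : S'.card = S.card := swap_card S
  have hPt' : ∀ v ∈ S', Pt N W z q p s (t * s) v := by
    intro v hv
    rw [hS', mem_map] at hv
    obtain ⟨u, hu, rfl⟩ := hv
    exact (hS u hu).swap hs2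
  have hSA' : ∀ v ∈ S', A'.evalEval v.1 v.2 = 0 := by
    intro v hv
    rw [hS', mem_map] at hv
    obtain ⟨u, hu, rfl⟩ := hv
    have := hSA u hu
    rw [← evalEval_swap'] at this
    exact this
  by_cases c0 : dX A = 0
  · by_cases c1 : 5 * b ≤ A.natDegree
    · exact basic_a hbez hhgt P hA c1 hdZ haZ (by omega) hzZ hpZ hqZ hW1 hW S hS hSA
    · exact line_bound hbez hhgt P hA hd (by omega) c0 hz hzZ hp hpZ hqZ hm hmZ hW1 hWz hs0 ht0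
        S hS hSA
  by_cases c1 : 5 * b ≤ A.natDegree
  · exact basic_a hbez hhgt P hA c1 hdZ haZ (by omega) hzZ hpZ hqZ hW1 hW S hS hSA
  by_cases c2 : 5 * b ≤ dX A
  · rw [← hSS]
    exact basic_a hbez hhgt P hAirr (by rw [hd']; exact c2) (by rw [hd']; exact haZ)
      (by rw [ha']; exact hdZ) (by omega) hzZ hqZ hpZ hW1 hW S' hPt' hSA'
  by_cases c3 : Col A
  · have h1 := special_bound hspe hA hd (by omega) (by omega) (by omega) c3 S hS hSA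
    exact h1.trans (Nat.le_mul_of_pos_right _ (Nat.pow_pos (by omega)))
  rcases hpq with hpq | hpq
  · rw [← hSS]
    apply basic_b hbez hhgt P hAirr (by rw [hd']; omega) (by rw [hd']; omega)
      (by rw [ha']; exact hdZ) hz hzZ hqZ hpZ hm hmZ hW1 hWz _ S' hPt' hSA'
    exact noPow_of_spa hspa hAirr (by rw [hd']; omega) (by rw [hd']; omega) (by rw [ha']; omega)
      (fun h => c3 (col_swap h)) hq hpq hs hts hzC
  · apply basic_b hbez hhgt P hA hd (by omega) haZ hz hzZ hpZ hqZ hm hmZ hW1 hWz _ S hS hSA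
    exact noPow_of_spa hspa hA hd (by omega) (by omega) c3 hp hpq hs ht hzC

/-- vertical lines -/
theorem vert_bound (hbez : Bez) (hhgt : Hgt) {N b Z X₀ X₁ : ℕ} {𝒬 : Finset ℕ}
    (P : Par N b Z X₀ X₁ 𝒬) {W z p q : ℕ} {s t : ℤ}
    (hz : 5 * b ≤ z) (hzZ : z ≤ Z) (hp : 1 ≤ p) (hq : 1 ≤ q) (hpZ : p ≤ Z)
    (hqZ : q ≤ Z) (hW1 : 1 ≤ W) (hWz : W ^ z ≤ 2 * N ^ (max p q))
    (hs : s = 1 ∨ s = -1) (ht : t = 1 ∨ t = -1) (c : ℤ)
    (S : Finset (ℤ × ℤ)) (hS : ∀ v ∈ S, Pt N W z p q s t v)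
    (hSA : ∀ v ∈ S, v.1 = c) : S.card ≤ X₁ * Z ^ 31 := by
  have hZ := P.Z32
  have hs2 : s * s = 1 := by rcases hs with rfl | rfl <;> norm_num
  have hs0 : s ≠ 0 := by rcases hs with rfl | rfl <;> norm_num
  have ht0 : t ≠ 0 := by rcases ht with rfl | rfl <;> norm_num
  have hm : 1 ≤ max p q := le_max_of_le_left hp
  have hmZ : max p q ≤ Z := max_le hpZ hqZ
  set S' := S.map (Equiv.prodComm ℤ ℤ).toEmbedding with hS'
  have hSS : S'.card = S.card := swap_card S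
  have hPt' : ∀ v ∈ S', Pt N W z q p s (t * s) v := by
    intro v hv
    rw [hS', mem_map] at hv
    obtain ⟨u, hu, rfl⟩ := hv
    exact (hS u hu).swap hs2
  rw [← hSS]
  apply line_bound hbez hhgt P (A := Y - C (C c)) (irreducible_X_sub_C _) (by
    rw [natDegree_X_sub_C]) (by rw [natDegree_X_sub_C]; omega) ?_ hz hzZ hq hqZ hpZ hm hmZ hW1 hWz
    hs0 (mul_ne_zero ht0 hs0) S' hPt'
  · intro v hv
    rw [hS', mem_map] at hv
    obtain ⟨u, hu, rfl⟩ := hv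
    have := hSA u hu
    rw [evalEval_sub, evalEval_X, evalEval_C, eval_C]
    change u.1 - c = 0
    omega
  · unfold dX
    rw [map_sub, Bivariate.swap_Y, Bivariate.swap_C_C, ← C_sub, natDegree_C]

/-- **the count for fixed exponents** -/
theorem fixed_count (hbez : Bez) (hhgt : Hgt) {N b Z X₀ X₁ C₁ : ℕ} {𝒬 : Finset ℕ}
    (P : Par N b Z X₀ X₁ 𝒬) (hspa : SpaAt (5 * b) C₁) (hspe : SpeAt (5 * b) N X₁)
    {W z p q : ℕ} {s t : ℤ} (hz : 32 * b ^ 2 ≤ z) (hzC : C₁ * (5 * b) < z) (hzZ : z ≤ Z) (hp : 1 ≤ p)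
    (hq : 1 ≤ q) (hpZ : p ≤ Z) (hqZ : q ≤ Z) (hpq : C₁ ≤ p ∨ C₁ ≤ q) (hW1 : 1 ≤ W)
    (hWz : W ^ z ≤ 2 * N ^ (max p q)) (hs : s = 1 ∨ s = -1) (ht : t = 1 ∨ t = -1)
    (S : Finset (ℤ × ℤ)) (hS : ∀ v ∈ S, Pt N W z p q s t v) : S.card ≤ X₁ ^ 3 * Z ^ 51 := by
  have hZ := P.Z32
  have hb1 := P.b1
  have hN2 := P.N2
  have hs0 : s ≠ 0 := by rcases hs with rfl | rfl <;> norm_num
  have ht0 : t ≠ 0 := by rcases ht with rfl | rfl <;> norm_num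
  have hz5 : 5 * b ≤ z := by nlinarith
  obtain ⟨m, hm⟩ : ∃ m, m = max p q := ⟨_, rfl⟩
  have hm1 : 1 ≤ m := by rw [hm]; exact le_max_of_le_left hp
  have hmZ : m ≤ Z := by rw [hm]; exact max_le hpZ hqZ
  have hX0 : 1 ≤ X₀ := by have := P.ZX; omega
  have hWz' := hWz
  rw [← hm] at hWz'
  have hW : W ≤ N ^ (Z + 1) := by
    calc W ≤ W ^ z := Nat.le_self_pow (by omega) W
      _ ≤ 2 * N ^ m := hWz'
      _ ≤ N * N ^ Z := Nat.mul_le_mul hN2 (Nat.pow_le_pow_right (by omega) hmZ)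
      _ = N ^ (Z + 1) := by ring
  have hZZ : z * (m - 1) + 32 * b ^ 2 * max p q ≤ Z ^ 3 := by
    rw [← hm]
    calc z * (m - 1) + 32 * b ^ 2 * m ≤ Z * Z + Z * Z := by
          apply Nat.add_le_add (Nat.mul_le_mul hzZ (by omega)) (Nat.mul_le_mul P.bZ hmZ)
      _ = 2 * Z ^ 2 := by ring
      _ ≤ Z * Z ^ 2 := Nat.mul_le_mul_right _ (by omega)
      _ = Z ^ 3 := by ring
  have hM : W < X₀ ^ 𝒬.card := by
    rw [P.card]
    calc W ≤ N ^ (Z + 1) := hW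
      _ < N ^ (Z ^ 13) := by
        apply Nat.pow_lt_pow_right (by omega)
        calc Z + 1 < Z * Z := by nlinarith
          _ = Z ^ 2 := by ring
          _ ≤ Z ^ 13 := Nat.pow_le_pow_right (by omega) (by norm_num)
      _ ≤ (X₀ ^ b) ^ (Z ^ 13) := Nat.pow_le_pow_left P.NX _
      _ ≤ X₀ ^ Z ^ 14 := by
        rw [← pow_mul]
        apply Nat.pow_le_pow_right hX0
        calc b * Z ^ 13 ≤ Z * Z ^ 13 := Nat.mul_le_mul_right _ (by have := P.b5; omega)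
          _ = Z ^ 14 := by ring
  have hmain := plane_count (z := z) (I := 32 * b ^ 2) (k := m) (T := 4 * b * m) (N := N) (W := W)
    (p := p) (q := q) (B := 2 * Z ^ 3 * (X₁ * Z ^ 31)) (X₀ := X₀) (X₁ := X₁) (s := s) (t := t)
    (by omega) (by nlinarith) hz hm1 (by omega) hW1 hq hs0 ht0 (le_of_eq (by ring)) P.pr
    (by have := P.ZX; omega) hM ?_ S (fun v hv => by
      obtain ⟨h1, h2, h3, h4, h5, h6⟩ := hS v hv
      exact ⟨by rw [abs_of_pos (by omega)]; exact h2, by rw [abs_of_pos (by omega)]; exact h4, h6⟩)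
    ?_
  · refine hmain.trans ?_
    rw [P.card]
    calc Z ^ 14 * (X₁ * (X₁ * (z * (2 * Z ^ 3 * (X₁ * Z ^ 31)))))
        ≤ Z ^ 14 * (X₁ * (X₁ * (Z * (Z * Z ^ 3 * (X₁ * Z ^ 31))))) := by
          gcongr
          omega
      _ = X₁ ^ 3 * Z ^ 50 := by ring
      _ ≤ X₁ ^ 3 * Z ^ 51 := Nat.mul_le_mul_left _ (Nat.pow_le_pow_right (by omega) (by norm_num))
  · have h4 : 2 * (32 * b ^ 2 * (m * m)) ^ 2 < N := by
      refine lt_of_le_of_lt ?_ (P.lt (i := 7) (by norm_num))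
      calc 2 * (32 * b ^ 2 * (m * m)) ^ 2 ≤ 2 * (Z * (Z * Z)) ^ 2 := by
            gcongr
            exact P.bZ
        _ ≤ Z * (Z * (Z * Z)) ^ 2 := Nat.mul_le_mul_right _ (by omega)
        _ = Z ^ 7 := by ring
    have h5 : W ^ (32 * b ^ 2 - 1) ≤ 2 * N ^ m := (Nat.pow_le_pow_right hW1 (by omega)).trans hWz'
    obtain ⟨f, hf⟩ := Nat.exists_eq_add_of_le' hm1
    calc W ^ (32 * b ^ 2 - 1) * (N ^ (m - 1) * N ^ (m - 1)) * (32 * b ^ 2 * (m * m)) ^ 2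
        ≤ 2 * N ^ m * (N ^ (m - 1) * N ^ (m - 1)) * (32 * b ^ 2 * (m * m)) ^ 2 := by
          gcongr
      _ = N ^ m * (N ^ (m - 1) * N ^ (m - 1)) * (2 * (32 * b ^ 2 * (m * m)) ^ 2) := by ring
      _ < N ^ m * (N ^ (m - 1) * N ^ (m - 1)) * N := Nat.mul_lt_mul_of_pos_left h4 (by positivity)
      _ = N ^ (3 * f + 2) := by
        rw [hf, Nat.add_sub_cancel]
        ring
      _ ≤ N ^ (4 * m) := Nat.pow_le_pow_right (by omega) (by omega)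
      _ ≤ (X₀ ^ b) ^ (4 * m) := Nat.pow_le_pow_left P.NX _
      _ = X₀ ^ (4 * b * m) := by rw [← pow_mul]; congr 1; ring
  · intro R hR0 hR1 hR2 S' hS' hSR
    have e1 : 32 * b ^ 2 * q ≤ 32 * b ^ 2 * max p q := Nat.mul_le_mul_left _ (le_max_right _ _)
    have e2 : 32 * b ^ 2 * p ≤ 32 * b ^ 2 * max p q := Nat.mul_le_mul_left _ (le_max_left _ _)
    apply decomp hR0 (D := Z ^ 3) (b := X₁ * Z ^ 31) (by omega) (by omega) S' hSR
    · intro A hA h1 h2 h3 S'' hS'' hSA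
      exact one_curve hbez hhgt P hspa hspe hA h1 h2 h3 hz5 hzC hzZ hp hq hpZ hqZ hpq hW1 hWz hs ht
        S'' (fun v hv => hS v (hS' (hS'' hv))) hSA
    · intro c S'' hS'' hSc
      exact vert_bound hbez hhgt P hz5 hzZ hp hq hpZ hqZ hW1 hWz hs ht c S''
        (fun v hv => hS v (hS' (hS'' hv))) hSc

end Pool.Agent.N741.LD
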