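import Mathlib
import Pool.Agent.N741.LD.One
import Pool.Agent.N741.PB.Par

/-!
The choice of the parameters.
-/

set_option autoImplicit false

namespace Pool.Agent.N741.LD

open Finset Filter Topology
open Pool.Agent.N741.PB (ev_rpow pi_rpow primes_in)

theorem params (b C κ R : ℕ) (hb : 1 ≤ b) : ∃ c : ℝ, 0 < c ∧ ∃ N₀ : ℕ, ∀ N : ℕ, N₀ ≤ N →
    ∃ (S Z X₀ X₁ : ℕ) (𝒬 : Finset ℕ), Par N b Z X₀ X₁ 𝒬 ∧ 2 ≤ S ∧ N ≤ 2 ^ S ∧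
      Real.exp ((N : ℝ) ^ c) ≤ ((2 ^ S : ℕ) : ℝ) ∧ C * S ^ κ + 2 * R + 1 ≤ Z ∧
      (N : ℝ) ^ (1 / (b : ℝ)) ≤ X₁ ∧
      (((Z + 1) ^ 3 * 4 * (X₁ ^ 3 * Z ^ 51) : ℕ) : ℝ) ≤ (N : ℝ) ^ (7 / (b : ℝ)) := by
  have hb1 : (1 : ℝ) ≤ b := by exact_mod_cast hb
  have hb0 : (0 : ℝ) < b := by linarith
  obtain ⟨e, he⟩ : ∃ e : ℝ, e = 1 / (b : ℝ) := ⟨_, rfl⟩
  have he0 : 0 < e := by rw [he]; positivity
  have he1 : e ≤ 1 := by rw [he, div_le_one hb0]; exact hb1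
  have heb : e * b = 1 := by rw [he]; field_simp
  have hκ : (0 : ℝ) < (κ : ℝ) + 1 := by positivity
  obtain ⟨c, hc⟩ : ∃ c : ℝ, c = e / (4000 * (κ + 1)) := ⟨_, rfl⟩
  have hc0 : 0 < c := by rw [hc]; positivity
  have hcκ : c * (κ + 1) = e / 4000 := by rw [hc]; field_simp
  have hce : c ≤ e / 4000 := by
    rw [← hcκ]
    have : (0 : ℝ) ≤ κ := Nat.cast_nonneg κ
    nlinarith
  refine ⟨c, hc0, ?_⟩
  obtain ⟨K₀, hK₀⟩ : ∃ K₀ : ℝ, K₀ = ((C : ℝ) + 2 * R + 2 + 32 * b ^ 2) * 2 ^ (κ + 1) := ⟨_, rfl⟩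
  obtain ⟨L₁, hL₁⟩ := ev_rpow hc0 2
  obtain ⟨L₂, hL₂⟩ := ev_rpow (show 0 < e / 2000 by positivity) K₀
  obtain ⟨L₃, hL₃⟩ := ev_rpow (show 0 < e / 1000 by positivity) 2
  obtain ⟨L₄, hL₄⟩ := ev_rpow (show 0 < e / 4 by positivity) 3
  obtain ⟨L₅, hL₅⟩ := ev_rpow (show 0 < e / 2 by positivity) (256 : ℝ)
  obtain ⟨L, hL⟩ := pi_rpow (e / 8) (by positivity)
  obtain ⟨L₆, hL₆⟩ := ev_rpow (show 0 < 2 * e by positivity) (L : ℝ)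
  obtain ⟨L₇, hL₇⟩ := ev_rpow (show 0 < c / 2 by positivity) (1 / (c / 2))
  refine ⟨L₁ + L₂ + L₃ + L₄ + L₅ + L₆ + L₇ + 2, fun N hN => ?_⟩
  have h1 := hL₁ N (by omega)
  have h2 := hL₂ N (by omega)
  have h3 := hL₃ N (by omega)
  have h4 := hL₄ N (by omega)
  have h5 := hL₅ N (by omega)
  have h6 := hL₆ N (by omega)
  have h7 := hL₇ N (by omega)
  have hNpos : (0 : ℝ) < N := by
    have : 0 < N := by omega
    exact_mod_cast this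
  have hN1 : (1 : ℝ) ≤ N := by
    have : 1 ≤ N := by omega
    exact_mod_cast this
  have hmono : ∀ {x y : ℝ}, x ≤ y → (N : ℝ) ^ x ≤ (N : ℝ) ^ y := fun h =>
    Real.rpow_le_rpow_of_exponent_le hN1 h
  have hadd : ∀ x y : ℝ, (N : ℝ) ^ (x + y) = (N : ℝ) ^ x * (N : ℝ) ^ y := fun x y =>
    Real.rpow_add hNpos x y
  have hone : ∀ {x : ℝ}, 0 ≤ x → 1 ≤ (N : ℝ) ^ x := fun h => Real.one_le_rpow hN1 h
  -- the parameter `S`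
  obtain ⟨S, hS⟩ : ∃ S, S = ⌈(N : ℝ) ^ (2 * c)⌉₊ := ⟨_, rfl⟩
  have hle : (N : ℝ) ^ (2 * c) ≤ (S : ℝ) := by rw [hS]; exact Nat.le_ceil _
  have hge1 : 1 ≤ (N : ℝ) ^ (2 * c) := hone (by positivity)
  have hlt : (S : ℝ) < (N : ℝ) ^ (2 * c) + 1 := by rw [hS]; exact Nat.ceil_lt_add_one (by linarith)
  have e1 : (N : ℝ) ^ (2 * c) = (N : ℝ) ^ c * (N : ℝ) ^ c := by
    rw [← hadd]; congr 1; ring
  have e2 : 2 * (N : ℝ) ^ c ≤ S := by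
    have : 2 * (N : ℝ) ^ c ≤ (N : ℝ) ^ c * (N : ℝ) ^ c :=
      mul_le_mul_of_nonneg_right h1 (by linarith)
    linarith
  have hS2 : 2 ≤ S := by
    have : (2 : ℝ) ≤ S := by linarith
    exact_mod_cast this
  have e3 : (N : ℝ) ^ c ≤ S * Real.log 2 := by
    have := Real.log_two_gt_d9
    have hS0 : (0 : ℝ) ≤ S := Nat.cast_nonneg _
    have : (S : ℝ) * (1 / 2) ≤ S * Real.log 2 := mul_le_mul_of_nonneg_left (by linarith) hS0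
    linarith
  have hW : Real.exp ((N : ℝ) ^ c) ≤ ((2 ^ S : ℕ) : ℝ) := by
    calc Real.exp ((N : ℝ) ^ c) ≤ Real.exp (S * Real.log 2) := Real.exp_le_exp.mpr e3
      _ = (2 : ℝ) ^ S := by
        rw [mul_comm, Real.exp_mul, Real.exp_log (by norm_num), Real.rpow_natCast]
      _ = _ := by push_cast; rfl
  have hNS : N ≤ 2 ^ S := by
    have g1 : Real.log N ≤ (N : ℝ) ^ (c / 2) / (c / 2) :=
      Real.log_le_rpow_div hNpos.le (by positivity)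
    have g2 : (N : ℝ) ^ (c / 2) / (c / 2) ≤ (N : ℝ) ^ c := by
      rw [div_eq_mul_one_div]
      calc (N : ℝ) ^ (c / 2) * (1 / (c / 2)) ≤ (N : ℝ) ^ (c / 2) * (N : ℝ) ^ (c / 2) := by gcongr
        _ = (N : ℝ) ^ c := by rw [← hadd]; congr 1; ring
    have g3 : (N : ℝ) ≤ ((2 ^ S : ℕ) : ℝ) := by
      calc (N : ℝ) = Real.exp (Real.log N) := (Real.exp_log hNpos).symm
        _ ≤ Real.exp ((N : ℝ) ^ c) := Real.exp_le_exp.mpr (g1.trans g2)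
        _ ≤ _ := hW
    exact_mod_cast g3
  -- the parameter `Z`
  obtain ⟨Z, hZ⟩ : ∃ Z, Z = ⌈(N : ℝ) ^ (e / 1000)⌉₊ := ⟨_, rfl⟩
  have hZge : (N : ℝ) ^ (e / 1000) ≤ (Z : ℝ) := by rw [hZ]; exact Nat.le_ceil _
  have hZ1 : 1 ≤ (N : ℝ) ^ (e / 1000) := hone (by positivity)
  have hZlt : (Z : ℝ) < (N : ℝ) ^ (e / 1000) + 1 := by
    rw [hZ]; exact Nat.ceil_lt_add_one (by linarith)
  have hZ500 : (Z : ℝ) < (N : ℝ) ^ (e / 500) := by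
    calc (Z : ℝ) < (N : ℝ) ^ (e / 1000) + 1 := hZlt
      _ ≤ (N : ℝ) ^ (e / 1000) * 2 := by linarith
      _ ≤ (N : ℝ) ^ (e / 1000) * (N : ℝ) ^ (e / 1000) := by gcongr
      _ = (N : ℝ) ^ (e / 500) := by rw [← hadd]; congr 1; ring
  have hZpos : (0 : ℝ) ≤ Z := Nat.cast_nonneg _
  have hZpow : ∀ i : ℕ, (Z : ℝ) ^ i ≤ (N : ℝ) ^ ((e / 500) * i) := by
    intro i
    calc (Z : ℝ) ^ i ≤ ((N : ℝ) ^ (e / 500)) ^ i := pow_le_pow_left₀ hZpos hZ500.le i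
      _ = _ := by rw [← Real.rpow_natCast ((N : ℝ) ^ (e / 500)), ← Real.rpow_mul hNpos.le]
  have e4 : (S : ℝ) ≤ 2 * (N : ℝ) ^ (2 * c) := by linarith
  have e5 : (S : ℝ) ^ (κ + 1) ≤ 2 ^ (κ + 1) * (N : ℝ) ^ (e / 2000) := by
    calc (S : ℝ) ^ (κ + 1) ≤ (2 * (N : ℝ) ^ (2 * c)) ^ (κ + 1) :=
          pow_le_pow_left₀ (Nat.cast_nonneg _) e4 _
      _ = 2 ^ (κ + 1) * (N : ℝ) ^ (e / 2000) := by
        rw [mul_pow, ← Real.rpow_natCast ((N : ℝ) ^ (2 * c)), ← Real.rpow_mul hNpos.le]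
        congr 2
        push_cast
        linear_combination 2 * hcκ
  have e6 : ((C : ℝ) + 2 * R + 2 + 32 * b ^ 2) * (S : ℝ) ^ (κ + 1) ≤ Z := by
    calc ((C : ℝ) + 2 * R + 2 + 32 * b ^ 2) * (S : ℝ) ^ (κ + 1)
        ≤ ((C : ℝ) + 2 * R + 2 + 32 * b ^ 2) * (2 ^ (κ + 1) * (N : ℝ) ^ (e / 2000)) := by gcongr
      _ = K₀ * (N : ℝ) ^ (e / 2000) := by rw [hK₀]; ring
      _ ≤ (N : ℝ) ^ (e / 2000) * (N : ℝ) ^ (e / 2000) := by gcongr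
      _ = (N : ℝ) ^ (e / 1000) := by rw [← hadd]; congr 1; ring
      _ ≤ Z := hZge
  have hS1R : (1 : ℝ) ≤ S := by
    have : 1 ≤ S := by omega
    exact_mod_cast this
  have hSκ : (S : ℝ) ^ κ ≤ (S : ℝ) ^ (κ + 1) := pow_le_pow_right₀ hS1R (by omega)
  have hSκ1 : (1 : ℝ) ≤ (S : ℝ) ^ (κ + 1) := one_le_pow₀ hS1R
  have hC0 : (0 : ℝ) ≤ C := Nat.cast_nonneg _
  have hR0 : (0 : ℝ) ≤ R := Nat.cast_nonneg _
  obtain ⟨q, hq⟩ : ∃ q : ℝ, q = (S : ℝ) ^ (κ + 1) := ⟨_, rfl⟩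
  rw [← hq] at e6 hSκ hSκ1
  have hexpand : ((C : ℝ) + 2 * R + 2 + 32 * b ^ 2) * q = C * q + 2 * R * q + 2 * q + 32 * b ^ 2 * q := by
    ring
  have a1 : (C : ℝ) * (S : ℝ) ^ κ ≤ C * q := mul_le_mul_of_nonneg_left hSκ hC0
  have a3 : 2 * (R : ℝ) ≤ 2 * R * q := le_mul_of_one_le_right (by positivity) hSκ1
  have a4 : 32 * (b : ℝ) ^ 2 ≤ 32 * (b : ℝ) ^ 2 * q := le_mul_of_one_le_right (by positivity) hSκ1
  have a5 : 0 ≤ (C : ℝ) * q := by positivity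
  have a6 : 0 ≤ 2 * (R : ℝ) * q := by positivity
  have a7 : 0 ≤ 32 * (b : ℝ) ^ 2 * q := by positivity
  have hCS : C * S ^ κ + 2 * R + 1 ≤ Z := by
    have : ((C * S ^ κ + 2 * R + 1 : ℕ) : ℝ) ≤ Z := by
      refine le_trans ?_ e6
      push_cast
      linarith
    exact_mod_cast this
  have hbZ : 32 * b ^ 2 ≤ Z := by
    have : ((32 * b ^ 2 : ℕ) : ℝ) ≤ Z := by
      refine le_trans ?_ e6
      push_cast
      linarith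
    exact_mod_cast this
  -- the primes
  obtain ⟨X₀, hX₀⟩ : ∃ X₀, X₀ = ⌈(N : ℝ) ^ e⌉₊ := ⟨_, rfl⟩
  obtain ⟨X₁, hX₁⟩ : ∃ X₁, X₁ = ⌈(N : ℝ) ^ (2 * e)⌉₊ := ⟨_, rfl⟩
  have hX₀ge : (N : ℝ) ^ e ≤ X₀ := by rw [hX₀]; exact Nat.le_ceil _
  have hX₀lt : (X₀ : ℝ) < (N : ℝ) ^ e + 1 := by
    rw [hX₀]; exact Nat.ceil_lt_add_one (by positivity)
  have hX₁ge : (N : ℝ) ^ (2 * e) ≤ X₁ := by rw [hX₁]; exact Nat.le_ceil _
  have hX₁lt : (X₁ : ℝ) < (N : ℝ) ^ (2 * e) + 1 := by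
    rw [hX₁]; exact Nat.ceil_lt_add_one (by positivity)
  have hNe1 : 1 ≤ (N : ℝ) ^ e := hone he0.le
  have hN2e1 : 1 ≤ (N : ℝ) ^ (2 * e) := hone (by positivity)
  have hZN : Z ^ 20 ≤ N := by
    have : ((Z ^ 20 : ℕ) : ℝ) ≤ N := by
      push_cast
      calc (Z : ℝ) ^ 20 ≤ (N : ℝ) ^ ((e / 500) * (20 : ℕ)) := hZpow 20
        _ ≤ (N : ℝ) ^ (1 : ℝ) := hmono (by push_cast; linarith)
        _ = N := Real.rpow_one _
    exact_mod_cast this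
  have hZX : Z < X₀ := by
    have : (Z : ℝ) < X₀ := by
      calc (Z : ℝ) < (N : ℝ) ^ (e / 500) := hZ500
        _ ≤ (N : ℝ) ^ e := hmono (by linarith)
        _ ≤ X₀ := hX₀ge
    exact_mod_cast this
  have hNX : N ≤ X₀ ^ b := by
    have : (N : ℝ) ≤ ((X₀ ^ b : ℕ) : ℝ) := by
      push_cast
      calc (N : ℝ) = ((N : ℝ) ^ e) ^ b := by
            rw [← Real.rpow_natCast ((N : ℝ) ^ e), ← Real.rpow_mul hNpos.le, heb, Real.rpow_one]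
        _ ≤ (X₀ : ℝ) ^ b := pow_le_pow_left₀ (by positivity) hX₀ge b
    exact_mod_cast this
  have hX01 : X₀ ≤ X₁ := by
    rw [hX₀, hX₁]
    exact Nat.ceil_mono (hmono (by linarith))
  have hLX : L ≤ X₁ := by
    have : (L : ℝ) ≤ X₁ := h6.trans hX₁ge
    exact_mod_cast this
  have hpi := hL X₁ hLX
  have hcount : X₀ + Z ^ 14 ≤ Nat.primeCounting X₁ := by
    have : ((X₀ + Z ^ 14 : ℕ) : ℝ) ≤ (Nat.primeCounting X₁ : ℝ) := by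
      refine le_trans ?_ hpi
      have g1 : (N : ℝ) ^ (7 * e / 4) ≤ (X₁ : ℝ) ^ (1 - e / 8) := by
        calc (N : ℝ) ^ (7 * e / 4) ≤ ((N : ℝ) ^ (2 * e)) ^ (1 - e / 8) := by
              rw [← Real.rpow_mul hNpos.le]
              apply hmono
              nlinarith
          _ ≤ _ := Real.rpow_le_rpow (by positivity) hX₁ge (by linarith)
      refine le_trans ?_ g1
      have g2 : (Z : ℝ) ^ 14 ≤ (N : ℝ) ^ e := (hZpow 14).trans (hmono (by push_cast; linarith))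
      push_cast
      calc (X₀ : ℝ) + (Z : ℝ) ^ 14 ≤ ((N : ℝ) ^ e + 1) + (N : ℝ) ^ e := by linarith
        _ ≤ 3 * (N : ℝ) ^ e := by linarith
        _ ≤ (N : ℝ) ^ (e / 4) * (N : ℝ) ^ e := by gcongr
        _ = (N : ℝ) ^ (e / 4 + e) := by rw [← hadd]
        _ ≤ _ := hmono (by linarith)
    exact_mod_cast this
  obtain ⟨𝒬, h𝒬c, h𝒬⟩ := primes_in hcount
  refine ⟨S, Z, X₀, X₁, 𝒬, ⟨hb, hbZ, hZN, hZX, hNX, hX01, h𝒬c, h𝒬⟩, hS2, hNS, hW, hCS, ?_, ?_⟩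
  · rw [← he]
    exact hX₀ge.trans (by exact_mod_cast hX01)
  · have hZge1 : (1 : ℝ) ≤ Z := hZ1.trans hZge
    have hX₁2 : (X₁ : ℝ) ≤ 2 * (N : ℝ) ^ (2 * e) := by linarith
    push_cast
    calc ((Z : ℝ) + 1) ^ 3 * 4 * ((X₁ : ℝ) ^ 3 * (Z : ℝ) ^ 51)
        ≤ (2 * (Z : ℝ)) ^ 3 * 4 * ((2 * (N : ℝ) ^ (2 * e)) ^ 3 * (Z : ℝ) ^ 51) := by
          gcongr
          linarith
      _ = 256 * ((N : ℝ) ^ (2 * e)) ^ 3 * (Z : ℝ) ^ 54 := by ring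
      _ ≤ (N : ℝ) ^ (e / 2) * (N : ℝ) ^ (6 * e) * (N : ℝ) ^ ((e / 500) * (54 : ℕ)) := by
          have g1 : ((N : ℝ) ^ (2 * e)) ^ 3 = (N : ℝ) ^ (6 * e) := by
            rw [← Real.rpow_natCast ((N : ℝ) ^ (2 * e)), ← Real.rpow_mul hNpos.le]
            congr 1; push_cast; ring
          rw [g1]
          have g2 := hZpow 54
          gcongr
      _ = (N : ℝ) ^ (e / 2 + 6 * e + (e / 500) * (54 : ℕ)) := by rw [← hadd, ← hadd]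
      _ ≤ _ := by
        apply hmono
        rw [show 7 / (b : ℝ) = 7 * e by rw [he]; ring]
        push_cast
        linarith

end Pool.Agent.N741.LD
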