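import Mathlib
import Pool.Agent.Y902.FB.Main

/-!
Pairs of bases with small exponents.
-/

set_option autoImplicit false

namespace Pool.Agent.N741.LD

/-- the equation, the term `z ^ r` being in any position -/
def Eq3 (x y z p q r : ℕ) : Prop := x ^ p + y ^ q = z ^ r ∨ x ^ p + z ^ r = y ^ q ∨ y ^ q + z ^ r = x ^ p

theorem cop_sum {A B C : ℕ} (h : A + B = C) : (Nat.Coprime A B ↔ Nat.Coprime A C) := by
  subst h
  simp

theorem cop_pow {x y p q : ℕ} (hp : 1 ≤ p) (hq : 1 ≤ q) :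
    Nat.Coprime (x ^ p) (y ^ q) ↔ Nat.Coprime x y := by
  rw [Nat.coprime_pow_left_iff (by omega), Nat.coprime_pow_right_iff (by omega)]

/-- all bases are pairwise coprime -/
theorem Eq3.cop {x y z p q r : ℕ} (h : Eq3 x y z p q r) (hc : Nat.Coprime x y) (hp : 1 ≤ p)
    (hq : 1 ≤ q) (hr : 1 ≤ r) : Nat.Coprime x z ∧ Nat.Coprime y z := by
  have h0 := (cop_pow hp hq).mpr hc
  rcases h with h | h | h
  · have h1 := (cop_sum h).mp h0
    have h2 := (cop_sum (by rw [add_comm]; exact h : y ^ q + x ^ p = z ^ r)).mp h0.symm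
    exact ⟨(cop_pow hp hr).mp h1, (cop_pow hq hr).mp h2⟩
  · have h1 := (cop_sum h).mpr h0
    have h2 := (cop_sum (by rw [add_comm]; exact h : z ^ r + x ^ p = y ^ q)).mp h1.symm
    exact ⟨(cop_pow hp hr).mp h1, (cop_pow hq hr).mp h2.symm⟩
  · have h1 := (cop_sum h).mpr h0.symm
    have h2 := (cop_sum (by rw [add_comm]; exact h : z ^ r + y ^ q = x ^ p)).mp h1.symm
    exact ⟨(cop_pow hp hr).mp h2.symm, (cop_pow hq hr).mp h1⟩

theorem Eq3.le {x y z p q r : ℕ} (h : Eq3 x y z p q r) : z ^ r ≤ x ^ p + y ^ q := by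
  rcases h with h | h | h <;> omega

/-- the solutions with small exponents -/
def Sm (N R : ℕ) : Set (ℕ × ℕ × ℕ × ℕ × ℕ) := {v | ∃ x y z p q r : ℕ, 1 ≤ x ∧ x ≤ N ∧ 1 ≤ y ∧ y ≤ N ∧
  Nat.Coprime x y ∧ 1 ≤ z ∧ 2 ≤ p ∧ 2 ≤ q ∧ R ≤ r ∧ p < R ∧ q < R ∧ Eq3 x y z p q r ∧
    v = (x, y, x ^ p, y ^ q, z ^ r)}

theorem sm_count {N R R' : ℕ} (hR : 2 ≤ R) (hRR : R' ≤ R)
    (hfin : (Pool.Agent.Y902.FB.Triples (2 * N) R').Finite) :
    (Sm N R).Finite ∧
      (Sm N R).ncard ≤ 3 * (R * R * (Pool.Agent.Y902.FB.Triples (2 * N) R').ncard) := by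
  classical
  set T := Pool.Agent.Y902.FB.Triples (2 * N) R' with hT
  set pr : Fin 3 → (ℕ × ℕ × ℕ) → ℕ × ℕ × ℕ := fun i τ =>
    if i = 0 then (τ.1, τ.2.1, τ.2.2) else if i = 1 then (τ.1, τ.2.2, τ.2.1) else
      (τ.2.2, τ.1, τ.2.1) with hpr
  set A : Fin 3 × ℕ × ℕ → Set (ℕ × ℕ × ℕ × ℕ × ℕ) := fun e =>
    {v | 2 ≤ e.2.1 ∧ 2 ≤ e.2.2 ∧ v.2.2.1 = v.1 ^ e.2.1 ∧ v.2.2.2.1 = v.2.1 ^ e.2.2 ∧
      v.2.2 ∈ (pr e.1) '' T} with hA
  have hAc : ∀ e, (A e).Finite ∧ (A e).ncard ≤ T.ncard := by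
    rintro ⟨i, p, q⟩
    by_cases hpq : 2 ≤ p ∧ 2 ≤ q
    · have hinj : Set.InjOn (fun v : ℕ × ℕ × ℕ × ℕ × ℕ => v.2.2) (A (i, p, q)) := by
        rintro ⟨x, y, a, b, c⟩ ⟨-, -, h1, h2, -⟩ ⟨x', y', a', b', c'⟩ ⟨-, -, h3, h4, -⟩ h
        simp only [Prod.mk.injEq] at h h1 h2 h3 h4
        obtain ⟨rfl, rfl, rfl⟩ := h
        have e1 := Nat.pow_left_injective (by omega : p ≠ 0) (h1.symm.trans h3)
        have e2 := Nat.pow_left_injective (by omega : q ≠ 0) (h2.symm.trans h4)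
        rw [e1, e2]
      have hmaps : ∀ v ∈ A (i, p, q), v.2.2 ∈ (pr i) '' T := fun v hv => hv.2.2.2.2
      have hfin' := hfin.image (pr i)
      exact ⟨Set.Finite.of_injOn hmaps hinj hfin',
        (Set.ncard_le_ncard_of_injOn _ hmaps hinj hfin').trans (Set.ncard_image_le hfin)⟩
    · have : A (i, p, q) = ∅ := by
        ext v
        simp only [hA, Set.mem_ofPred_eq, Set.mem_empty_iff_false, iff_false]
        exact fun h => hpq ⟨h.1, h.2.1⟩
      rw [this]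
      exact ⟨Set.finite_empty, by simp⟩
  have hsub : Sm N R ⊆ ⋃ e ∈ (Finset.univ : Finset (Fin 3)) ×ˢ Finset.range R ×ˢ Finset.range R, A e := by
    rintro v ⟨x, y, z, p, q, r, hx1, hxN, hy1, hyN, hc, hz, hp, hq, hr, hpR, hqR, h, rfl⟩
    obtain ⟨cxz, cyz⟩ := h.cop hc (by omega) (by omega) (by omega)
    have hzN : z ≤ 2 * N := by
      by_contra hcon
      push Not at hcon
      have h1 := h.le
      have hN1 : 1 ≤ N := by omega
      have h2 : x ^ p ≤ N ^ R := (Nat.pow_le_pow_left hxN p).trans (Nat.pow_le_pow_right hN1 hpR.le)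
      have h3 : y ^ q ≤ N ^ R := (Nat.pow_le_pow_left hyN q).trans (Nat.pow_le_pow_right hN1 hqR.le)
      have h4 : (2 * N) ^ R < z ^ r := by
        calc (2 * N) ^ R < z ^ R := Nat.pow_lt_pow_left hcon (by omega)
          _ ≤ z ^ r := Nat.pow_le_pow_right hz hr
      have h5 : 2 * N ^ R ≤ (2 * N) ^ R := by
        rw [mul_pow]
        exact Nat.mul_le_mul_right _ (Nat.le_self_pow (by omega) 2)
      omega
    simp only [Set.mem_iUnion, exists_prop]
    rcases h with h | h | h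
    · refine ⟨(0, p, q), by simp [hpR, hqR], hp, hq, rfl, rfl, (x ^ p, y ^ q, z ^ r), ?_, by simp [hpr]⟩
      exact ⟨x, y, z, p, q, r, by omega, by omega, by omega, by omega, by omega, hzN, hc, cxz, cyz, hp,
        hq, by omega, Or.inr (Or.inr (by omega)), h, rfl⟩
    · refine ⟨(1, p, q), by simp [hpR, hqR], hp, hq, rfl, rfl, (x ^ p, z ^ r, y ^ q), ?_, by simp [hpr]⟩
      exact ⟨x, z, y, p, r, q, by omega, by omega, by omega, by omega, hzN, by omega, cxz, hc, cyz.symm,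
        hp, by omega, hq, Or.inr (Or.inl (by omega)), h, rfl⟩
    · refine ⟨(2, p, q), by simp [hpR, hqR], hp, hq, rfl, rfl, (y ^ q, z ^ r, x ^ p), ?_, by simp [hpr]⟩
      exact ⟨y, z, x, q, r, p, by omega, by omega, by omega, by omega, hzN, by omega, cyz, hc.symm,
        cxz.symm, hq, by omega, hp, Or.inr (Or.inl (by omega)), h, rfl⟩
  have hunion : ∀ I : Finset (Fin 3 × ℕ × ℕ), (⋃ e ∈ I, A e).Finite ∧
      (⋃ e ∈ I, A e).ncard ≤ I.card * T.ncard := by
    intro I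
    induction I using Finset.induction_on with
    | empty => simp
    | insert u I hu ih =>
      rw [Finset.set_biUnion_insert, Finset.card_insert_of_notMem hu]
      refine ⟨(hAc u).1.union ih.1, (Set.ncard_union_le _ _).trans ?_⟩
      have := (hAc u).2
      have := ih.2
      rw [add_mul, one_mul]
      omega
  have h1 := hunion ((Finset.univ : Finset (Fin 3)) ×ˢ Finset.range R ×ˢ Finset.range R)
  refine ⟨h1.1.subset hsub, ?_⟩
  have h2 := Set.ncard_le_ncard hsub h1.1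
  refine h2.trans (h1.2.trans (le_of_eq ?_))
  rw [Finset.card_product, Finset.card_product, Finset.card_range, Finset.card_univ, Fintype.card_fin]
  ring

end Pool.Agent.N741.LD
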