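import Mathlib
import Pool.Agent.N741.LD.Prm
import Pool.Agent.N741.LD.Sml
import Pool.Agent.N741.PB.Expo
import Pool.Agent.N141.LD.Count
import Pool.Agent.N525.LD.Few
import Pool.Agent.N157.LD.Bez
import Pool.Agent.N767.LD.Hgt
import Pool.Agent.N767.LD.Spe

/-!
Pairs of bases of the Fermat-Catalan equation: the main theorem.
-/

set_option autoImplicit false

namespace Pool.Agent.N741.LD

open Finset
open Pool.Agent.N741.PB (ISol exps_int third_exp)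

theorem Eq3.signs {x y z p q r : ℕ} (h : Eq3 x y z p q r) : ∃ s t : ℤ, (s = 1 ∨ s = -1) ∧
    (t = 1 ∨ t = -1) ∧ (x : ℤ) ^ p + s * (y : ℤ) ^ q = t * (z : ℤ) ^ r := by
  rcases h with h | h | h
  · refine ⟨1, 1, Or.inl rfl, Or.inl rfl, ?_⟩
    rw [one_mul, one_mul]; exact_mod_cast h
  · refine ⟨-1, -1, Or.inr rfl, Or.inr rfl, ?_⟩
    have : (x : ℤ) ^ p + (z : ℤ) ^ r = (y : ℤ) ^ q := by exact_mod_cast h
    linarith
  · refine ⟨-1, 1, Or.inr rfl, Or.inl rfl, ?_⟩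
    have : (y : ℤ) ^ q + (z : ℤ) ^ r = (x : ℤ) ^ p := by exact_mod_cast h
    linarith

theorem hyper {p q r : ℕ} (hp : 2 ≤ p) (hq : 2 ≤ q) (hr : 6 ≤ r) (h : 6 ≤ p ∨ 6 ≤ q) :
    q * r + r * p + p * q ≤ p * q * r := by
  obtain ⟨c, rfl⟩ := Nat.exists_eq_add_of_le hr
  rcases h with h | h
  · obtain ⟨a, rfl⟩ := Nat.exists_eq_add_of_le h
    obtain ⟨b, rfl⟩ := Nat.exists_eq_add_of_le hq
    nlinarith [Nat.zero_le (a * b * c), Nat.zero_le (a * b), Nat.zero_le (a * c), Nat.zero_le (b * c)]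
  · obtain ⟨a, rfl⟩ := Nat.exists_eq_add_of_le hp
    obtain ⟨b, rfl⟩ := Nat.exists_eq_add_of_le h
    nlinarith [Nat.zero_le (a * b * c), Nat.zero_le (a * b), Nat.zero_le (a * c), Nat.zero_le (b * c)]

theorem unit_powR {x : ℤ} (hx : x.natAbs = 1) (R l : ℕ) : x ^ (2 * R + l % 2) = x ^ l := by
  have h4 : x = 1 ∨ x = -1 := Int.natAbs_eq_iff.mp hx
  rcases h4 with h4 | h4
  · rw [h4, one_pow, one_pow]
  · rw [h4, pow_add, pow_mul]
    have h5 : l % 2 = 0 ∨ l % 2 = 1 := by omega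
    rcases h5 with h5 | h5
    · have h6 : Even l := Nat.even_iff.mpr h5
      rw [h5, h6.neg_one_pow]; norm_num
    · have h6 : Odd l := Nat.odd_iff.mpr h5
      rw [h5, h6.neg_one_pow]; norm_num

theorem redR1 {a b c : ℤ} {l m k : ℕ} {s t : ℤ} (h : ISol a b c l m k s t) {B R : ℕ} (hR : 3 ≤ R)
    (hB : 2 ≤ a.natAbs → l ≤ B) : ∃ l', l' ≤ B + 2 * R + 1 ∧ (l' = l ∨ R ≤ l') ∧ a ^ l' = a ^ l ∧
      ISol a b c l' m k s t := by
  rcases Nat.lt_or_ge a.natAbs 2 with h1 | h1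
  · have h2 : a.natAbs = 1 := by
      have := Int.natAbs_pos.mpr h.a0
      omega
    have h3 := unit_powR h2 R l
    refine ⟨2 * R + l % 2, by omega, Or.inr (by omega), h3, h.a0, h.b0, h.c0, h.ab, by omega, h.m0, h.k0,
      ?_, h.s1, h.t1, ?_⟩
    · have := third_exp (k' := 2 * R + l % 2) h.m0 h.k0
        (by have := h.le; nlinarith : k * l + l * m + m * k ≤ m * k * l) (by omega)
      nlinarith
    · rw [h3]; exact h.eq
  · exact ⟨l, by have := hB h1; omega, Or.inl rfl, rfl, h⟩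

theorem redR2 {a b c : ℤ} {l m k : ℕ} {s t : ℤ} (h : ISol a b c l m k s t) {B R : ℕ} (hR : 3 ≤ R)
    (hB : 2 ≤ b.natAbs → m ≤ B) : ∃ m', m' ≤ B + 2 * R + 1 ∧ (m' = m ∨ R ≤ m') ∧ b ^ m' = b ^ m ∧
      ISol a b c l m' k s t := by
  rcases Nat.lt_or_ge b.natAbs 2 with h1 | h1
  · have h2 : b.natAbs = 1 := by
      have := Int.natAbs_pos.mpr h.b0
      omega
    have h3 := unit_powR h2 R m
    refine ⟨2 * R + m % 2, by omega, Or.inr (by omega), h3, h.a0, h.b0, h.c0, h.ab, h.l0, by omega, h.k0,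
      ?_, h.s1, h.t1, ?_⟩
    · have := third_exp (k' := 2 * R + m % 2) h.k0 h.l0
        (by have := h.le; nlinarith : l * m + m * k + k * l ≤ k * l * m) (by omega)
      nlinarith
    · rw [h3]; exact h.eq
  · exact ⟨m, by have := hB h1; omega, Or.inl rfl, rfl, h⟩

theorem redR3 {a b c : ℤ} {l m k : ℕ} {s t : ℤ} (h : ISol a b c l m k s t) {B R : ℕ} (hR : 3 ≤ R)
    (hB : 2 ≤ c.natAbs → k ≤ B) : ∃ k', k' ≤ B + 2 * R + 1 ∧ (k' = k ∨ R ≤ k') ∧ c ^ k' = c ^ k ∧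
      ISol a b c l m k' s t := by
  rcases Nat.lt_or_ge c.natAbs 2 with h1 | h1
  · have h2 : c.natAbs = 1 := by
      have := Int.natAbs_pos.mpr h.c0
      omega
    have h3 := unit_powR h2 R k
    refine ⟨2 * R + k % 2, by omega, Or.inr (by omega), h3, h.a0, h.b0, h.c0, h.ab, h.l0, h.m0, by omega,
      ?_, h.s1, h.t1, ?_⟩
    · exact third_exp (k' := 2 * R + k % 2) h.l0 h.m0 h.le (by omega)
    · rw [h3]; exact h.eq
  · exact ⟨k, by have := hB h1; omega, Or.inl rfl, rfl, h⟩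

theorem exists_W (M r : ℕ) (hM : 1 ≤ M) (hr : 1 ≤ r) :
    ∃ W, 1 ≤ W ∧ W ^ r ≤ M ∧ ∀ w : ℕ, w ^ r ≤ M → w ≤ W := by
  classical
  refine ⟨Nat.findGreatest (fun w => w ^ r ≤ M) M, ?_, ?_, ?_⟩
  · exact Nat.le_findGreatest hM (by rw [one_pow]; exact hM)
  · exact Nat.findGreatest_spec (P := fun w => w ^ r ≤ M) (m := 1) hM (by simpa using hM)
  · intro w hw
    exact Nat.le_findGreatest ((Nat.le_self_pow (by omega) w).trans hw) hw

/-- the solutions with a large exponent -/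
def La (N R S : ℕ) : Set (ℕ × ℕ × ℕ × ℕ × ℕ) := {v | ∃ x y z p q r : ℕ, 1 ≤ x ∧ x ≤ N ∧ 1 ≤ y ∧
  y ≤ N ∧ Nat.Coprime x y ∧ 1 ≤ z ∧ z ≤ 2 ^ S ∧ 2 ≤ p ∧ 2 ≤ q ∧ R ≤ r ∧ (R ≤ p ∨ R ≤ q) ∧
    Eq3 x y z p q r ∧ v = (x, y, x ^ p, y ^ q, z ^ r)}

theorem la_count {C κ : ℕ} (hC : ∀ S : ℕ, 2 ≤ S → ∀ (a b c : ℤ) (l m k : ℕ) (s t : ℤ),
    ISol a b c l m k s t → a.natAbs ≤ 2 ^ S → b.natAbs ≤ 2 ^ S → c.natAbs ≤ 2 ^ S →
    (2 ≤ a.natAbs → l ≤ C * S ^ κ) ∧ (2 ≤ b.natAbs → m ≤ C * S ^ κ) ∧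
      (2 ≤ c.natAbs → k ≤ C * S ^ κ)) (hbez : Bez) (hhgt : Hgt) {N b Z X₀ X₁ C₁ S R : ℕ}
    {𝒬 : Finset ℕ} (P : Par N b Z X₀ X₁ 𝒬) (hspa : SpaAt (5 * b) C₁) (hspe : SpeAt (5 * b) N X₁)
    (hS : 2 ≤ S) (hNS : N ≤ 2 ^ S) (hZ : C * S ^ κ + 2 * R + 1 ≤ Z) (hR6 : 6 ≤ R)
    (hRb : 32 * b ^ 2 ≤ R) (hRC : C₁ * (5 * b) < R) (hRC' : C₁ ≤ R) :
    (La N R S).Finite ∧ (La N R S).ncard ≤ (Z + 1) ^ 3 * 4 * (X₁ ^ 3 * Z ^ 51) := by
  classical
  have hN2 := P.N2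
  -- the function `W`
  have hWex : ∀ e : ℕ × ℕ, ∃ W : ℕ, 1 ≤ e.1 → 1 ≤ W ∧ W ^ e.1 ≤ 2 * N ^ e.2 ∧
      ∀ w : ℕ, w ^ e.1 ≤ 2 * N ^ e.2 → w ≤ W := by
    intro e
    by_cases he : 1 ≤ e.1
    · obtain ⟨W, hW⟩ := exists_W (2 * N ^ e.2) e.1 (by
        have : 1 ≤ N ^ e.2 := Nat.one_le_pow _ _ (by omega)
        omega) he
      exact ⟨W, fun _ => hW⟩
    · exact ⟨0, fun h => absurd h he⟩
  choose Wf hWf using hWex
  set box : Finset (ℤ × ℤ) := Icc (1 : ℤ) N ×ˢ Icc (1 : ℤ) N with hbox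
  set A : (ℕ × ℕ × ℕ) × (ℤ × ℤ) → Finset (ℤ × ℤ) := fun e => box.filter (fun v =>
    (R ≤ e.1.2.2 ∧ 1 ≤ e.1.1 ∧ 1 ≤ e.1.2.1 ∧ (R ≤ e.1.1 ∨ R ≤ e.1.2.1)) ∧
    Pt N (Wf (e.1.2.2, max e.1.1 e.1.2.1)) e.1.2.2 e.1.1 e.1.2.1 e.2.1 e.2.2 v) with hA
  set J : Finset ((ℕ × ℕ × ℕ) × (ℤ × ℤ)) :=
    (range (Z + 1) ×ˢ range (Z + 1) ×ˢ range (Z + 1)) ×ˢ
        (({1, -1} : Finset ℤ) ×ˢ ({1, -1} : Finset ℤ)) with hJ
  have hJc : J.card = (Z + 1) ^ 3 * 4 := by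
    rw [hJ, card_product, card_product, card_product, card_range]
    have h1 : (({1, -1} : Finset ℤ) ×ˢ ({1, -1} : Finset ℤ)).card = 4 := by decide
    rw [h1]; ring
  have hAc : ∀ e ∈ J, (A e).card ≤ X₁ ^ 3 * Z ^ 51 := by
    rintro ⟨⟨p, q, r⟩, s, t⟩ he
    simp only [hJ, mem_product, mem_range, mem_insert, mem_singleton] at he
    obtain ⟨⟨h1, h2, h3⟩, hs, ht⟩ := he
    by_cases hc : R ≤ r ∧ 1 ≤ p ∧ 1 ≤ q ∧ (R ≤ p ∨ R ≤ q)
    · obtain ⟨w1, w2, -⟩ := hWf (r, max p q) (by simp only; omega)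
      apply fixed_count hbez hhgt P hspa hspe (W := Wf (r, max p q)) (z := r) (p := p) (q := q)
        (s := s) (t := t) (by omega) (by omega) (by omega) hc.2.1 hc.2.2.1 (by omega) (by omega)
        (by omega) w1 w2 hs ht
      intro v hv
      simp only [hA, mem_filter] at hv
      exact hv.2.2
    · have : A ((p, q, r), s, t) = ∅ := by
        rw [Finset.eq_empty_iff_forall_notMem]
        intro v hv
        simp only [hA, mem_filter] at hv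
        exact hc hv.2.1
      rw [this, card_empty]
      exact Nat.zero_le _
  set f : (_ : (ℕ × ℕ × ℕ) × (ℤ × ℤ)) × (ℤ × ℤ) → ℕ × ℕ × ℕ × ℕ × ℕ := fun u =>
    (u.2.1.natAbs, u.2.2.natAbs, u.2.1.natAbs ^ u.1.1.1, u.2.2.natAbs ^ u.1.1.2.1,
      (u.1.2.2 * (u.2.1 ^ u.1.1.1 + u.1.2.1 * u.2.2 ^ u.1.1.2.1)).natAbs) with hf
  have hsub : La N R S ⊆ (((J.sigma A).image f : Finset (ℕ × ℕ × ℕ × ℕ × ℕ)) :
      Set (ℕ × ℕ × ℕ × ℕ × ℕ)) := by
    rintro v ⟨x, y, z, p, q, r, hx1, hxN, hy1, hyN, hcop, hz1, hzS, hp, hq, hr, hpq, h, rfl⟩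
    obtain ⟨s, t, hs, ht, heq⟩ := h.signs
    have hI : ISol (x : ℤ) (y : ℤ) (z : ℤ) p q r s t := by
      refine ⟨by omega, by omega, by omega, Nat.isCoprime_iff_coprime.mpr hcop, by omega, by omega,
        by omega, hyper hp hq (by omega) (by omega), hs, ht, heq⟩
    obtain ⟨b1, b2, b3⟩ := hC S hS _ _ _ p q r s t hI (by rw [Int.natAbs_natCast]; omega)
      (by rw [Int.natAbs_natCast]; omega) (by rw [Int.natAbs_natCast]; exact hzS)
    obtain ⟨p', hp', ep, fp, hI1⟩ := redR1 hI (R := R) (by omega) b1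
    obtain ⟨q', hq', eq', fq, hI2⟩ := redR2 hI1 (R := R) (by omega) b2
    obtain ⟨r', hr', er, fr, hI3⟩ := redR3 hI2 (R := R) (by omega) b3
    have hrR : R ≤ r' := by omega
    have hpqR : R ≤ p' ∨ R ≤ q' := by omega
    have hp1 : 1 ≤ p' := hI3.l0
    have hq1 : 1 ≤ q' := hI3.m0
    have ht2 : t * t = 1 := by rcases ht with rfl | rfl <;> norm_num
    rw [mem_coe, mem_image]
    refine ⟨⟨((p', q', r'), (s, t)), ((x : ℤ), (y : ℤ))⟩, ?_, ?_⟩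
    · rw [mem_sigma]
      constructor
      · simp only [hJ, mem_product, mem_range, mem_insert, mem_singleton]
        exact ⟨⟨by omega, by omega, by omega⟩, hs, ht⟩
      · simp only [hA, hbox, mem_filter, mem_product, mem_Icc]
        refine ⟨⟨⟨by omega, by omega⟩, by omega, by omega⟩, ⟨hrR, hp1, hq1, hpqR⟩, by simp only; omega,
          by simp only; omega, by simp only; omega, by simp only; omega, hI3.ab, (z : ℤ), hI3.c0, ?_, ?_⟩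
        · obtain ⟨-, -, w3⟩ := hWf (r', max p' q') (by simp only; omega)
          rw [abs_of_nonneg (Int.natCast_nonneg z)]
          have : z ≤ Wf (r', max p' q') := by
            apply w3
            simp only
            have h1 : ((z ^ r' : ℕ) : ℤ) ≤ ((x ^ p' + y ^ q' : ℕ) : ℤ) := by
              push_cast
              have e1 := hI3.eq
              have hx0 : (0 : ℤ) ≤ (x : ℤ) ^ p' := by positivity
              have hy0 : (0 : ℤ) ≤ (y : ℤ) ^ q' := by positivity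
              have hz0 : (0 : ℤ) ≤ (z : ℤ) ^ r' := by positivity
              rcases hs with rfl | rfl <;> rcases ht with rfl | rfl <;> linarith
            have h2 : z ^ r' ≤ x ^ p' + y ^ q' := by exact_mod_cast h1
            have h3 : x ^ p' ≤ N ^ (max p' q') :=
              (Nat.pow_le_pow_left hxN p').trans (Nat.pow_le_pow_right (by omega) (le_max_left _ _))
            have h4 : y ^ q' ≤ N ^ (max p' q') :=
              (Nat.pow_le_pow_left hyN q').trans (Nat.pow_le_pow_right (by omega) (le_max_right _ _))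
            omega
          exact_mod_cast this
        · rw [gf_eval, hI3.eq]
          linear_combination (-((z : ℤ) ^ r')) * ht2
    · have e1 : x ^ p' = x ^ p := by exact_mod_cast fp
      have e2 : y ^ q' = y ^ q := by exact_mod_cast fq
      have e3 : t * ((x : ℤ) ^ p' + s * (y : ℤ) ^ q') = ((z ^ r : ℕ) : ℤ) := by
        rw [fp, fq, heq]
        push_cast
        linear_combination ((z : ℤ) ^ r) * ht2
      simp only [hf, Int.natAbs_natCast, e1, e2, e3]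
  have hcard : ((J.sigma A).image f).card ≤ (Z + 1) ^ 3 * 4 * (X₁ ^ 3 * Z ^ 51) := by
    refine card_image_le.trans ?_
    rw [card_sigma, ← hJc]
    exact (sum_le_card_nsmul _ _ _ hAc).trans (le_of_eq (by rw [smul_eq_mul]))
  refine ⟨(Finset.finite_toSet _).subset hsub, ?_⟩
  refine (Set.ncard_le_ncard hsub (Finset.finite_toSet _)).trans ?_
  rw [Set.ncard_coe_finset]
  exact hcard

/-- the solutions of the equation `x ^ p + y ^ q = z ^ r` (the term `z ^ r` being in any position) with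
coprime `x, y ≤ N`, `z ≤ W`, `p, q ≥ 2`, `r ≥ R`: the pairs of bases with the values of the three terms -/
def Sols (N R : ℕ) (W : ℝ) : Set (ℕ × ℕ × ℕ × ℕ × ℕ) := {v | ∃ x y z p q r : ℕ, 1 ≤ x ∧ x ≤ N ∧
  1 ≤ y ∧ y ≤ N ∧ Nat.Coprime x y ∧ 1 ≤ z ∧ (z : ℝ) ≤ W ∧ 2 ≤ p ∧ 2 ≤ q ∧ R ≤ r ∧
    Eq3 x y z p q r ∧ v = (x, y, x ^ p, y ^ q, z ^ r)}

theorem main (ε : ℝ) (hε : 0 < ε) : ∃ (R : ℕ) (c : ℝ) (N₀ : ℕ), 0 < c ∧ ∀ N : ℕ, N₀ ≤ N →
    (Sols N R (Real.exp ((N : ℝ) ^ c))).Finite ∧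
      ((Sols N R (Real.exp ((N : ℝ) ^ c))).ncard : ℝ) ≤ (N : ℝ) ^ ε := by
  have hbez : Bez := Pool.Agent.N157.LD.bez
  have hhgt : Hgt := Pool.Agent.N767.LD.hgt hbez
  have hspa : Spa := Pool.Agent.N141.LD.spa Pool.Agent.N525.LD.few
  have hspe : Spe := Pool.Agent.N767.LD.spe
  obtain ⟨C, κ, hC⟩ := exps_int
  obtain ⟨b, hb⟩ := exists_nat_ge (14 / ε)
  have hb0 : (0 : ℝ) < b := lt_of_lt_of_le (by positivity) hb
  have hb1 : 1 ≤ b := by exact_mod_cast hb0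
  have hbε : 7 / (b : ℝ) ≤ ε / 2 := by
    rw [div_le_iff₀ hb0]
    rw [div_le_iff₀ hε] at hb
    linarith
  obtain ⟨C₁, hC₁⟩ := hspa (5 * b)
  obtain ⟨Ns, hNs⟩ := hspe (5 * b) (1 / (b : ℝ)) (by positivity)
  obtain ⟨R', Y₀, hY⟩ := Pool.Agent.Y902.FB.main (ε / 4) (by positivity)
  obtain ⟨R, hR⟩ : ∃ R, R = R' + 6 + 32 * b ^ 2 + C₁ * (5 * b) + C₁ + 1 := ⟨_, rfl⟩
  obtain ⟨c, hc, N₁, hN₁⟩ := params b C κ R hb1
  obtain ⟨L, hL⟩ := Pool.Agent.N741.PB.ev_rpow (show 0 < ε / 2 by positivity) (3 * (R : ℝ) ^ 2 + 1)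
  refine ⟨R, c, Ns + Y₀ + N₁ + L + 2, hc, fun N hN => ?_⟩
  obtain ⟨S, Z, X₀, X₁, 𝒬, P, hS, hNS, hWS, hZ, hX, hfin⟩ := hN₁ N (by omega)
  have hN2 := P.N2
  have hN1 : (1 : ℝ) ≤ N := by exact_mod_cast (by omega : 1 ≤ N)
  have hN2' : (2 : ℝ) ≤ N := by exact_mod_cast hN2
  have hNpos : (0 : ℝ) < N := by linarith
  have hspeAt : SpeAt (5 * b) N X₁ := by
    intro A h1 h2 h3 h4 h5 h6 T hT
    have h7 := (hNs N (by omega) A h1 h2 h3 h4 h5 h6 T hT).trans hX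
    exact_mod_cast h7
  have hla := la_count hC hbez hhgt P hC₁ hspeAt hS hNS hZ (by omega) (by omega) (by omega) (by omega)
  obtain ⟨hTf, hTc⟩ := hY (2 * N) (by omega)
  have hsm := sm_count (N := N) (R := R) (R' := R') (by omega) (by omega) hTf
  have hsub : Sols N R (Real.exp ((N : ℝ) ^ c)) ⊆ Sm N R ∪ La N R S := by
    rintro v ⟨x, y, z, p, q, r, h1, h2, h3, h4, h5, hz, hzW, hp, hq, hr, h, hv⟩
    have hzS : z ≤ 2 ^ S := by
      have := hzW.trans hWS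
      exact_mod_cast this
    by_cases hpq : R ≤ p ∨ R ≤ q
    · exact Or.inr ⟨x, y, z, p, q, r, h1, h2, h3, h4, h5, hz, hzS, hp, hq, hr, hpq, h, hv⟩
    · exact Or.inl ⟨x, y, z, p, q, r, h1, h2, h3, h4, h5, hz, hp, hq, hr, by omega, by omega, h, hv⟩
  refine ⟨(hsm.1.union hla.1).subset hsub, ?_⟩
  have h1 : (Sols N R (Real.exp ((N : ℝ) ^ c))).ncard ≤ (Sm N R).ncard + (La N R S).ncard :=
    (Set.ncard_le_ncard hsub (hsm.1.union hla.1)).trans (Set.ncard_union_le _ _)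
  have h2 : ((Sm N R).ncard : ℝ) ≤ 3 * (R : ℝ) ^ 2 * (N : ℝ) ^ (ε / 2) := by
    have e1 : ((Sm N R).ncard : ℝ) ≤ ((3 * (R * R * (Pool.Agent.Y902.FB.Triples (2 * N) R').ncard) : ℕ) : ℝ) := by
      exact_mod_cast hsm.2
    have e2 : (((2 * N : ℕ) : ℝ)) ^ (ε / 4) ≤ (N : ℝ) ^ (ε / 2) := by
      calc (((2 * N : ℕ) : ℝ)) ^ (ε / 4) ≤ ((N : ℝ) ^ (2 : ℝ)) ^ (ε / 4) := by
            apply Real.rpow_le_rpow (by positivity) _ (by positivity)
            push_cast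
            rw [Real.rpow_two]
            nlinarith
        _ = (N : ℝ) ^ (ε / 2) := by
            rw [← Real.rpow_mul hNpos.le]
            congr 1; ring
    push_cast at e1
    calc ((Sm N R).ncard : ℝ) ≤ 3 * ((R : ℝ) * R * (Pool.Agent.Y902.FB.Triples (2 * N) R').ncard) := e1
      _ ≤ 3 * ((R : ℝ) * R * (N : ℝ) ^ (ε / 2)) := by
        gcongr
        exact hTc.trans e2
      _ = _ := by ring
  have h3 : ((La N R S).ncard : ℝ) ≤ (N : ℝ) ^ (ε / 2) := by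
    calc ((La N R S).ncard : ℝ) ≤ (((Z + 1) ^ 3 * 4 * (X₁ ^ 3 * Z ^ 51) : ℕ) : ℝ) := by
          exact_mod_cast hla.2
      _ ≤ (N : ℝ) ^ (7 / (b : ℝ)) := hfin
      _ ≤ _ := Real.rpow_le_rpow_of_exponent_le hN1 hbε
  have h4 := hL N (by omega)
  calc ((Sols N R (Real.exp ((N : ℝ) ^ c))).ncard : ℝ)
      ≤ (Sm N R).ncard + (La N R S).ncard := by exact_mod_cast h1
    _ ≤ 3 * (R : ℝ) ^ 2 * (N : ℝ) ^ (ε / 2) + (N : ℝ) ^ (ε / 2) := add_le_add h2 h3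
    _ = (3 * (R : ℝ) ^ 2 + 1) * (N : ℝ) ^ (ε / 2) := by ring
    _ ≤ (N : ℝ) ^ (ε / 2) * (N : ℝ) ^ (ε / 2) := by gcongr
    _ = (N : ℝ) ^ ε := by rw [← Real.rpow_add hNpos]; congr 1; ring

end Pool.Agent.N741.LD
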